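import Pool.Agent.H834R2.Twist

/-! The cyclic actions. -/

set_option autoImplicit false

open Set Filter Topology
open scoped Topology ContDiff Real Manifold

namespace Pool.Agent.H834R2

noncomputable section

/-- the twist on the hypersurface -/
def tS {j : ℤ} {p : ℝ} (hp : p = 1 + 4 * j) (hp0 : p ≠ 0) (k : ℤ) (σ : S) : S :=
  ⟨twist j (2 * k / p) σ.1, by
    show Phi _ = 0
    rw [Phi_twist hp hp0]; exact σ.2⟩

variable {j : ℤ} {p : ℝ} (hp : p = 1 + 4 * j) (hp0 : p ≠ 0)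

lemma tS_val (k : ℤ) (σ : S) : (tS hp hp0 k σ).1 = twist j (2 * k / p) σ.1 := rfl

lemma tS_smul (k : ℤ) (g : Lat) (σ : S) : tS hp hp0 k (g • σ) = g • tS hp hp0 k σ := by
  apply Subtype.ext
  rw [tS_val, smul_val, smul_val, tS_val, twist_lam]

/-- the twist on the quotient -/
def tX (k : ℤ) (x : X) : X := pr (tS hp hp0 k (sec x))

lemma tX_pr (k : ℤ) (σ : S) : tX hp hp0 k (pr σ) = pr (tS hp hp0 k σ) := by
  obtain ⟨g, hg⟩ := pr_cov.apply_eq_iff_mem_orbit.mp (pr_sec (pr σ))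
  have hg' : g • σ = sec (pr σ) := hg
  unfold tX
  rw [← hg', tS_smul, pr_smul]

lemma tX_zero (x : X) : tX hp hp0 0 x = x := by
  obtain ⟨σ, rfl⟩ := pr_cov.surjective x
  rw [tX_pr]
  congr 1
  apply Subtype.ext
  rw [tS_val]
  have : (2 * ((0 : ℤ) : ℝ) / p) = 0 := by simp
  rw [this, twist_zero]

lemma tX_add (k l : ℤ) (x : X) : tX hp hp0 (k + l) x = tX hp hp0 k (tX hp hp0 l x) := by
  obtain ⟨σ, rfl⟩ := pr_cov.surjective x
  rw [tX_pr, tX_pr, tX_pr]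
  congr 1
  apply Subtype.ext
  rw [tS_val, tS_val, tS_val, twist_add]
  congr 1
  push_cast
  ring

lemma tX_mul (m k : ℤ) (hk : (k : ℝ) = p) (x : X) : tX hp hp0 (k * m) x = x := by
  obtain ⟨σ, rfl⟩ := pr_cov.surjective x
  rw [tX_pr]
  have h : tS hp hp0 (k * m) σ = (Multiplicative.ofAdd ![0, 0, 0, 2 * m] : Lat) • σ := by
    apply Subtype.ext
    rw [tS_val, smul_val]
    have : (2 * ((k * m : ℤ) : ℝ) / p) = ((2 * m : ℤ) : ℝ) := by
      push_cast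
      rw [hk]
      field_simp
    rw [this, twist_int]
    rfl
  rw [h, pr_smul]

lemma tX_smooth (k : ℤ) : ContMDiff (𝓡 4) (𝓡 4) ∞ (tX hp hp0 k) := by
  intro x
  have hx : x ∈ (li (sec x)).source := by
    have := li_mem (sec x)
    rwa [pr_sec] at this
  have h1 : ContMDiffAt (𝓡 4) 𝓘(ℝ, E5) ∞ (fun w => (tS hp hp0 k (li (sec x) w)).1) x :=
    (contDiff_twist j (2 * k / p)).contMDiff.contMDiffAt.comp x (contMDiffAt_li (sec x) hx)
  have h2 := contMDiffAt_pr h1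
  apply h2.congr_of_eventuallyEq
  filter_upwards [(li (sec x)).open_source.mem_nhds hx] with w hw
  rw [← tX_pr, pr_li _ hw]

/-- no fixed points -/
lemma tX_free {q : ℕ} (hq : q.Prime) (hq2 : q ≠ 2) (hqp : (q : ℝ) = p) {k : ℤ} (hk : ¬ (q : ℤ) ∣ k)
    (x : X) : tX hp hp0 k x ≠ x := by
  obtain ⟨σ, rfl⟩ := pr_cov.surjective x
  rw [tX_pr]
  intro h
  obtain ⟨g, hg⟩ := pr_cov.apply_eq_iff_mem_orbit.mp h
  have hg' : g • σ = tS hp hp0 k σ := hg
  have h3 : σ.1.1 3 + ((g.toAdd 3 : ℤ) : ℝ) = σ.1.1 3 + 2 * k / p :=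
    congrArg (fun τ : S => τ.1.1 3) hg'
  have h4 : ((g.toAdd 3 : ℤ) : ℝ) = 2 * k / p := by linarith
  have h5 : ((g.toAdd 3 : ℤ) : ℝ) * p = 2 * k := by
    rw [h4]; field_simp
  rw [← hqp] at h5
  have h6 : (g.toAdd 3) * (q : ℤ) = 2 * k := by exact_mod_cast h5
  have h7 : (q : ℤ) ∣ 2 * k := ⟨g.toAdd 3, by rw [← h6]; ring⟩
  have hqi : Prime (q : ℤ) := Nat.prime_iff_prime_int.1 hq
  rcases hqi.dvd_or_dvd h7 with h8 | h8
  · have h9 : q ∣ 2 := by exact_mod_cast h8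
    exact hq2 ((Nat.prime_dvd_prime_iff_eq hq Nat.prime_two).1 h9)
  · exact hk h8

/-- The cyclic action. -/
theorem exists_cyclic_action (q : ℕ) (hq : q.Prime) (hq4 : q % 4 = 1) :
    ∃ _ : MulAction (Multiplicative (ZMod q)) X,
      (∀ g : Multiplicative (ZMod q), ContMDiff (𝓡 4) (𝓡 4) ∞ (fun x : X => g • x)) ∧
      ∀ g : Multiplicative (ZMod q), g ≠ 1 → ∀ x : X, g • x ≠ x := by
  have : NeZero q := ⟨hq.ne_zero⟩
  obtain ⟨j, hj⟩ : ∃ j : ℤ, (q : ℝ) = 1 + 4 * j := by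
    obtain ⟨m, hm⟩ : ∃ m : ℕ, q = 1 + 4 * m := ⟨q / 4, by omega⟩
    refine ⟨(m : ℤ), ?_⟩
    exact_mod_cast hm
  have hq0 : (q : ℝ) ≠ 0 := by exact_mod_cast hq.ne_zero
  let A : MulAction (Multiplicative (ZMod q)) X :=
    { smul := fun g x => tX hj hq0 (g.toAdd.val : ℤ) x
      one_smul := by
        intro x
        show tX hj hq0 (((0 : ZMod q).val : ℕ) : ℤ) x = x
        rw [ZMod.val_zero]
        exact tX_zero hj hq0 x
      mul_smul := by
        intro g h x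
        show tX hj hq0 (((g.toAdd + h.toAdd).val : ℕ) : ℤ) x =
          tX hj hq0 ((g.toAdd.val : ℕ) : ℤ) (tX hj hq0 ((h.toAdd.val : ℕ) : ℤ) x)
        rw [← tX_add]
        have h1 : (g.toAdd + h.toAdd).val = (g.toAdd.val + h.toAdd.val) % q := ZMod.val_add _ _
        have h2 := Nat.mod_add_div (g.toAdd.val + h.toAdd.val) q
        rw [← h1] at h2
        have h3 : ((g.toAdd.val : ℕ) : ℤ) + ((h.toAdd.val : ℕ) : ℤ) =
            ((g.toAdd + h.toAdd).val : ℤ) + (q : ℤ) * (((g.toAdd.val + h.toAdd.val) / q : ℕ) : ℤ) := by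
          exact_mod_cast h2.symm
        rw [h3, tX_add, tX_mul hj hq0 _ (q : ℤ) (by simp)] }
  refine ⟨A, ?_, ?_⟩
  · intro g
    exact tX_smooth hj hq0 _
  · intro g hg x
    apply tX_free hj hq0 hq (by rintro rfl; omega) rfl
    intro hdvd
    apply hg
    have h1 : q ∣ g.toAdd.val := by exact_mod_cast hdvd
    have h2 : g.toAdd.val = 0 := Nat.eq_zero_of_dvd_of_lt h1 (ZMod.val_lt _)
    have h3 : g.toAdd = 0 := (ZMod.val_eq_zero _).1 h2
    exact Multiplicative.toAdd.injective h3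

end

end Pool.Agent.H834R2
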