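import Mathlib

/-! Charts adapted to a regular level set. -/

set_option autoImplicit false

open Metric Set Filter Topology
open scoped Topology ContDiff NNReal

namespace Pool.Agent.H834R2

variable {V : Type*} [NormedAddCommGroup V] [NormedSpace ℝ V] [FiniteDimensional ℝ V]

theorem exists_compl_proj (f : (V × ℝ) →L[ℝ] ℝ) (hf : f ≠ 0) :
    ∃ P : (V × ℝ) →L[ℝ] V, ∀ u, P u = 0 → f u = 0 → u = 0 := by
  have hsurj : Function.Surjective (f : (V × ℝ) →ₗ[ℝ] ℝ) := by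
    apply LinearMap.surjective
    intro h
    apply hf
    ext u <;> simpa using congrArg (fun g : (V × ℝ) →ₗ[ℝ] ℝ => g _) h
  have h1 := LinearMap.finrank_range_add_finrank_ker (f : (V × ℝ) →ₗ[ℝ] ℝ)
  have h2 : Module.finrank ℝ (LinearMap.range (f : (V × ℝ) →ₗ[ℝ] ℝ)) = 1 := by
    rw [LinearMap.range_eq_top.2 hsurj, finrank_top]
    exact Module.finrank_self ℝ
  have h3 : Module.finrank ℝ (V × ℝ) = Module.finrank ℝ V + 1 := by
    rw [Module.finrank_prod, Module.finrank_self]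
  have h4 : Module.finrank ℝ (LinearMap.ker (f : (V × ℝ) →ₗ[ℝ] ℝ)) = Module.finrank ℝ V := by
    omega
  let eq : LinearMap.ker (f : (V × ℝ) →ₗ[ℝ] ℝ) ≃ₗ[ℝ] V := LinearEquiv.ofFinrankEq _ _ h4
  obtain ⟨π, hπ⟩ := LinearMap.exists_leftInverse_of_injective
    (LinearMap.ker (f : (V × ℝ) →ₗ[ℝ] ℝ)).subtype (Submodule.ker_subtype _)
  refine ⟨LinearMap.toContinuousLinearMap ((eq : _ →ₗ[ℝ] V).comp π), ?_⟩
  intro u hu hfu
  have h5 : π u = 0 := by
    have : eq (π u) = 0 := hu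
    exact eq.map_eq_zero_iff.1 this
  have h6 : π u = ⟨u, hfu⟩ := by
    have := congrArg (fun g => g (⟨u, hfu⟩ : LinearMap.ker (f : (V × ℝ) →ₗ[ℝ] ℝ))) hπ
    simpa using this
  rw [h5] at h6
  have := congrArg Subtype.val h6
  simpa using this.symm

/-- adapted chart of a regular level set -/
theorem exists_chart {Φ : V × ℝ → ℝ} (hΦ : ContDiff ℝ ∞ Φ) (p : V × ℝ) (hp : fderiv ℝ Φ p ≠ 0) :
    ∃ (P : (V × ℝ) →L[ℝ] V) (e : OpenPartialHomeomorph (V × ℝ) (V × ℝ)), p ∈ e.source ∧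
      (∀ q, e q = (P q, Φ q)) ∧
      (∀ q ∈ e.source, ∀ u, P u = 0 → fderiv ℝ Φ q u = 0 → u = 0) ∧
      ContDiffOn ℝ ∞ e.symm e.target := by
  obtain ⟨P, hP⟩ := exists_compl_proj (fderiv ℝ Φ p) hp
  set G : V × ℝ → V × ℝ := fun q => (P q, Φ q) with hG
  have hGs : ContDiff ℝ ∞ G := P.contDiff.prodMk hΦ
  have hGd : ∀ q, HasFDerivAt G (P.prod (fderiv ℝ Φ q)) q := fun q =>
    P.hasFDerivAt.prodMk ((hΦ.differentiable (by simp) q).hasFDerivAt)
  have hinj : Function.Injective (P.prod (fderiv ℝ Φ p)) := by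
    rw [injective_iff_map_eq_zero]
    intro u hu
    apply hP
    · exact congrArg Prod.fst hu
    · exact congrArg Prod.snd hu
  let L : (V × ℝ) ≃L[ℝ] (V × ℝ) :=
    (LinearEquiv.ofInjectiveEndo (P.prod (fderiv ℝ Φ p) : (V × ℝ) →ₗ[ℝ] (V × ℝ)) hinj).toContinuousLinearEquiv
  have hL : (L : (V × ℝ) →L[ℝ] (V × ℝ)) = P.prod (fderiv ℝ Φ p) := by
    ext x <;> rfl
  have hGL : HasFDerivAt G (L : (V × ℝ) →L[ℝ] (V × ℝ)) p := by rw [hL]; exact hGd p
  set e0 := (hGs.contDiffAt (x := p)).toOpenPartialHomeomorph G hGL (by simp) with he0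
  have hpe0 : p ∈ e0.source := ContDiffAt.mem_toOpenPartialHomeomorph_source _ _ _
  set D : Set (V × ℝ) := {z | fderiv ℝ G z ∈
    range ((↑) : ((V × ℝ) ≃L[ℝ] (V × ℝ)) → (V × ℝ) →L[ℝ] (V × ℝ))} with hD
  have hDo : IsOpen D := by
    have hc : Continuous (fderiv ℝ G) := hGs.continuous_fderiv (by simp)
    exact (ContinuousLinearEquiv.isOpen (𝕜 := ℝ) (E := V × ℝ) (F := V × ℝ)).preimage hc
  have hpD : p ∈ D := ⟨L, by rw [hL, (hGd p).fderiv]⟩
  refine ⟨P, e0.restrOpen D hDo, ⟨hpe0, hpD⟩, fun q => rfl, ?_, ?_⟩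
  · intro q hq u hu1 hu2
    obtain ⟨f', hf'⟩ := hq.2
    rw [(hGd q).fderiv] at hf'
    have h1 : (f' : (V × ℝ) →L[ℝ] (V × ℝ)) u = 0 := by
      rw [hf']
      exact Prod.ext hu1 hu2
    exact f'.map_eq_zero_iff.1 h1
  · intro z hz
    have hzs := (e0.restrOpen D hDo).map_target hz
    obtain ⟨f', hf'⟩ := hzs.2
    have h1 : ContDiffAt ℝ ∞ (e0.restrOpen D hDo).symm z := by
      apply (e0.restrOpen D hDo).contDiffAt_symm hz (f₀' := f')
      · rw [hf']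
        exact ((hGs.differentiable (by simp)) _).hasFDerivAt
      · exact hGs.contDiffAt
    exact h1.contDiffWithinAt

end Pool.Agent.H834R2
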