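import Pool.Agent.H834R2.Model

/-! The hypersurface is path connected. -/

set_option autoImplicit false

open Set Filter Topology
open scoped Topology ContDiff Real

namespace Pool.Agent.H834R2

noncomputable section

/-- the point with given coordinates -/
def pE (x0 x1 x2 s y : ℝ) : E5 := ((!₂[x0, x1, x2, s] : V4), y)

lemma pE_0 (x0 x1 x2 s y : ℝ) : (pE x0 x1 x2 s y).1 0 = x0 := rfl
lemma pE_1 (x0 x1 x2 s y : ℝ) : (pE x0 x1 x2 s y).1 1 = x1 := rfl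
lemma pE_2 (x0 x1 x2 s y : ℝ) : (pE x0 x1 x2 s y).1 2 = x2 := rfl
lemma pE_3 (x0 x1 x2 s y : ℝ) : (pE x0 x1 x2 s y).1 3 = s := rfl
lemma pE_y (x0 x1 x2 s y : ℝ) : (pE x0 x1 x2 s y).2 = y := rfl

lemma E5_ext {ξ η : E5} (h0 : ξ.1 0 = η.1 0) (h1 : ξ.1 1 = η.1 1) (h2 : ξ.1 2 = η.1 2)
    (h3 : ξ.1 3 = η.1 3) (hy : ξ.2 = η.2) : ξ = η := by
  apply Prod.ext
  · ext i
    fin_cases i
    · exact h0
    · exact h1
    · exact h2
    · exact h3
  · exact hy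

lemma eq_pE (ξ : E5) : ξ = pE (ξ.1 0) (ξ.1 1) (ξ.1 2) (ξ.1 3) ξ.2 :=
  E5_ext rfl rfl rfl rfl rfl

lemma continuousOn_pE {K : Set ℝ} {x0 x1 x2 s y : ℝ → ℝ} (h0 : ContinuousOn x0 K)
    (h1 : ContinuousOn x1 K) (h2 : ContinuousOn x2 K) (h3 : ContinuousOn s K)
    (hy : ContinuousOn y K) : ContinuousOn (fun t => pE (x0 t) (x1 t) (x2 t) (s t) (y t)) K := by
  apply ContinuousOn.prodMk _ hy
  have hc : Continuous (fun f : Fin 4 → ℝ => (WithLp.toLp 2 f : V4)) :=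
    PiLp.continuous_toLp 2 (fun _ : Fin 4 => ℝ)
  apply hc.comp_continuousOn
  rw [continuousOn_pi]
  intro i
  fin_cases i
  · exact h0
  · exact h1
  · exact h2
  · exact h3

lemma joined_path {x0 x1 x2 s y : ℝ → ℝ} (h0 : ContinuousOn x0 (Icc 0 1))
    (h1 : ContinuousOn x1 (Icc 0 1)) (h2 : ContinuousOn x2 (Icc 0 1))
    (h3 : ContinuousOn s (Icc 0 1)) (hy : ContinuousOn y (Icc 0 1))
    (hS : ∀ t ∈ Icc (0 : ℝ) 1, Phi (pE (x0 t) (x1 t) (x2 t) (s t) (y t)) = 0) :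
    JoinedIn S (pE (x0 0) (x1 0) (x2 0) (s 0) (y 0)) (pE (x0 1) (x1 1) (x2 1) (s 1) (y 1)) := by
  apply JoinedIn.ofLine (f := fun t => pE (x0 t) (x1 t) (x2 t) (s t) (y t))
  · exact continuousOn_pE h0 h1 h2 h3 hy
  · rfl
  · rfl
  · rintro _ ⟨t, ht, rfl⟩
    exact hS t ht

/-- on the boundary faces of the cells the hypersurface is flat -/
lemma Phi_far_cell {ξ : E5} (h : 4 ≤ (ξ.1 0 - 10 * cell ξ 0) ^ 2 + (ξ.1 1 - 10 * cell ξ 1) ^ 2 +
    (ξ.1 2 - 10 * cell ξ 2) ^ 2) : Phi ξ = ξ.2 - 1 / 4 := G_far h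

lemma Phi_near_far (n : Fin 3 → ℤ) {ξ : E5} (h0 : |ξ.1 0 - 10 * n 0| < 6)
    (h1 : |ξ.1 1 - 10 * n 1| < 6) (h2 : |ξ.1 2 - 10 * n 2| < 6)
    (h : 4 ≤ (ξ.1 0 - 10 * n 0) ^ 2 + (ξ.1 1 - 10 * n 1) ^ 2 + (ξ.1 2 - 10 * n 2) ^ 2) :
    Phi ξ = ξ.2 - 1 / 4 := by
  rw [Phi_eq_G h0 h1 h2, G_far h]

lemma face_sq {t : ℝ} {k : ℤ} (h : t = 10 * k + 5) (m : ℤ) : 25 ≤ (t - 10 * m) ^ 2 := by
  have h1 : t - 10 * (m : ℝ) = 10 * ((k - m : ℤ) : ℝ) + 5 := by
    rw [h]; push_cast; ring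
  rw [h1]
  rcases le_or_gt (k - m) (-1) with h2 | h2
  · have h3 : ((k - m : ℤ) : ℝ) ≤ -1 := by exact_mod_cast h2
    nlinarith
  · have h4 : 0 ≤ k - m := by omega
    have h3 : (0 : ℝ) ≤ ((k - m : ℤ) : ℝ) := by exact_mod_cast h4
    nlinarith

lemma Phi_face0 {ξ : E5} {k : ℤ} (h : ξ.1 0 = 10 * k + 5) : Phi ξ = ξ.2 - 1 / 4 := by
  apply Phi_far_cell
  have := face_sq h (cell ξ 0)
  nlinarith [sq_nonneg (ξ.1 1 - 10 * cell ξ 1), sq_nonneg (ξ.1 2 - 10 * cell ξ 2)]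

lemma Phi_face1 {ξ : E5} {k : ℤ} (h : ξ.1 1 = 10 * k + 5) : Phi ξ = ξ.2 - 1 / 4 := by
  apply Phi_far_cell
  have := face_sq h (cell ξ 1)
  nlinarith [sq_nonneg (ξ.1 0 - 10 * cell ξ 0), sq_nonneg (ξ.1 2 - 10 * cell ξ 2)]

lemma Phi_face2 {ξ : E5} {k : ℤ} (h : ξ.1 2 = 10 * k + 5) : Phi ξ = ξ.2 - 1 / 4 := by
  apply Phi_far_cell
  have := face_sq h (cell ξ 2)
  nlinarith [sq_nonneg (ξ.1 0 - 10 * cell ξ 0), sq_nonneg (ξ.1 1 - 10 * cell ξ 1)]

/-- the base point -/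
def bpt : E5 := pE 5 5 5 0 (1 / 4)

lemma move0 {x0 x1 x2 s : ℝ} (z : ℝ) (h : (∃ k : ℤ, x1 = 10 * k + 5) ∨ ∃ k : ℤ, x2 = 10 * k + 5) :
    JoinedIn S (pE x0 x1 x2 s (1 / 4)) (pE z x1 x2 s (1 / 4)) := by
  have := joined_path (x0 := fun t => x0 + t * (z - x0)) (x1 := fun _ => x1) (x2 := fun _ => x2)
    (s := fun _ => s) (y := fun _ => 1 / 4) (by fun_prop) (by fun_prop) (by fun_prop) (by fun_prop)
    (by fun_prop) (by
      intro t _
      rcases h with ⟨k, hk⟩ | ⟨k, hk⟩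
      · rw [Phi_face1 (k := k) hk, pE_y, sub_self]
      · rw [Phi_face2 (k := k) hk, pE_y, sub_self])
  simpa using this

lemma move1 {x0 x1 x2 s : ℝ} (z : ℝ) (h : (∃ k : ℤ, x0 = 10 * k + 5) ∨ ∃ k : ℤ, x2 = 10 * k + 5) :
    JoinedIn S (pE x0 x1 x2 s (1 / 4)) (pE x0 z x2 s (1 / 4)) := by
  have := joined_path (x0 := fun _ => x0) (x1 := fun t => x1 + t * (z - x1)) (x2 := fun _ => x2)
    (s := fun _ => s) (y := fun _ => 1 / 4) (by fun_prop) (by fun_prop) (by fun_prop) (by fun_prop)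
    (by fun_prop) (by
      intro t _
      rcases h with ⟨k, hk⟩ | ⟨k, hk⟩
      · rw [Phi_face0 (k := k) hk, pE_y, sub_self]
      · rw [Phi_face2 (k := k) hk, pE_y, sub_self])
  simpa using this

lemma move2 {x0 x1 x2 s : ℝ} (z : ℝ) (h : (∃ k : ℤ, x0 = 10 * k + 5) ∨ ∃ k : ℤ, x1 = 10 * k + 5) :
    JoinedIn S (pE x0 x1 x2 s (1 / 4)) (pE x0 x1 z s (1 / 4)) := by
  have := joined_path (x0 := fun _ => x0) (x1 := fun _ => x1) (x2 := fun t => x2 + t * (z - x2))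
    (s := fun _ => s) (y := fun _ => 1 / 4) (by fun_prop) (by fun_prop) (by fun_prop) (by fun_prop)
    (by fun_prop) (by
      intro t _
      rcases h with ⟨k, hk⟩ | ⟨k, hk⟩
      · rw [Phi_face0 (k := k) hk, pE_y, sub_self]
      · rw [Phi_face1 (k := k) hk, pE_y, sub_self])
  simpa using this

lemma five_face : ∃ k : ℤ, (5 : ℝ) = 10 * k + 5 := ⟨0, by norm_num⟩

lemma joined_555 (s : ℝ) : JoinedIn S (pE 5 5 5 s (1 / 4)) bpt := by
  have := joined_path (x0 := fun _ => 5) (x1 := fun _ => 5) (x2 := fun _ => 5)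
    (s := fun t => s + t * (0 - s)) (y := fun _ => 1 / 4) (by fun_prop) (by fun_prop) (by fun_prop)
    (by fun_prop) (by fun_prop) (by
      intro t _
      rw [Phi_face0 (k := 0) (by rw [pE_0]; norm_num), pE_y, sub_self])
  simpa [bpt] using this

lemma joined_face {x0 x1 x2 s : ℝ} (h : (∃ k : ℤ, x0 = 10 * k + 5) ∨ (∃ k : ℤ, x1 = 10 * k + 5) ∨
    ∃ k : ℤ, x2 = 10 * k + 5) : JoinedIn S (pE x0 x1 x2 s (1 / 4)) bpt := by
  rcases h with h | h | h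
  · exact (move1 5 (Or.inl h)).trans ((move0 5 (Or.inl five_face)).trans
      ((move2 5 (Or.inl five_face)).trans (joined_555 s)))
  · exact (move0 5 (Or.inl h)).trans ((move2 5 (Or.inl five_face)).trans
      ((move1 5 (Or.inl five_face)).trans (joined_555 s)))
  · exact (move0 5 (Or.inr h)).trans ((move1 5 (Or.inl five_face)).trans
      ((move2 5 (Or.inl five_face)).trans (joined_555 s)))

/-- radial motion to a face -/
lemma joined_far (n : Fin 3 → ℤ) {v0 v1 v2 s : ℝ} (h0 : |v0| ≤ 5) (h1 : |v1| ≤ 5) (h2 : |v2| ≤ 5)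
    (hv : 4 ≤ v0 ^ 2 + v1 ^ 2 + v2 ^ 2) :
    JoinedIn S (pE (10 * n 0 + v0) (10 * n 1 + v1) (10 * n 2 + v2) s (1 / 4)) bpt := by
  set m := max (|v0|) (max (|v1|) (|v2|)) with hm
  have hm0 : |v0| ≤ m := le_max_left _ _
  have hm1 : |v1| ≤ m := (le_max_left _ _).trans (le_max_right _ _)
  have hm2 : |v2| ≤ m := (le_max_right _ _).trans (le_max_right _ _)
  have hm5 : m ≤ 5 := max_le h0 (max_le h1 h2)
  have hmpos : 0 < m := by
    by_contra hcon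
    push Not at hcon
    have e0 : v0 = 0 := abs_eq_zero.1 (le_antisymm (hm0.trans hcon) (abs_nonneg _))
    have e1 : v1 = 0 := abs_eq_zero.1 (le_antisymm (hm1.trans hcon) (abs_nonneg _))
    have e2 : v2 = 0 := abs_eq_zero.1 (le_antisymm (hm2.trans hcon) (abs_nonneg _))
    rw [e0, e1, e2] at hv
    norm_num at hv
  have hlam1 : 1 ≤ 5 / m := (one_le_div hmpos).2 hm5
  have hp := joined_path (x0 := fun t => 10 * n 0 + (1 + t * (5 / m - 1)) * v0)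
    (x1 := fun t => 10 * n 1 + (1 + t * (5 / m - 1)) * v1)
    (x2 := fun t => 10 * n 2 + (1 + t * (5 / m - 1)) * v2)
    (s := fun _ => s) (y := fun _ => 1 / 4) (by fun_prop) (by fun_prop) (by fun_prop) (by fun_prop)
    (by fun_prop) (by
      intro t ht
      have hl1 : 1 ≤ 1 + t * (5 / m - 1) := by nlinarith [ht.1]
      have hl2 : 1 + t * (5 / m - 1) ≤ 5 / m := by nlinarith [ht.2]
      have hb : ∀ v : ℝ, |v| ≤ m → |(1 + t * (5 / m - 1)) * v| < 6 := by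
        intro v hv
        rw [abs_mul, abs_of_pos (by linarith)]
        have h3 : (1 + t * (5 / m - 1)) * |v| ≤ 5 / m * m := by
          apply mul_le_mul hl2 hv (abs_nonneg _) (by positivity)
        rw [div_mul_cancel₀ _ hmpos.ne'] at h3
        linarith
      rw [Phi_near_far n (by simpa [pE_0] using hb v0 hm0) (by simpa [pE_1] using hb v1 hm1)
        (by simpa [pE_2] using hb v2 hm2), pE_y, sub_self]
      rw [pE_0, pE_1, pE_2]
      have e : (10 * (n 0 : ℝ) + (1 + t * (5 / m - 1)) * v0 - 10 * (n 0 : ℝ)) ^ 2 +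
          (10 * (n 1 : ℝ) + (1 + t * (5 / m - 1)) * v1 - 10 * (n 1 : ℝ)) ^ 2 +
          (10 * (n 2 : ℝ) + (1 + t * (5 / m - 1)) * v2 - 10 * (n 2 : ℝ)) ^ 2 =
          (1 + t * (5 / m - 1)) ^ 2 * (v0 ^ 2 + v1 ^ 2 + v2 ^ 2) := by ring
      rw [e]
      nlinarith)
  have e0 : (1 : ℝ) + 0 * (5 / m - 1) = 1 := by ring
  have e1 : (1 : ℝ) + 1 * (5 / m - 1) = 5 / m := by ring
  simp only [e0, e1] at hp
  rw [one_mul, one_mul, one_mul] at hp
  refine hp.trans (joined_face ?_)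
  have hface : ∀ v : ℝ, |v| = m → ∀ k : ℤ, ∃ k' : ℤ, 10 * (k : ℝ) + 5 / m * v = 10 * k' + 5 := by
    intro v hv k
    rcases abs_choice v with h | h
    · rw [h] at hv
      refine ⟨k, ?_⟩
      rw [hv, div_mul_cancel₀ _ hmpos.ne']
    · rw [h] at hv
      refine ⟨k - 1, ?_⟩
      have : v = -m := by linarith
      rw [this, mul_neg, div_mul_cancel₀ _ hmpos.ne']
      push_cast; ring
  rcases max_choice (|v0|) (max (|v1|) (|v2|)) with h | h
  · left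
    exact hface v0 (by rw [hm, h]) (n 0)
  · rcases max_choice (|v1|) (|v2|) with h' | h'
    · right; left
      exact hface v1 (by rw [hm, h, h']) (n 1)
    · right; right
      exact hface v2 (by rw [hm, h, h']) (n 2)

/-- points in rotating coordinates around a lattice point -/
def pt (n : Fin 3 → ℤ) (q p c s y : ℝ) : E5 :=
  pE (10 * n 0 + (q * Real.cos (π * s) - p * Real.sin (π * s)))
    (10 * n 1 + (q * Real.sin (π * s) + p * Real.cos (π * s))) (10 * n 2 + c) s y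

lemma rot_sq (q p s : ℝ) : (q * Real.cos (π * s) - p * Real.sin (π * s)) ^ 2 +
    (q * Real.sin (π * s) + p * Real.cos (π * s)) ^ 2 = q ^ 2 + p ^ 2 := by
  have := Real.sin_sq_add_cos_sq (π * s)
  have h : (q * Real.cos (π * s) - p * Real.sin (π * s)) ^ 2 +
    (q * Real.sin (π * s) + p * Real.cos (π * s)) ^ 2 =
    (q ^ 2 + p ^ 2) * (Real.sin (π * s) ^ 2 + Real.cos (π * s) ^ 2) := by ring
  rw [h, this, mul_one]

lemma rq_rot (q p s : ℝ) : rq (q * Real.cos (π * s) - p * Real.sin (π * s))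
    (q * Real.sin (π * s) + p * Real.cos (π * s)) s = q := by
  have := Real.sin_sq_add_cos_sq (π * s)
  unfold rq
  have h : (q * Real.cos (π * s) - p * Real.sin (π * s)) * Real.cos (π * s) +
    (q * Real.sin (π * s) + p * Real.cos (π * s)) * Real.sin (π * s) =
    q * (Real.sin (π * s) ^ 2 + Real.cos (π * s) ^ 2) := by ring
  rw [h, this, mul_one]

lemma rp_rot (q p s : ℝ) : rp (q * Real.cos (π * s) - p * Real.sin (π * s))
    (q * Real.sin (π * s) + p * Real.cos (π * s)) s = p := by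
  have := Real.sin_sq_add_cos_sq (π * s)
  unfold rp
  have h : -(q * Real.cos (π * s) - p * Real.sin (π * s)) * Real.sin (π * s) +
    (q * Real.sin (π * s) + p * Real.cos (π * s)) * Real.cos (π * s) =
    p * (Real.sin (π * s) ^ 2 + Real.cos (π * s) ^ 2) := by ring
  rw [h, this, mul_one]

lemma abs_lt_six {u w : ℝ} (h : u ^ 2 + w < 36) (hw : 0 ≤ w) : |u| < 6 := by
  have : u ^ 2 < 6 ^ 2 := by linarith
  exact abs_lt_of_sq_lt_sq this (by norm_num)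

lemma Phi_pt (n : Fin 3 → ℤ) {q p c s y : ℝ} (h : q ^ 2 + p ^ 2 + c ^ 2 < 36) :
    Phi (pt n q p c s y) = Fq q p c y := by
  have hr := rot_sq q p s
  have e0 : (pt n q p c s y).1 0 - 10 * n 0 = q * Real.cos (π * s) - p * Real.sin (π * s) := by
    rw [pt, pE_0]; ring
  have e1 : (pt n q p c s y).1 1 - 10 * n 1 = q * Real.sin (π * s) + p * Real.cos (π * s) := by
    rw [pt, pE_1]; ring
  have e2 : (pt n q p c s y).1 2 - 10 * n 2 = c := by
    rw [pt, pE_2]; ring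
  have e3 : (pt n q p c s y).1 3 = s := rfl
  have e4 : (pt n q p c s y).2 = y := rfl
  rw [Phi_eq_G (n := n)]
  · unfold G
    rw [e0, e1, e2, e3, e4, rq_rot, rp_rot]
  · rw [e0]
    apply abs_lt_six (w := (q * Real.sin (π * s) + p * Real.cos (π * s)) ^ 2 + c ^ 2) _ (by positivity)
    linarith
  · rw [e1]
    apply abs_lt_six (w := (q * Real.cos (π * s) - p * Real.sin (π * s)) ^ 2 + c ^ 2) _ (by positivity)
    linarith
  · rw [e2]
    apply abs_lt_six (w := q ^ 2 + p ^ 2) _ (by positivity)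
    linarith

lemma eq_pt (ξ : E5) (n : Fin 3 → ℤ) :
    ξ = pt n (rq (ξ.1 0 - 10 * n 0) (ξ.1 1 - 10 * n 1) (ξ.1 3))
      (rp (ξ.1 0 - 10 * n 0) (ξ.1 1 - 10 * n 1) (ξ.1 3)) (ξ.1 2 - 10 * n 2) (ξ.1 3) ξ.2 := by
  have hsc := Real.sin_sq_add_cos_sq (π * ξ.1 3)
  apply E5_ext
  · rw [pt, pE_0]
    unfold rq rp
    have h : 10 * (n 0 : ℝ) + (((ξ.1 0 - 10 * n 0) * Real.cos (π * ξ.1 3) +
      (ξ.1 1 - 10 * n 1) * Real.sin (π * ξ.1 3)) * Real.cos (π * ξ.1 3) -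
      (-(ξ.1 0 - 10 * n 0) * Real.sin (π * ξ.1 3) +
      (ξ.1 1 - 10 * n 1) * Real.cos (π * ξ.1 3)) * Real.sin (π * ξ.1 3)) =
      10 * (n 0 : ℝ) + (ξ.1 0 - 10 * n 0) * (Real.sin (π * ξ.1 3) ^ 2 + Real.cos (π * ξ.1 3) ^ 2) := by
      ring
    rw [h, hsc]; ring
  · rw [pt, pE_1]
    unfold rq rp
    have h : 10 * (n 1 : ℝ) + (((ξ.1 0 - 10 * n 0) * Real.cos (π * ξ.1 3) +
      (ξ.1 1 - 10 * n 1) * Real.sin (π * ξ.1 3)) * Real.sin (π * ξ.1 3) +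
      (-(ξ.1 0 - 10 * n 0) * Real.sin (π * ξ.1 3) +
      (ξ.1 1 - 10 * n 1) * Real.cos (π * ξ.1 3)) * Real.cos (π * ξ.1 3)) =
      10 * (n 1 : ℝ) + (ξ.1 1 - 10 * n 1) * (Real.sin (π * ξ.1 3) ^ 2 + Real.cos (π * ξ.1 3) ^ 2) := by
      ring
    rw [h, hsc]; ring
  · rw [pt, pE_2]; ring
  · rfl
  · rfl

lemma continuousOn_pt {K : Set ℝ} (n : Fin 3 → ℤ) {q p c y : ℝ → ℝ} (s : ℝ) (h0 : ContinuousOn q K)
    (h1 : ContinuousOn p K) (h2 : ContinuousOn c K) 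
    (hy : ContinuousOn y K) : ContinuousOn (fun t => pt n (q t) (p t) (c t) s (y t)) K := by
  unfold pt
  apply continuousOn_pE _ _ _ continuousOn_const hy
  · exact continuousOn_const.add ((h0.mul continuousOn_const).sub (h1.mul continuousOn_const))
  · exact continuousOn_const.add ((h0.mul continuousOn_const).add (h1.mul continuousOn_const))
  · exact continuousOn_const.add h2

lemma joined_pt (n : Fin 3 → ℤ) {q p c y : ℝ → ℝ} (s : ℝ) (h0 : ContinuousOn q (Icc 0 1))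
    (h1 : ContinuousOn p (Icc 0 1)) (h2 : ContinuousOn c (Icc 0 1)) 
    (hy : ContinuousOn y (Icc 0 1)) (hb : ∀ t ∈ Icc (0 : ℝ) 1, q t ^ 2 + p t ^ 2 + c t ^ 2 < 36)
    (hS : ∀ t ∈ Icc (0 : ℝ) 1, Fq (q t) (p t) (c t) (y t) = 0) :
    JoinedIn S (pt n (q 0) (p 0) (c 0) s (y 0)) (pt n (q 1) (p 1) (c 1) s (y 1)) := by
  apply JoinedIn.ofLine (f := fun t => pt n (q t) (p t) (c t) s (y t))
  · exact continuousOn_pt n s h0 h1 h2 hy
  · rfl
  · rfl
  · rintro _ ⟨t, ht, rfl⟩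
    show Phi _ = 0
    rw [Phi_pt n (hb t ht)]
    exact hS t ht

lemma joined_pt_far (n : Fin 3 → ℤ) {q p c s : ℝ} (h : 4 ≤ q ^ 2 + p ^ 2 + c ^ 2)
    (h2 : q ^ 2 + p ^ 2 + c ^ 2 ≤ 25) : JoinedIn S (pt n q p c s (1 / 4)) bpt := by
  have hr := rot_sq q p s
  have hab : ∀ u w : ℝ, u ^ 2 + w ≤ 25 → 0 ≤ w → |u| ≤ 5 := by
    intro u w h hw
    have : u ^ 2 ≤ 5 ^ 2 := by linarith
    exact abs_le_of_sq_le_sq this (by norm_num)
  apply joined_far n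
  · apply hab _ ((q * Real.sin (π * s) + p * Real.cos (π * s)) ^ 2 + c ^ 2) _ (by positivity)
    linarith
  · apply hab _ ((q * Real.cos (π * s) - p * Real.sin (π * s)) ^ 2 + c ^ 2) _ (by positivity)
    linarith
  · apply hab _ (q ^ 2 + p ^ 2) _ (by positivity)
    linarith
  · linarith

/-- polar coordinates -/
lemma exists_polar (p c : ℝ) : ∃ r α β : ℝ, 0 ≤ r ∧ α ^ 2 + β ^ 2 = 1 ∧ p = r * α ∧ c = r * β := by
  by_cases h : p ^ 2 + c ^ 2 = 0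
  · have hp : p = 0 := by nlinarith [sq_nonneg p, sq_nonneg c]
    have hc : c = 0 := by nlinarith [sq_nonneg p, sq_nonneg c]
    exact ⟨0, 1, 0, le_rfl, by norm_num, by rw [hp]; ring, by rw [hc]; ring⟩
  · have hpos : 0 < p ^ 2 + c ^ 2 := lt_of_le_of_ne (by positivity) (Ne.symm h)
    have hs : 0 < Real.sqrt (p ^ 2 + c ^ 2) := Real.sqrt_pos.2 hpos
    refine ⟨Real.sqrt (p ^ 2 + c ^ 2), p / Real.sqrt (p ^ 2 + c ^ 2), c / Real.sqrt (p ^ 2 + c ^ 2),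
      hs.le, ?_, ?_, ?_⟩
    · rw [div_pow, div_pow, Real.sq_sqrt hpos.le, ← add_div, div_self hpos.ne']
    · rw [mul_div_cancel₀ _ hs.ne']
    · rw [mul_div_cancel₀ _ hs.ne']

/-- flat part close to the lattice -/
lemma joined_flat (n : Fin 3 → ℤ) {q p c s : ℝ} (hT : 1 / 4 ≤ Tq q p c (1 / 4))
    (h : q ^ 2 + p ^ 2 + c ^ 2 ≤ 4) : JoinedIn S (pt n q p c s (1 / 4)) bpt := by
  obtain ⟨r, α, β, hr, hαβ, rfl, rfl⟩ := exists_polar p c
  have hrr : (r * α) ^ 2 + (r * β) ^ 2 = r ^ 2 := by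
    have : (r * α) ^ 2 + (r * β) ^ 2 = r ^ 2 * (α ^ 2 + β ^ 2) := by ring
    rw [this, hαβ, mul_one]
  have hr2 : r ≤ 2 := by nlinarith [sq_nonneg q]
  have hT' : ∀ t : ℝ, 0 ≤ t → 1 / 4 ≤ Tq q ((r + 2 * t) * α) ((r + 2 * t) * β) (1 / 4) := by
    intro t ht
    unfold Tq at hT ⊢
    have e : ((r + 2 * t) * α) ^ 2 + ((r + 2 * t) * β) ^ 2 = (r + 2 * t) ^ 2 := by
      have : ((r + 2 * t) * α) ^ 2 + ((r + 2 * t) * β) ^ 2 = (r + 2 * t) ^ 2 * (α ^ 2 + β ^ 2) := by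
        ring
      rw [this, hαβ, mul_one]
    nlinarith
  have e2 : ∀ t : ℝ, ((r + 2 * t) * α) ^ 2 + ((r + 2 * t) * β) ^ 2 = (r + 2 * t) ^ 2 := by
    intro t
    have : ((r + 2 * t) * α) ^ 2 + ((r + 2 * t) * β) ^ 2 = (r + 2 * t) ^ 2 * (α ^ 2 + β ^ 2) := by
      ring
    rw [this, hαβ, mul_one]
  have hp := joined_pt n (q := fun _ => q) (p := fun t => (r + 2 * t) * α)
    (c := fun t => (r + 2 * t) * β) (y := fun _ => 1 / 4) s (by fun_prop) (by fun_prop)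
    (by fun_prop) (by fun_prop) (by
      intro t ht
      have := e2 t
      have h1 : (r + 2 * t) ^ 2 ≤ 16 := by nlinarith [ht.1, ht.2]
      have h2 : q ^ 2 ≤ 4 := by nlinarith [sq_nonneg (r * α), sq_nonneg (r * β)]
      nlinarith) (by
      intro t ht
      unfold Fq
      rw [hp_eq_one (hT' t ht.1)]
      ring)
  have e0 : r + 2 * 0 = r := by ring
  simp only [e0] at hp
  refine hp.trans (joined_pt_far n ?_ ?_)
  · have := e2 1
    nlinarith [sq_nonneg q]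
  · have := e2 1
    have h2 : q ^ 2 ≤ 4 := by nlinarith [sq_nonneg (r * α), sq_nonneg (r * β)]
    nlinarith

/-- the tube part -/
lemma joined_tube (n : Fin 3 → ℤ) {q p c s y : ℝ} (hF : Fq q p c y = 0)
    (hT : Tq q p c y < 1 / 4) : JoinedIn S (pt n q p c s y) bpt := by
  have h0 : y * hp (Tq q p c y) = 1 / 4 := by
    unfold Fq at hF; linarith
  obtain ⟨hy1, hy2, hpos, hT2, hpsi⟩ := zero_facts h0
  obtain ⟨r, α, β, hr, hαβ, hpr, hcr⟩ := exists_polar p c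
  obtain ⟨σ, hσ, hqσ⟩ : ∃ σ : ℝ, σ ^ 2 = 1 ∧ q = σ * Real.sqrt (q ^ 2) := by
    rw [Real.sqrt_sq_eq_abs]
    rcases abs_choice q with h | h
    · exact ⟨1, by norm_num, by rw [h]; ring⟩
    · exact ⟨-1, by norm_num, by rw [h]; ring⟩
  have hTdef : Tq q p c y = (q ^ 2 + y - 1) ^ 2 + r ^ 2 := by
    unfold Tq
    rw [hpsi, hpr, hcr]
    have : (r * α) ^ 2 + (r * β) ^ 2 = r ^ 2 * (α ^ 2 + β ^ 2) := by ring
    have h2 : (q ^ 2 + y - 1) ^ 2 + (r * α) ^ 2 + (r * β) ^ 2 + 0 =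
      (q ^ 2 + y - 1) ^ 2 + ((r * α) ^ 2 + (r * β) ^ 2) := by ring
    rw [h2, this, hαβ, mul_one]
  set T := Tq q p c y with hTset
  set a0 := q ^ 2 + y with ha0
  -- the path
  let τ : ℝ → ℝ := fun t => T + t * (1 / 4 - T)
  have hτc : Continuous τ := by fun_prop
  have hτ0 : τ 0 = T := by simp [τ]
  have hτ1 : τ 1 = 1 / 4 := by simp [τ]
  have hτb : ∀ t ∈ Icc (0 : ℝ) 1, T ≤ τ t ∧ τ t ≤ 1 / 4 := by
    intro t ht
    constructor
    · simp only [τ]; nlinarith [ht.1]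
    · simp only [τ]; nlinarith [ht.2]
  have hhp : ∀ t ∈ Icc (0 : ℝ) 1, hp T ≤ hp (τ t) := fun t ht => hp_mono (hτb t ht).1
  have hhpos : ∀ t ∈ Icc (0 : ℝ) 1, 0 < hp (τ t) := fun t ht => lt_of_lt_of_le hpos (hhp t ht)
  let Y : ℝ → ℝ := fun t => 1 / (4 * hp (τ t))
  have hYc : ContinuousOn Y (Icc 0 1) := by
    apply ContinuousOn.div continuousOn_const
    · exact (continuous_const.mul (continuous_hp.comp hτc)).continuousOn
    · intro t ht
      have := hhpos t ht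
      positivity
  have hYh : ∀ t ∈ Icc (0 : ℝ) 1, Y t * hp (τ t) = 1 / 4 := by
    intro t ht
    have := (hhpos t ht).ne'
    simp only [Y]
    field_simp
  have hY0 : Y 0 = y := by
    have h1 := hYh 0 ⟨le_rfl, zero_le_one⟩
    rw [hτ0] at h1
    exact mul_right_cancel₀ hpos.ne' (h1.trans h0.symm)
  have hY1 : Y 1 = 1 / 4 := by
    have h1 := hYh 1 ⟨zero_le_one, le_rfl⟩
    rw [hτ1, hp_eq_one le_rfl, mul_one] at h1
    exact h1
  have hYle : ∀ t ∈ Icc (0 : ℝ) 1, Y t ≤ y := by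
    intro t ht
    have h1 := hYh t ht
    have h2 := hhp t ht
    have h3 : 0 < Y t := by
      have := hhpos t ht
      simp only [Y]; positivity
    by_contra hcon
    push Not at hcon
    nlinarith
  have hYge : ∀ t ∈ Icc (0 : ℝ) 1, 1 / 4 ≤ Y t := by
    intro t ht
    have h1 := hYh t ht
    have h2 := hp_le_one (τ t)
    have h3 : 0 < Y t := by
      have := hhpos t ht
      simp only [Y]; positivity
    nlinarith
  have hq2 : ∀ t ∈ Icc (0 : ℝ) 1, 0 ≤ a0 - Y t := by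
    intro t ht
    have := hYle t ht
    have := sq_nonneg q
    simp only [ha0]; linarith
  have hr2 : ∀ t ∈ Icc (0 : ℝ) 1, 0 ≤ τ t - (a0 - 1) ^ 2 := by
    intro t ht
    have := (hτb t ht).1
    have := sq_nonneg r
    linarith
  have ha0' : a0 ≤ 3 / 2 := by
    by_contra hcon
    push Not at hcon
    nlinarith [sq_nonneg r]
  let Q : ℝ → ℝ := fun t => σ * Real.sqrt (a0 - Y t)
  let R : ℝ → ℝ := fun t => Real.sqrt (τ t - (a0 - 1) ^ 2)
  have hQc : ContinuousOn Q (Icc 0 1) :=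
    continuousOn_const.mul ((continuousOn_const.sub hYc).sqrt)
  have hRc : ContinuousOn R (Icc 0 1) :=
    ((hτc.continuousOn).sub continuousOn_const).sqrt
  have hQsq : ∀ t ∈ Icc (0 : ℝ) 1, Q t ^ 2 = a0 - Y t := by
    intro t ht
    simp only [Q]
    rw [mul_pow, hσ, one_mul, Real.sq_sqrt (hq2 t ht)]
  have hRsq : ∀ t ∈ Icc (0 : ℝ) 1, R t ^ 2 = τ t - (a0 - 1) ^ 2 := by
    intro t ht
    simp only [R]
    rw [Real.sq_sqrt (hr2 t ht)]
  have hRab : ∀ t, (R t * α) ^ 2 + (R t * β) ^ 2 = R t ^ 2 := by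
    intro t
    have : (R t * α) ^ 2 + (R t * β) ^ 2 = R t ^ 2 * (α ^ 2 + β ^ 2) := by ring
    rw [this, hαβ, mul_one]
  have hTt : ∀ t ∈ Icc (0 : ℝ) 1, Tq (Q t) (R t * α) (R t * β) (Y t) = τ t := by
    intro t ht
    unfold Tq
    rw [psi_of_ge (by linarith [hYge t ht]), hQsq t ht]
    have h1 := hRab t
    have h2 := hRsq t ht
    have h3 : a0 - Y t + Y t - 1 = a0 - 1 := by ring
    rw [h3]
    linarith
  have hbound : ∀ t ∈ Icc (0 : ℝ) 1, Q t ^ 2 + (R t * α) ^ 2 + (R t * β) ^ 2 ≤ 4 := by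
    intro t ht
    have h1 := hRab t
    have h2 := hRsq t ht
    have h3 := hQsq t ht
    have h4 := hYge t ht
    have h5 := (hτb t ht).2
    nlinarith [sq_nonneg (a0 - 1)]
  have hp := joined_pt n (q := Q) (p := fun t => R t * α) (c := fun t => R t * β) (y := Y) s
    hQc (hRc.mul continuousOn_const) (hRc.mul continuousOn_const) hYc
    (fun t ht => by linarith [hbound t ht])
    (fun t ht => by
      unfold Fq
      rw [hTt t ht, hYh t ht, sub_self])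
  have hQ0 : Q 0 = q := by
    simp only [Q]
    rw [hY0]
    have : a0 - y = q ^ 2 := by simp only [ha0]; ring
    rw [this, ← hqσ]
  have hR0 : R 0 = r := by
    simp only [R]
    rw [hτ0, hTdef]
    have : (a0 - 1) ^ 2 + r ^ 2 - (a0 - 1) ^ 2 = r ^ 2 := by ring
    rw [this, Real.sqrt_sq hr]
  rw [hQ0, hR0, hY0, ← hpr, ← hcr, hY1] at hp
  refine hp.trans (joined_flat n ?_ (hbound 1 ⟨zero_le_one, le_rfl⟩))
  have := hTt 1 ⟨zero_le_one, le_rfl⟩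
  rw [hY1, hτ1] at this
  exact this.ge

theorem joined_all (ξ : E5) (hξ : Phi ξ = 0) : JoinedIn S ξ bpt := by
  set n := cell ξ with hn
  have he := eq_pt ξ n
  have hF : Fq (rq (ξ.1 0 - 10 * n 0) (ξ.1 1 - 10 * n 1) (ξ.1 3))
    (rp (ξ.1 0 - 10 * n 0) (ξ.1 1 - 10 * n 1) (ξ.1 3)) (ξ.1 2 - 10 * n 2) ξ.2 = 0 := hξ
  by_cases hT : Tq (rq (ξ.1 0 - 10 * n 0) (ξ.1 1 - 10 * n 1) (ξ.1 3))
    (rp (ξ.1 0 - 10 * n 0) (ξ.1 1 - 10 * n 1) (ξ.1 3)) (ξ.1 2 - 10 * n 2) ξ.2 < 1 / 4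
  · rw [he]
    exact joined_tube n hF hT
  · push Not at hT
    have hy : ξ.2 = 1 / 4 := by
      unfold Fq at hF
      rw [hp_eq_one hT] at hF
      linarith
    by_cases hfar : 4 ≤ (ξ.1 0 - 10 * n 0) ^ 2 + (ξ.1 1 - 10 * n 1) ^ 2 + (ξ.1 2 - 10 * n 2) ^ 2
    · obtain ⟨h0, h1, h2⟩ := cell_near ξ
      have h3 := joined_far n (s := ξ.1 3) h0 h1 h2 hfar
      have e : pE (10 * (n 0 : ℝ) + (ξ.1 0 - 10 * cell ξ 0)) (10 * (n 1 : ℝ) + (ξ.1 1 - 10 * cell ξ 1))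
        (10 * (n 2 : ℝ) + (ξ.1 2 - 10 * cell ξ 2)) (ξ.1 3) (1 / 4) = ξ := by
        apply E5_ext
        · rw [pE_0, ← hn]; ring
        · rw [pE_1, ← hn]; ring
        · rw [pE_2, ← hn]; ring
        · rfl
        · rw [pE_y, hy]
      rw [e] at h3
      exact h3
    · push Not at hfar
      rw [hy] at hT
      have h3 := joined_flat n (s := ξ.1 3) hT (by
        rw [rq_rp]; exact hfar.le)
      rw [he, hy]
      exact h3

theorem isPathConnected_S : IsPathConnected S := by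
  refine ⟨bpt, ?_, fun ξ hξ => (joined_all ξ hξ).symm⟩
  show Phi bpt = 0
  rw [Phi_face0 (k := 0) (by rw [bpt, pE_0]; norm_num), bpt, pE_y, sub_self]

end

end Pool.Agent.H834R2
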