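import Pool.Agent.H834R2.Vol

/-! Change of variables for proper perturbations of the identity. -/

set_option autoImplicit false

open MeasureTheory Metric Set Filter Topology
open scoped Topology ContDiff NNReal

namespace Pool.Agent.H834R2.Vol

variable {E : Type*} [NormedAddCommGroup E] [NormedSpace ℝ E] [FiniteDimensional ℝ E]
  [MeasurableSpace E] [BorelSpace E]

theorem hasDerivAt_shift (μ : Measure E) [μ.IsAddHaarMeasure]
    (Ξ : E → E) (hΞ : ContDiff ℝ 1 Ξ) (R : ℝ) (φ : E → ℝ) (hφ : ContDiff ℝ 1 φ) (e : E) (τ0 : ℝ) :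
    HasDerivAt (fun τ : ℝ => ∫ x in closedBall (0 : E) R, φ (Ξ x - τ • e) * (fderiv ℝ Ξ x).det ∂μ)
      (∫ x in closedBall (0 : E) R, -(fderiv ℝ φ (Ξ x - τ0 • e) e) * (fderiv ℝ Ξ x).det ∂μ) τ0 := by
  have hBc : IsCompact (closedBall (0 : E) R) := isCompact_closedBall 0 R
  have hc1 : Continuous (fun x => (fderiv ℝ Ξ x).det) :=
    ContinuousLinearMap.continuous_det.comp (hΞ.continuous_fderiv (by norm_num))
  have hφd : Continuous (fderiv ℝ φ) := hφ.continuous_fderiv (by norm_num)
  have hΞc := hΞ.continuous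
  have hφc := hφ.continuous
  let F' : ℝ → E → ℝ := fun τ x => -(fderiv ℝ φ (Ξ x - τ • e) e) * (fderiv ℝ Ξ x).det
  have hF'c : Continuous (fun p : ℝ × E => F' p.1 p.2) := by
    apply Continuous.mul _ (hc1.comp continuous_snd)
    apply Continuous.neg
    apply Continuous.clm_apply _ continuous_const
    apply hφd.comp
    exact (hΞc.comp continuous_snd).sub (continuous_fst.smul continuous_const)
  obtain ⟨C, hC⟩ := ((isCompact_Icc (a := τ0 - 1) (b := τ0 + 1)).prod hBc).exists_bound_of_continuousOn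
    hF'c.continuousOn
  have hmeas : ∀ τ : ℝ, Continuous (fun x => φ (Ξ x - τ • e) * (fderiv ℝ Ξ x).det) := by
    intro τ
    apply Continuous.mul _ hc1
    apply hφc.comp
    exact hΞc.sub continuous_const
  have hmeas' : ∀ τ, Continuous (F' τ) := fun τ =>
    hF'c.comp (continuous_const.prodMk continuous_id)
  have := hasDerivAt_integral_of_dominated_loc_of_deriv_le (μ := μ.restrict (closedBall (0 : E) R))
    (F := fun (τ : ℝ) x => φ (Ξ x - τ • e) * (fderiv ℝ Ξ x).det) (F' := F') (x₀ := τ0)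
    (s := Metric.ball τ0 1) (bound := fun _ => C)
    (Metric.ball_mem_nhds τ0 one_pos)
    (Eventually.of_forall fun τ => (hmeas τ).aestronglyMeasurable)
    ((hmeas τ0).continuousOn.integrableOn_compact hBc)
    ((hmeas' τ0).aestronglyMeasurable)
    (by
      rw [ae_restrict_iff' isClosed_closedBall.measurableSet]
      refine Eventually.of_forall fun x hx τ hτ => ?_
      apply hC (τ, x)
      refine ⟨?_, hx⟩
      rw [Metric.mem_ball, Real.dist_eq, abs_lt] at hτ
      constructor <;> linarith [hτ.1, hτ.2])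
    (continuous_const.continuousOn.integrableOn_compact hBc)
    (Eventually.of_forall fun x τ _ => by
      have h1 : HasDerivAt (fun τ : ℝ => Ξ x - τ • e) (-e) τ := by
        have := ((hasDerivAt_id τ).smul_const e).const_sub (Ξ x)
        simpa using this
      have h2 : HasFDerivAt φ (fderiv ℝ φ (Ξ x - τ • e)) (Ξ x - τ • e) :=
        (hφ.differentiable (by norm_num)).differentiableAt.hasFDerivAt
      have h3 := (h2.comp_hasDerivAt τ h1).mul_const ((fderiv ℝ Ξ x).det)
      simpa [F'] using h3)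
  exact this.2

/-- Change of variables for a map which is the identity outside a ball. -/
theorem integral_comp [Nontrivial E] (μ : Measure E) [μ.IsAddHaarMeasure]
    (Ξ : E → E) (hΞ : ContDiff ℝ 1 Ξ) (R0 : ℝ) (hR0 : 0 ≤ R0)
    (hid : ∀ x, R0 ≤ ‖x‖ → Ξ x = x) (φ : E → ℝ) (hφ : ContDiff ℝ 1 φ) (r : ℝ) (hr : 0 ≤ r)
    (hφ0 : ∀ x, r ≤ ‖x‖ → φ x = 0) :
    ∃ R1 : ℝ, ∀ R, R1 ≤ R →
      ∫ x in closedBall (0 : E) R, φ (Ξ x) * (fderiv ℝ Ξ x).det ∂μ = ∫ x, φ x ∂μ := by
  obtain ⟨e, he⟩ := exists_norm_eq (E := E) (zero_le_one (α := ℝ))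
  obtain ⟨M, hM⟩ := (isCompact_closedBall (0 : E) (R0 + 1)).exists_bound_of_continuousOn
    hΞ.continuous.continuousOn
  let L : ℝ := max M (R0 + 1) + r + 1
  have hLM : M + r < L := by
    have := le_max_left M (R0 + 1)
    simp only [L]; linarith
  have hLR : R0 + 1 + r < L := by
    have := le_max_right M (R0 + 1)
    simp only [L]; linarith
  have hL0 : 0 < L := by linarith
  refine ⟨L + r + 1 + R0, fun R hR => ?_⟩
  have hRR : R0 ≤ R := by linarith
  have hderiv : ∀ τ ∈ Icc (0 : ℝ) L, HasDerivAt (fun τ : ℝ => ∫ x in closedBall (0 : E) R,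
      φ (Ξ x - τ • e) * (fderiv ℝ Ξ x).det ∂μ) 0 τ := by
    intro τ hτ
    have h1 := hasDerivAt_shift μ Ξ hΞ R φ hφ e τ
    have h2 := integral_dir_eq_zero μ Ξ hΞ R (fun x hx => hid x (by rw [hx]; exact hRR))
      (fun x => φ (x - τ • e)) (hφ.comp (contDiff_id.sub contDiff_const))
      (by
        intro x hx
        apply hφ0
        have h3 : ‖x‖ - ‖τ • e‖ ≤ ‖x - τ • e‖ := norm_sub_norm_le _ _
        rw [norm_smul, he, mul_one, Real.norm_eq_abs, abs_of_nonneg hτ.1, hx] at h3
        have := hτ.2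
        linarith) e
    have h3 : ∀ x : E, fderiv ℝ (fun x => φ (x - τ • e)) x = fderiv ℝ φ (x - τ • e) := by
      intro x
      rw [fderiv_comp_sub]
    simp only [h3] at h2
    have h4 : ∫ x in closedBall (0 : E) R, -(fderiv ℝ φ (Ξ x - τ • e) e) * (fderiv ℝ Ξ x).det ∂μ
        = 0 := by
      simp only [neg_mul]
      rw [integral_neg, h2, neg_zero]
    rw [h4] at h1
    exact h1
  have hconst := constant_of_derivWithin_zero (a := 0) (b := L)
    (fun τ hτ => (hderiv τ hτ).differentiableAt.differentiableWithinAt)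
    (fun τ hτ => (hderiv τ ⟨hτ.1, hτ.2.le⟩).hasDerivWithinAt.derivWithin
      (uniqueDiffOn_Icc hL0 τ ⟨hτ.1, hτ.2.le⟩)) L ⟨hL0.le, le_rfl⟩
  simp only [zero_smul, sub_zero] at hconst
  rw [← hconst]
  -- now evaluate at `L`
  have h1 : ∫ x in closedBall (0 : E) R, φ (Ξ x - L • e) * (fderiv ℝ Ξ x).det ∂μ =
      ∫ x in closedBall (0 : E) R, φ (x - L • e) ∂μ := by
    apply setIntegral_congr_fun isClosed_closedBall.measurableSet
    intro x _
    by_cases hx : ‖x‖ ≤ R0 + 1
    · have h2 : φ (Ξ x - L • e) = 0 := by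
        apply hφ0
        have h3 : ‖L • e‖ - ‖Ξ x‖ ≤ ‖Ξ x - L • e‖ := by
          rw [norm_sub_rev]; exact norm_sub_norm_le _ _
        rw [norm_smul, he, mul_one, Real.norm_eq_abs, abs_of_pos hL0] at h3
        have h4 := hM x (by simpa using hx)
        linarith
      have h5 : φ (x - L • e) = 0 := by
        apply hφ0
        have h3 : ‖L • e‖ - ‖x‖ ≤ ‖x - L • e‖ := by
          rw [norm_sub_rev]; exact norm_sub_norm_le _ _
        rw [norm_smul, he, mul_one, Real.norm_eq_abs, abs_of_pos hL0] at h3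
        linarith
      simp only [h2, h5, zero_mul]
    · push Not at hx
      have h2 : Ξ =ᶠ[𝓝 x] id := by
        have : {z : E | R0 + 1 < ‖z‖} ∈ 𝓝 x :=
          (isOpen_lt continuous_const continuous_norm).mem_nhds hx
        filter_upwards [this] with z hz
        exact hid z (by
          have : R0 + 1 < ‖z‖ := hz
          linarith)
      have h3 : fderiv ℝ Ξ x = ContinuousLinearMap.id ℝ E := by
        rw [h2.fderiv_eq, fderiv_id]
      have h4 : (fderiv ℝ Ξ x).det = 1 := by
        rw [h3]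
        exact LinearMap.det_id
      have h5 : Ξ x = x := h2.eq_of_nhds
      simp only [h4, h5, mul_one]
  rw [h1]
  have h2 : ∫ x in closedBall (0 : E) R, φ (x - L • e) ∂μ = ∫ x, φ (x - L • e) ∂μ := by
    apply setIntegral_eq_integral_of_forall_compl_eq_zero
    intro x hx
    apply hφ0
    have h3 : ‖x‖ - ‖L • e‖ ≤ ‖x - L • e‖ := norm_sub_norm_le _ _
    rw [norm_smul, he, mul_one, Real.norm_eq_abs, abs_of_pos hL0] at h3
    have h4 : R < ‖x‖ := by
      rw [mem_closedBall, dist_zero_right] at hx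
      exact not_le.1 hx
    linarith
  rw [h2]
  exact integral_sub_right_eq_self (fun x => φ x) (L • e)

end Pool.Agent.H834R2.Vol
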