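import Pool.Agent.H834R2.Cov

/-! Parity of the number of preimages of a regular value. -/

set_option autoImplicit false

open MeasureTheory Metric Set Filter Topology
open scoped Topology ContDiff NNReal

namespace Pool.Agent.H834R2.Vol

variable {E : Type*} [NormedAddCommGroup E] [NormedSpace ℝ E] [FiniteDimensional ℝ E]

/-- local inverse near a regular point, with constant sign of the determinant -/
theorem exists_local (Ξ : E → E) (hΞ : ContDiff ℝ 1 Ξ) (x : E)
    (hreg : (fderiv ℝ Ξ x).det ≠ 0) (U : Set E) (hU : IsOpen U) (hxU : x ∈ U) :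
    ∃ W : Set E, IsOpen W ∧ x ∈ W ∧ W ⊆ U ∧ InjOn Ξ W ∧
      (∀ z ∈ W, 0 < (fderiv ℝ Ξ z).det * (fderiv ℝ Ξ x).det) ∧
      (∀ O ⊆ W, IsOpen O → IsOpen (Ξ '' O)) := by
  have : CompleteSpace E := FiniteDimensional.complete ℝ E
  let f' : E ≃L[ℝ] E := ContinuousLinearEquiv.ofBijective (fderiv ℝ Ξ x)
    (by
      rw [LinearMap.ker_eq_bot]
      exact (LinearMap.equivOfDetNeZero _ hreg).injective)
    (by
      rw [LinearMap.range_eq_top]
      exact (LinearMap.equivOfDetNeZero _ hreg).surjective)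
  have hf' : (f' : E →L[ℝ] E) = fderiv ℝ Ξ x := by
    ext v; rfl
  have hst : HasStrictFDerivAt Ξ (f' : E →L[ℝ] E) x := by
    rw [hf']
    exact hΞ.contDiffAt.hasStrictFDerivAt (by norm_num)
  let e := hst.toOpenPartialHomeomorph Ξ
  have hex : x ∈ e.source := hst.mem_toOpenPartialHomeomorph_source
  have hc1 : Continuous (fun x => (fderiv ℝ Ξ x).det) :=
    ContinuousLinearMap.continuous_det.comp (hΞ.continuous_fderiv (by norm_num))
  have hec : ∀ z, e z = Ξ z := fun z => rfl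
  refine ⟨e.source ∩ (U ∩ {z | 0 < (fderiv ℝ Ξ z).det * (fderiv ℝ Ξ x).det}), ?_, ?_, ?_, ?_, ?_, ?_⟩
  · exact e.open_source.inter (hU.inter (isOpen_lt continuous_const (hc1.mul continuous_const)))
  · refine ⟨hex, hxU, ?_⟩
    exact mul_self_pos.2 hreg
  · exact fun z hz => hz.2.1
  · intro a ha b hb hab
    exact e.injOn ha.1 hb.1 hab
  · exact fun z hz => hz.2.2
  · intro O hO hOo
    exact e.isOpen_image_of_subset_source hOo (fun z hz => (hO hz).1)

theorem odd_of_id_outside [Nontrivial E] (Ξ : E → E) (hΞ : ContDiff ℝ 1 Ξ) (R0 : ℝ) (hR0 : 0 ≤ R0)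
    (hid : ∀ x, R0 ≤ ‖x‖ → Ξ x = x) (y : E)
    (hreg : ∀ x, Ξ x = y → (fderiv ℝ Ξ x).det ≠ 0) :
    (Ξ ⁻¹' {y}).Finite ∧ Odd (Ξ ⁻¹' {y}).ncard := by
  classical
  let _ : MeasurableSpace E := borel E
  have _ : BorelSpace E := ⟨rfl⟩
  let μ : Measure E := MeasureTheory.Measure.addHaar
  have hΞc := hΞ.continuous
  set S : Set E := Ξ ⁻¹' {y} with hS
  have hSb : ∀ x ∈ S, ‖x‖ ≤ max R0 ‖y‖ := by
    intro x hx
    by_contra hcon
    push Not at hcon
    have h1 : R0 ≤ ‖x‖ := (le_max_left _ _).trans hcon.le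
    have h2 : x = y := by rw [← hid x h1]; exact hx
    rw [h2] at hcon
    exact absurd (le_max_right R0 ‖y‖) (not_le.2 hcon)
  have hScomp : IsCompact S := by
    apply (isCompact_closedBall (0 : E) (max R0 ‖y‖)).of_isClosed_subset
      (isClosed_singleton.preimage hΞc)
    intro x hx
    simpa using hSb x hx
  have hSfin : S.Finite := by
    have h1 : ∀ x ∈ S, ∃ W ∈ 𝓝 x, ∀ z ∈ W, z ∈ S → z = x := by
      intro x hx
      obtain ⟨W, hWo, hxW, -, hinj, -, -⟩ := exists_local Ξ hΞ x (hreg x hx) univ isOpen_univ trivial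
      refine ⟨W, hWo.mem_nhds hxW, fun z hz hzS => hinj hz hxW ?_⟩
      rw [show Ξ z = y from hzS, show Ξ x = y from hx]
    choose! W hW hW2 using h1
    obtain ⟨t, ht, hcov⟩ := hScomp.elim_nhds_subcover W hW
    apply t.finite_toSet.subset
    intro z hz
    obtain ⟨x, hxt, hzx⟩ := mem_iUnion₂.1 (hcov hz)
    rw [hW2 x (ht x hxt) z hzx hz]
    exact hxt
  refine ⟨hSfin, ?_⟩
  obtain ⟨U, hU, hUd⟩ := hSfin.t2_separation
  have hloc : ∀ x ∈ S, ∃ W : Set E, IsOpen W ∧ x ∈ W ∧ W ⊆ U x ∧ InjOn Ξ W ∧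
      (∀ z ∈ W, 0 < (fderiv ℝ Ξ z).det * (fderiv ℝ Ξ x).det) ∧
      (∀ O ⊆ W, IsOpen O → IsOpen (Ξ '' O)) := fun x hx =>
    exists_local Ξ hΞ x (hreg x hx) (U x) (hU x).2 (hU x).1
  choose! W hWo hxW hWU hWinj hWdet hWopen using hloc
  -- the compact part away from the preimages
  let R' : ℝ := max R0 ‖y‖ + 1
  have hK : IsCompact (closedBall (0 : E) R' \ ⋃ x ∈ S, W x) := by
    apply (isCompact_closedBall (0 : E) R').diff
    exact isOpen_biUnion fun x hx => hWo x hx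
  have hKy : y ∉ Ξ '' (closedBall (0 : E) R' \ ⋃ x ∈ S, W x) := by
    rintro ⟨z, hz, hzy⟩
    exact hz.2 (mem_iUnion₂.2 ⟨z, hzy, hxW z hzy⟩)
  have hn1 : (Ξ '' (closedBall (0 : E) R' \ ⋃ x ∈ S, W x))ᶜ ∈ 𝓝 y :=
    (hK.image hΞc).isClosed.isOpen_compl.mem_nhds hKy
  have hn2 : (⋂ x ∈ S, Ξ '' W x) ∈ 𝓝 y := by
    rw [biInter_mem hSfin]
    intro x hx
    apply (hWopen x hx (W x) subset_rfl (hWo x hx)).mem_nhds
    exact ⟨x, hxW x hx, hx⟩
  obtain ⟨ε, hε, hball⟩ := Metric.mem_nhds_iff.1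
    (inter_mem (inter_mem hn1 hn2) (Metric.ball_mem_nhds y one_pos))
  have hpre : ∀ z, Ξ z ∈ ball y ε → z ∈ ⋃ x ∈ S, W x := by
    intro z hz
    by_contra hcon
    have h1 := hball hz
    have h2 : ‖z‖ ≤ R' := by
      by_contra h3
      push Not at h3
      have h4 : R0 ≤ ‖z‖ := by
        have := le_max_left R0 ‖y‖
        simp only [R'] at h3
        linarith
      rw [hid z h4] at h1
      have h5 := h1.2
      rw [mem_ball, dist_eq_norm] at h5
      have h6 : ‖z‖ - ‖y‖ ≤ ‖z - y‖ := norm_sub_norm_le _ _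
      have := le_max_right R0 ‖y‖
      simp only [R'] at h3
      linarith
    exact h1.1.1 ⟨z, ⟨by simpa using h2, hcon⟩, rfl⟩
  -- the test function
  let φb : ContDiffBump y := ⟨ε / 2, ε, by linarith, by linarith⟩
  let φ : E → ℝ := fun z => φb z
  have hφ : ContDiff ℝ 1 φ := φb.contDiff
  have hφ0 : ∀ z, z ∉ ball y ε → φ z = 0 := by
    intro z hz
    by_contra hne
    have : z ∈ Function.support φb := hne
    rw [φb.support_eq] at this
    exact hz this
  have hφpos : 0 < ∫ z, φ z ∂μ := φb.integral_pos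
  obtain ⟨R1, hR1⟩ := integral_comp μ Ξ hΞ R0 hR0 hid φ hφ (‖y‖ + ε) (by positivity) (by
    intro z hz
    apply hφ0
    rw [mem_ball, dist_eq_norm]
    have h6 : ‖z‖ - ‖y‖ ≤ ‖z - y‖ := norm_sub_norm_le _ _
    linarith)
  let R : ℝ := max R1 (max R0 (‖y‖ + ε))
  have hint := hR1 R (le_max_left _ _)
  -- pieces
  let W' : E → Set E := fun x => W x ∩ Ξ ⁻¹' (ball y ε)
  have hW'o : ∀ x ∈ S, IsOpen (W' x) := fun x hx => (hWo x hx).inter (isOpen_ball.preimage hΞc)
  have hW'B : ∀ x ∈ S, W' x ⊆ closedBall (0 : E) R := by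
    intro x hx z hz
    rw [mem_closedBall, dist_zero_right]
    by_cases h : ‖z‖ ≤ R0
    · exact h.trans ((le_max_left _ _).trans (le_max_right _ _))
    · push Not at h
      have h1 : Ξ z ∈ ball y ε := hz.2
      rw [hid z h.le, mem_ball, dist_eq_norm] at h1
      have h6 : ‖z‖ - ‖y‖ ≤ ‖z - y‖ := norm_sub_norm_le _ _
      have : ‖z‖ ≤ ‖y‖ + ε := by linarith
      exact this.trans ((le_max_right _ _).trans (le_max_right _ _))
  have hW'img : ∀ x ∈ S, Ξ '' (W' x) = ball y ε := by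
    intro x hx
    apply Subset.antisymm
    · rintro _ ⟨z, hz, rfl⟩
      exact hz.2
    · intro w hw
      have h1 := (hball hw).1.2
      obtain ⟨z, hz, hzw⟩ := (mem_iInter₂.1 h1) x hx
      exact ⟨z, ⟨hz, by rw [mem_preimage, hzw]; exact hw⟩, hzw⟩
  have hc1 : Continuous (fun x => (fderiv ℝ Ξ x).det) :=
    ContinuousLinearMap.continuous_det.comp (hΞ.continuous_fderiv (by norm_num))
  have hc2 : Continuous (fun x => φ (Ξ x) * (fderiv ℝ Ξ x).det) :=
    (hφ.continuous.comp hΞc).mul hc1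
  let s : E → ℤ := fun x => if 0 < (fderiv ℝ Ξ x).det then 1 else -1
  have hpiece : ∀ x ∈ S, ∫ z in W' x, φ (Ξ z) * (fderiv ℝ Ξ z).det ∂μ = (s x : ℝ) * ∫ z, φ z ∂μ := by
    intro x hx
    have hcv := integral_image_eq_integral_abs_det_fderiv_smul μ (hW'o x hx).measurableSet
      (f := Ξ) (f' := fderiv ℝ Ξ)
      (fun z _ => ((hΞ.differentiable (by norm_num)).differentiableAt.hasFDerivAt).hasFDerivWithinAt)
      ((hWinj x hx).mono inter_subset_left) φ
    rw [hW'img x hx] at hcv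
    have h1 : ∫ z in ball y ε, φ z ∂μ = ∫ z, φ z ∂μ := by
      apply setIntegral_eq_integral_of_forall_compl_eq_zero
      intro z hz
      exact hφ0 z hz
    rw [← h1, hcv, ← integral_const_mul]
    apply setIntegral_congr_fun (hW'o x hx).measurableSet
    intro z hz
    have h2 := hWdet x hx z hz.1
    by_cases hpos : 0 < (fderiv ℝ Ξ x).det
    · have h3 : 0 < (fderiv ℝ Ξ z).det := pos_of_mul_pos_left h2 hpos.le
      simp only [s, hpos, if_true, abs_of_pos h3, smul_eq_mul]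
      push_cast
      ring
    · have hneg : (fderiv ℝ Ξ x).det < 0 := lt_of_le_of_ne (not_lt.1 hpos) (hreg x hx)
      have h3 : (fderiv ℝ Ξ z).det < 0 := by
        by_contra h4
        push Not at h4
        have := mul_nonpos_of_nonneg_of_nonpos h4 hneg.le
        linarith
      simp only [s, hpos, if_false, abs_of_neg h3, smul_eq_mul]
      push_cast
      ring
  have hdisj : (hSfin.toFinset : Set E).PairwiseDisjoint W' := by
    intro a ha b hb hab
    have ha' : a ∈ S := by simpa using ha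
    have hb' : b ∈ S := by simpa using hb
    have := hUd ha' hb' hab
    exact this.mono (inter_subset_left.trans (hWU a ha')) (inter_subset_left.trans (hWU b hb'))
  have hsum : ∫ z in ⋃ x ∈ hSfin.toFinset, W' x, φ (Ξ z) * (fderiv ℝ Ξ z).det ∂μ =
      ∑ x ∈ hSfin.toFinset, ∫ z in W' x, φ (Ξ z) * (fderiv ℝ Ξ z).det ∂μ := by
    apply integral_biUnion_finset
    · intro x hx
      exact (hW'o x (by simpa using hx)).measurableSet
    · exact hdisj
    · intro x hx
      exact (hc2.continuousOn.integrableOn_compact (isCompact_closedBall (0 : E) R)).mono_set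
        (hW'B x (by simpa using hx))
  have htot : ∫ z in closedBall (0 : E) R, φ (Ξ z) * (fderiv ℝ Ξ z).det ∂μ =
      ∫ z in ⋃ x ∈ hSfin.toFinset, W' x, φ (Ξ z) * (fderiv ℝ Ξ z).det ∂μ := by
    apply setIntegral_eq_of_subset_of_forall_sdiff_eq_zero isClosed_closedBall.measurableSet
    · intro z hz
      obtain ⟨x, hx, hzx⟩ := mem_iUnion₂.1 hz
      exact hW'B x (by simpa using hx) hzx
    · intro z hz
      have h1 : Ξ z ∉ ball y ε := by
        intro h2
        obtain ⟨x, hx, hzx⟩ := mem_iUnion₂.1 (hpre z h2)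
        exact hz.2 (mem_iUnion₂.2 ⟨x, by simpa using hx, hzx, h2⟩)
      rw [hφ0 _ h1, zero_mul]
  rw [htot, hsum, Finset.sum_congr rfl (fun x hx => hpiece x (by simpa using hx)),
    ← Finset.sum_mul] at hint
  have hs1 : (∑ x ∈ hSfin.toFinset, (s x : ℝ)) = 1 := by
    have := mul_right_cancel₀ hφpos.ne' (hint.trans (one_mul _).symm)
    exact this
  have hs2 : ∑ x ∈ hSfin.toFinset, s x = 1 := by exact_mod_cast hs1
  have hs3 : ∑ x ∈ hSfin.toFinset, (s x + 1) = 1 + (hSfin.toFinset.card : ℤ) := by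
    rw [Finset.sum_add_distrib, hs2]
    simp
  have hs4 : Even (∑ x ∈ hSfin.toFinset, (s x + 1)) := by
    apply Finset.even_sum
    intro x _
    simp only [s]
    split_ifs
    · exact ⟨1, by norm_num⟩
    · exact ⟨0, by norm_num⟩
  rw [hs3] at hs4
  have hs5 : Odd (hSfin.toFinset.card : ℤ) := by
    rcases Int.even_or_odd (hSfin.toFinset.card : ℤ) with h | h
    · exact absurd hs4 (Int.not_even_iff_odd.2 (odd_one.add_even h))
    · exact h
  rw [Set.ncard_eq_toFinset_card _ hSfin]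
  exact_mod_cast hs5

/-- **Parity theorem.** A continuously differentiable map at bounded distance from the identity
takes each regular value an odd number of times. -/
theorem odd_preimage [Nontrivial E] (Ξ : E → E) (hΞ : ContDiff ℝ 1 Ξ) (D : ℝ)
    (hD : ∀ x, ‖Ξ x - x‖ ≤ D) (y : E)
    (hreg : ∀ x, Ξ x = y → (fderiv ℝ Ξ x).det ≠ 0) :
    (Ξ ⁻¹' {y}).Finite ∧ Odd (Ξ ⁻¹' {y}).ncard := by
  have hD0 : 0 ≤ D := (norm_nonneg _).trans (hD 0)
  let ρ : ContDiffBump (0 : E) := ⟨‖y‖ + D + 1, ‖y‖ + D + 2, by positivity, by linarith⟩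
  let Ξ' : E → E := fun x => x + ρ x • (Ξ x - x)
  have hΞ' : ContDiff ℝ 1 Ξ' :=
    contDiff_id.add (ρ.contDiff.smul (hΞ.sub contDiff_id))
  have hclose : ∀ x, ‖Ξ' x - x‖ ≤ D := by
    intro x
    have h1 : Ξ' x - x = ρ x • (Ξ x - x) := by simp [Ξ']
    rw [h1, norm_smul, Real.norm_eq_abs, abs_of_nonneg ρ.nonneg]
    calc ρ x * ‖Ξ x - x‖ ≤ 1 * D := mul_le_mul ρ.le_one (hD x) (norm_nonneg _) zero_le_one
      _ = D := one_mul D
  have heq : ∀ x, ‖x‖ < ‖y‖ + D + 1 → Ξ' =ᶠ[𝓝 x] Ξ := by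
    intro x hx
    have : ball (0 : E) (‖y‖ + D + 1) ∈ 𝓝 x := isOpen_ball.mem_nhds (by simpa using hx)
    filter_upwards [this] with z hz
    have h1 : ρ z = 1 := ρ.one_of_mem_closedBall (ball_subset_closedBall hz)
    simp [Ξ', h1]
  have hsm : ∀ (Θ : E → E), (∀ x, ‖Θ x - x‖ ≤ D) → ∀ x, Θ x = y → ‖x‖ < ‖y‖ + D + 1 := by
    intro Θ hΘ x hx
    have h1 := hΘ x
    rw [hx] at h1
    have h2 : ‖x‖ - ‖y‖ ≤ ‖y - x‖ := by rw [norm_sub_rev]; exact norm_sub_norm_le _ _
    linarith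
  have hset : Ξ ⁻¹' {y} = Ξ' ⁻¹' {y} := by
    ext x
    constructor
    · intro hx
      have h1 := hsm Ξ hD x hx
      show Ξ' x = y
      rw [(heq x h1).eq_of_nhds]; exact hx
    · intro hx
      have h1 := hsm Ξ' hclose x hx
      show Ξ x = y
      rw [← (heq x h1).eq_of_nhds]; exact hx
  rw [hset]
  apply odd_of_id_outside Ξ' hΞ' (‖y‖ + D + 2) (by positivity)
  · intro x hx
    have h1 : ρ x = 0 := by
      apply ρ.zero_of_le_dist
      rw [dist_zero_right]
      exact hx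
    simp [Ξ', h1]
  · intro x hx
    have h1 := hsm Ξ' hclose x hx
    rw [(heq x h1).fderiv_eq]
    apply hreg
    rw [← (heq x h1).eq_of_nhds]; exact hx

end Pool.Agent.H834R2.Vol
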