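import Pool.Agent.H834R2.Deg
import Pool.Agent.H834R2.Chart

/-! An involution at bounded distance from the identity on a connected hypersurface at bounded
distance from a hyperplane is trivial. -/

set_option autoImplicit false

open MeasureTheory Metric Set Filter Topology
open scoped Topology ContDiff NNReal Manifold

namespace Pool.Agent.H834R2

variable {V : Type*} [NormedAddCommGroup V] [NormedSpace ℝ V] [FiniteDimensional ℝ V]

/-- bounded smooth extension from a closed set -/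
theorem exists_extension {Φ : V × ℝ → ℝ} (hΦ : Continuous Φ) (f : V × ℝ → V) (C : ℝ)
    (hC0 : 0 ≤ C)
    (hC : ∀ ξ, Φ ξ = 0 → ‖f ξ‖ ≤ C)
    (hloc : ∀ ξ, Φ ξ = 0 → ∃ fh : V × ℝ → V, ContDiffAt ℝ 1 fh ξ ∧
      ∀ᶠ η in 𝓝 ξ, Φ η = 0 → fh η = f η) :
    ∃ F : V × ℝ → V, ContDiff ℝ 1 F ∧ (∀ ξ, Φ ξ = 0 → F ξ = f ξ) ∧ ∀ ξ, ‖F ξ‖ ≤ C + 1 := by
  classical
  let t : V × ℝ → Set V := fun ξ => if Φ ξ = 0 then {f ξ} else closedBall 0 (C + 1)
  have ht : ∀ ξ, Convex ℝ (t ξ) := by
    intro ξ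
    simp only [t]
    split_ifs
    · exact convex_singleton _
    · exact convex_closedBall _ _
  obtain ⟨F, hF⟩ := exists_contMDiffMap_forall_mem_convex_of_local (n := 1)
    𝓘(ℝ, V × ℝ) (t := t) ht (by
      intro ξ
      by_cases hξ : Φ ξ = 0
      · obtain ⟨fh, hs, he⟩ := hloc ξ hξ
        have h1 : ∀ᶠ η in 𝓝 ξ, ContDiffAt ℝ 1 fh η := hs.eventually (by simp)
        have h2 : ∀ᶠ η in 𝓝 ξ, ‖fh η‖ < C + 1 := by
          have hc : ContinuousAt (fun η => ‖fh η‖) ξ := hs.continuousAt.norm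
          apply hc.eventually_lt continuousAt_const
          rw [he.self_of_nhds hξ]
          linarith [hC ξ hξ]
        refine ⟨{η | ContDiffAt ℝ 1 fh η ∧ ‖fh η‖ < C + 1 ∧ (Φ η = 0 → fh η = f η)},
          h1.and (h2.and he), fh, ?_, ?_⟩
        · intro η hη
          exact hη.1.contMDiffAt.contMDiffWithinAt
        · intro η hη
          simp only [t]
          split_ifs with h
          · exact hη.2.2 h
          · simpa using hη.2.1.le
      · have h1 : ∀ᶠ η in 𝓝 ξ, Φ η ≠ 0 := hΦ.continuousAt.eventually_ne hξ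
        refine ⟨{η | Φ η ≠ 0}, h1, fun _ => 0, contMDiffOn_const, ?_⟩
        intro η hη
        simp only [t]
        rw [if_neg hη]
        simp
        linarith)
  refine ⟨F, F.contMDiff.contDiff, ?_, ?_⟩
  · intro ξ hξ
    have := hF ξ
    simp only [t] at this
    rw [if_pos hξ] at this
    exact this
  · intro ξ
    have h := hF ξ
    simp only [t] at h
    split_ifs at h with h1
    · have h2 : F ξ = f ξ := h
      rw [h2]
      linarith [hC ξ h1]
    · simpa using h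

/-- two-element orbits -/
theorem even_card_of_involution {α : Type*} (Z : Set α) (hZ : Z.Finite) (g : α → α)
    (hg : ∀ x ∈ Z, g x ∈ Z) (hgg : ∀ x ∈ Z, g (g x) = x) (hne : ∀ x ∈ Z, g x ≠ x) :
    Even Z.ncard := by
  classical
  have _ : Fintype Z := hZ.fintype
  let f : Function.End Z := fun x => ⟨g x, hg x x.2⟩
  have hf : f ^ 2 ^ 1 = 1 := by
    funext x
    rw [pow_one, sq]
    apply Subtype.ext
    exact hgg x x.2
  have := Fact.mk Nat.prime_two
  have h1 := Equiv.Perm.card_fixedPoints_modEq hf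
  have h2 : Fintype.card (Function.fixedPoints f) = 0 := by
    rw [Fintype.card_eq_zero_iff]
    constructor
    rintro ⟨x, hx⟩
    exact hne x x.2 (congrArg Subtype.val hx)
  rw [h2] at h1
  rw [Set.ncard_eq_toFinset_card', Set.toFinset_card]
  exact (Nat.even_iff).2 h1

/-- the set of points of the hypersurface near which `g` is the identity is closed -/
theorem closed_step {Φ : V × ℝ → ℝ} (hΦ : ContDiff ℝ ∞ Φ)
    (hreg : ∀ ξ, Φ ξ = 0 → fderiv ℝ Φ ξ ≠ 0)
    (g : V × ℝ → V × ℝ) (hgS : ∀ ξ, Φ ξ = 0 → Φ (g ξ) = 0) (hgg : ∀ ξ, Φ ξ = 0 → g (g ξ) = ξ)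
    (hgsm : ∀ ξ, Φ ξ = 0 → ∃ gh : V × ℝ → V × ℝ, ContDiffAt ℝ 1 gh ξ ∧
      ∀ᶠ η in 𝓝 ξ, Φ η = 0 → gh η = g η)
    (ξ : V × ℝ) (hξ : Φ ξ = 0)
    (hfr : ∃ᶠ η in 𝓝 ξ, Φ η = 0 ∧ ∀ᶠ ζ in 𝓝 η, Φ ζ = 0 → g ζ = ζ) :
    ∀ᶠ ζ in 𝓝 ξ, Φ ζ = 0 → g ζ = ζ := by
  have : CompleteSpace V := FiniteDimensional.complete ℝ V
  obtain ⟨P, e, hpe, he, -, hes⟩ := exists_chart hΦ ξ (hreg ξ hξ)
  obtain ⟨gh, hgh, hghe⟩ := hgsm ξ hξ
  -- the parametrisation
  let φ : V → V × ℝ := fun z => e.symm (z, 0)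
  have hφ0 : (P ξ, (0 : ℝ)) ∈ e.target := by
    have := e.map_source hpe
    rwa [he, hξ] at this
  have hφξ : φ (P ξ) = ξ := by
    have := e.left_inv hpe
    rwa [he, hξ] at this
  have hφs : ContDiffAt ℝ 1 φ (P ξ) := by
    have h1 : ContDiffAt ℝ ∞ e.symm (P ξ, (0 : ℝ)) :=
      hes.contDiffAt (e.open_target.mem_nhds hφ0)
    have h2 : ContDiffAt ℝ 1 (fun z : V => (z, (0 : ℝ))) (P ξ) :=
      contDiffAt_id.prodMk contDiffAt_const
    exact (h1.of_le (by simp)).comp (P ξ) h2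
  have hφeq : ∀ η ∈ e.source, Φ η = 0 → φ (P η) = η := by
    intro η hη h0
    have := e.left_inv hη
    rwa [he, h0] at this
  have hφz : ∀ z : V, (z, (0 : ℝ)) ∈ e.target → Φ (φ z) = 0 ∧ P (φ z) = z := by
    intro z hz
    have := e.right_inv hz
    rw [he] at this
    exact ⟨congrArg Prod.snd this, congrArg Prod.fst this⟩
  have hVo : IsOpen {z : V | (z, (0 : ℝ)) ∈ e.target} :=
    e.open_target.preimage (continuous_id.prodMk continuous_const)
  -- gh ξ = ξ
  have hghξ : gh ξ = ξ := by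
    by_contra hne
    have hc : ContinuousAt (fun η => gh η - η) ξ := hgh.continuousAt.sub continuousAt_id
    have h1 : ∀ᶠ η in 𝓝 ξ, gh η - η ≠ 0 := hc.eventually_ne (sub_ne_zero.2 hne)
    apply hfr
    filter_upwards [h1, hghe] with η h2 h3 h4
    apply h2
    rw [h3 h4.1, h4.2.self_of_nhds h4.1, sub_self]
  have hgξ : g ξ = ξ := by rw [← hghe.self_of_nhds hξ]; exact hghξ
  -- the local map
  let q : V → V := fun z => P (gh (φ z))
  have hq : ContDiffAt ℝ 1 q (P ξ) := by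
    have h1 : ContDiffAt ℝ 1 gh (φ (P ξ)) := by rw [hφξ]; exact hgh
    exact P.contDiff.contDiffAt.comp (P ξ) (h1.comp (P ξ) hφs)
  have hqid : fderiv ℝ q (P ξ) = ContinuousLinearMap.id ℝ V := by
    by_contra hne
    have hc : ContinuousAt (fderiv ℝ q) (P ξ) := by
      have := hq.fderiv_right (m := 0) (by simp)
      exact this.continuousAt
    have h1 : ∀ᶠ z in 𝓝 (P ξ), fderiv ℝ q z ≠ ContinuousLinearMap.id ℝ V := hc.eventually_ne hne
    have h2 : ∀ᶠ η in 𝓝 ξ, fderiv ℝ q (P η) ≠ ContinuousLinearMap.id ℝ V :=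
      P.continuous.continuousAt.eventually h1
    apply hfr
    filter_upwards [h2, e.open_source.mem_nhds hpe, hghe.eventually_nhds] with η h3 h4 h5 h6
    apply h3
    have hηt : (P η, (0 : ℝ)) ∈ e.target := by
      have := e.map_source h4
      rwa [he, h6.1] at this
    have hφη : φ (P η) = η := hφeq η h4 h6.1
    have hφc : ContinuousAt φ (P η) := by
      have h7 : ContinuousAt e.symm (P η, (0 : ℝ)) := e.continuousAt_symm hηt
      have h8 : ContinuousAt (fun z : V => (z, (0 : ℝ))) (P η) := by fun_prop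
      exact ContinuousAt.comp h7 h8
    have h7 : q =ᶠ[𝓝 (P η)] id := by
      have h8 : ∀ᶠ z in 𝓝 (P η), Φ (φ z) = 0 → gh (φ z) = g (φ z) := by
        have h5' := h5
        rw [← hφη] at h5'
        exact hφc.eventually h5'
      have h9 : ∀ᶠ z in 𝓝 (P η), Φ (φ z) = 0 → g (φ z) = φ z := by
        have h5' := h6.2
        rw [← hφη] at h5'
        exact hφc.eventually h5'
      filter_upwards [h8, h9, hVo.mem_nhds hηt] with z h10 h11 h12
      obtain ⟨h13, h14⟩ := hφz z h12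
      show P (gh (φ z)) = z
      rw [h10 h13, h11 h13, h14]
    rw [h7.fderiv_eq, fderiv_id]
  let k : V → V := fun z => z + q z
  have hk : ContDiffAt ℝ 1 k (P ξ) := contDiffAt_id.add hq
  have hk' : HasFDerivAt k (((ContinuousLinearEquiv.smulLeft (Units.mk0 (2 : ℝ) two_ne_zero) :
      V ≃L[ℝ] V)) : V →L[ℝ] V) (P ξ) := by
    have h1 : HasFDerivAt k (ContinuousLinearMap.id ℝ V + fderiv ℝ q (P ξ)) (P ξ) :=
      (hasFDerivAt_id _).add (hq.differentiableAt (by simp)).hasFDerivAt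
    rw [hqid] at h1
    convert h1 using 1
    ext v
    simp [two_smul, Units.smul_def]
  let ek := hk.toOpenPartialHomeomorph k hk' (by simp)
  have hek : P ξ ∈ ek.source := hk.mem_toOpenPartialHomeomorph_source hk' (by simp)
  have hekc : ∀ z, ek z = k z := fun z => rfl
  -- conclusion
  have hghc : Tendsto gh (𝓝 ξ) (𝓝 ξ) := by
    have := hgh.continuousAt.tendsto
    rwa [hghξ] at this
  have hN : ∀ᶠ η in 𝓝 ξ, P η ∈ ek.source := P.continuous.continuousAt.eventually
    (ek.open_source.mem_nhds hek)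
  filter_upwards [hghe, hN, hghc.eventually hN, e.open_source.mem_nhds hpe,
    hghc.eventually (e.open_source.mem_nhds hpe), hghc.eventually hghe] with η h1 h2 h3 h4 h5 h6 h7
  have h8 : gh η = g η := h1 h7
  rw [h8] at h3 h5 h6
  have h9 : Φ (g η) = 0 := hgS η h7
  have h10 : gh (g η) = η := by rw [h6 h9, hgg η h7]
  have h11 : k (P η) = k (P (g η)) := by
    simp only [k, q]
    rw [hφeq η h4 h7, hφeq (g η) h5 h9, h8, h10, add_comm]
  have h12 : P η = P (g η) := ek.injOn h2 h3 h11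
  calc g η = φ (P (g η)) := (hφeq (g η) h5 h9).symm
    _ = φ (P η) := by rw [h12]
    _ = η := hφeq η h4 h7

/-- The main rigidity theorem. -/
theorem involution_trivial {Φ : V × ℝ → ℝ} (hΦ : ContDiff ℝ ∞ Φ) (C : ℝ)
    (hC : ∀ ξ, |Φ ξ - ξ.2| ≤ C)
    (hreg : ∀ ξ, Φ ξ = 0 → fderiv ℝ Φ ξ ≠ 0)
    (hconn : IsPreconnected {ξ | Φ ξ = 0})
    (g : V × ℝ → V × ℝ) (hgS : ∀ ξ, Φ ξ = 0 → Φ (g ξ) = 0) (hgg : ∀ ξ, Φ ξ = 0 → g (g ξ) = ξ)
    (hgsm : ∀ ξ, Φ ξ = 0 → ∃ gh : V × ℝ → V × ℝ, ContDiffAt ℝ 1 gh ξ ∧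
      ∀ᶠ η in 𝓝 ξ, Φ η = 0 → gh η = g η)
    (D : ℝ) (hD0 : 0 ≤ D) (hD : ∀ ξ, Φ ξ = 0 → ‖(g ξ).1 - ξ.1‖ ≤ D) :
    ∀ ξ, Φ ξ = 0 → g ξ = ξ := by
  classical
  have : CompleteSpace V := FiniteDimensional.complete ℝ V
  let U : Set (V × ℝ) := {ξ | ∀ᶠ η in 𝓝 ξ, Φ η = 0 → g η = η}
  have hUo : IsOpen U := isOpen_setOfPred_eventually_nhds
  by_cases hA : ∃ ξ, Φ ξ = 0 ∧ ξ ∈ U
  · -- connectedness
    let W : Set (V × ℝ) := {ξ | ∀ᶠ η in 𝓝 ξ, ¬ (Φ η = 0 ∧ η ∈ U)}
    have hWo : IsOpen W := isOpen_setOfPred_eventually_nhds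
    have hcov : {ξ | Φ ξ = 0} ⊆ U ∪ W := by
      intro ξ hξ
      by_cases h : ξ ∈ W
      · exact Or.inr h
      · left
        apply closed_step hΦ hreg g hgS hgg hgsm ξ hξ
        exact h
    intro ξ hξ
    by_contra hne
    have hξU : ξ ∉ U := fun h => hne (Eventually.self_of_nhds h hξ)
    have hξW : ξ ∈ W := (hcov hξ).resolve_left hξU
    obtain ⟨ξ0, h0, h0U⟩ := hA
    obtain ⟨ζ, hζ, hζU, hζW⟩ := hconn U W hUo hWo hcov ⟨ξ0, h0, h0U⟩ ⟨ξ, hξ, hξW⟩
    exact (Eventually.self_of_nhds hζW) ⟨hζ, hζU⟩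
  · exfalso
    push Not at hA
    -- the extension
    obtain ⟨F, hFs, hFe, hFb⟩ := exists_extension hΦ.continuous
      (fun ξ => (2 : ℝ)⁻¹ • ((g ξ).1 - ξ.1)) D hD0 (by
        intro ξ hξ
        rw [norm_smul]
        have := hD ξ hξ
        have h2 := norm_nonneg ((g ξ).1 - ξ.1)
        rw [Real.norm_eq_abs, abs_of_pos (by norm_num)]
        linarith) (by
        intro ξ hξ
        obtain ⟨gh, h1, h2⟩ := hgsm ξ hξ
        refine ⟨fun η => (2 : ℝ)⁻¹ • ((gh η).1 - η.1), ?_, ?_⟩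
        · exact contDiffAt_const.smul (h1.fst.sub contDiffAt_fst)
        · filter_upwards [h2] with η h3 h4
          rw [h3 h4])
    let Ξ : V × ℝ → V × ℝ := fun ξ => (ξ.1 + F ξ, Φ ξ)
    have hΦ1 : ContDiff ℝ 1 Φ := hΦ.of_le (by simp)
    have hΞ : ContDiff ℝ 1 Ξ := (contDiff_fst.add hFs).prodMk hΦ1
    have hΞb : ∀ ξ, ‖Ξ ξ - ξ‖ ≤ max (D + 1) C := by
      intro ξ
      rw [Prod.norm_def]
      apply max_le_max
      · have : (Ξ ξ - ξ).1 = F ξ := by simp [Ξ]
        rw [this]; exact hFb ξ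
      · have : (Ξ ξ - ξ).2 = Φ ξ - ξ.2 := by simp [Ξ]
        rw [this]; exact hC ξ
    have hinv : ∀ ξ, Φ ξ = 0 → Ξ (g ξ) = Ξ ξ := by
      intro ξ hξ
      have h1 := hgS ξ hξ
      apply Prod.ext
      · show (g ξ).1 + F (g ξ) = ξ.1 + F ξ
        rw [hFe _ h1, hFe _ hξ, hgg ξ hξ]
        have h2 : (g ξ).1 = (2 : ℝ)⁻¹ • ((g ξ).1 + (g ξ).1) := by
          rw [← two_smul ℝ, smul_smul]; norm_num
        have h3 : ξ.1 = (2 : ℝ)⁻¹ • (ξ.1 + ξ.1) := by
          rw [← two_smul ℝ, smul_smul]; norm_num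
        have h4 : (g ξ).1 + (2 : ℝ)⁻¹ • (ξ.1 - (g ξ).1) = (2 : ℝ)⁻¹ • ((g ξ).1 + ξ.1) := by
          nth_rewrite 1 [h2]
          rw [← smul_add]
          congr 1
          abel
        have h5 : ξ.1 + (2 : ℝ)⁻¹ • ((g ξ).1 - ξ.1) = (2 : ℝ)⁻¹ • ((g ξ).1 + ξ.1) := by
          nth_rewrite 1 [h3]
          rw [← smul_add]
          congr 1
          abel
        rw [h4, h5]
      · show Φ (g ξ) = Φ ξ
        rw [h1, hξ]
    -- Sard
    let _ : MeasurableSpace V := borel V
    have _ : BorelSpace V := ⟨rfl⟩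
    let μ : Measure V := MeasureTheory.Measure.addHaar
    have hΦd : ∀ ξ, HasFDerivAt Φ (fderiv ℝ Φ ξ) ξ := fun ξ =>
      ((hΦ.differentiable (by simp)) ξ).hasFDerivAt
    have hΞd : ∀ ξ, HasFDerivAt Ξ (fderiv ℝ Ξ ξ) ξ := fun ξ =>
      ((hΞ.differentiable (by simp)) ξ).hasFDerivAt
    have hch : ∀ p : {ξ : V × ℝ // Φ ξ = 0}, ∃ (P : (V × ℝ) →L[ℝ] V)
        (e : OpenPartialHomeomorph (V × ℝ) (V × ℝ)), (p : V × ℝ) ∈ e.source ∧
        (∀ q, e q = (P q, Φ q)) ∧
        (∀ q ∈ e.source, ∀ u, P u = 0 → fderiv ℝ Φ q u = 0 → u = 0) ∧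
        ContDiffOn ℝ ∞ e.symm e.target := fun p => exists_chart hΦ p (hreg p p.2)
    choose P e hpe he heinj hes using hch
    obtain ⟨T, hTc, hT⟩ := TopologicalSpace.isOpen_iUnion_countable
      (fun p => (e p).source) (fun p => (e p).open_source)
    let Gi : {ξ : V × ℝ // Φ ξ = 0} → V → V := fun p z => (Ξ ((e p).symm (z, 0))).1
    let Crit : {ξ : V × ℝ // Φ ξ = 0} → Set V := fun p =>
      {z | (z, (0 : ℝ)) ∈ (e p).target ∧ (fderiv ℝ (Gi p) z).det = 0}
    have hφd : ∀ p z, (z, (0 : ℝ)) ∈ (e p).target →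
        DifferentiableAt ℝ (fun z : V => (e p).symm (z, (0 : ℝ))) z := by
      intro p z hz
      have h1 : DifferentiableAt ℝ (e p).symm (z, (0 : ℝ)) :=
        ((hes p).contDiffAt ((e p).open_target.mem_nhds hz)).differentiableAt (by simp)
      have h2 : DifferentiableAt ℝ (fun z : V => (z, (0 : ℝ))) z := by fun_prop
      exact h1.comp z h2
    have hGd : ∀ p z, (z, (0 : ℝ)) ∈ (e p).target → HasFDerivAt (Gi p)
        (((ContinuousLinearMap.fst ℝ V ℝ).comp (fderiv ℝ Ξ ((e p).symm (z, 0)))).comp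
          (fderiv ℝ (fun z : V => (e p).symm (z, (0 : ℝ))) z)) z := by
      intro p z hz
      have h1 := (hφd p z hz).hasFDerivAt
      have h2 : HasFDerivAt (fun ξ => (Ξ ξ).1)
          ((ContinuousLinearMap.fst ℝ V ℝ).comp (fderiv ℝ Ξ ((e p).symm (z, 0))))
          ((e p).symm (z, 0)) := (hΞd _).fst
      exact HasFDerivAt.comp (g := fun ξ => (Ξ ξ).1) z h2 h1
    have hnull : μ (⋃ p ∈ T, Gi p '' Crit p) = 0 := by
      rw [measure_biUnion_null_iff hTc]
      intro p _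
      apply addHaar_image_eq_zero_of_det_fderivWithin_eq_zero μ (f' := fderiv ℝ (Gi p))
      · intro z hz
        exact ((hGd p z hz.1).differentiableAt.hasFDerivAt).hasFDerivWithinAt
      · intro z hz
        exact hz.2
    obtain ⟨w, hw⟩ : ∃ w, w ∉ ⋃ p ∈ T, Gi p '' Crit p := by
      by_contra hcon
      push Not at hcon
      rw [eq_univ_of_forall hcon] at hnull
      exact (isOpen_univ.measure_ne_zero μ univ_nonempty) hnull
    -- `(w, 0)` is a regular value of `Ξ`
    have hwreg : ∀ ξ, Ξ ξ = (w, 0) → (fderiv ℝ Ξ ξ).det ≠ 0 := by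
      intro ξ hξ hdet
      have hξ0 : Φ ξ = 0 := congrArg Prod.snd hξ
      have h1 : ξ ∈ ⋃ p, (e p).source := mem_iUnion.2 ⟨⟨ξ, hξ0⟩, hpe ⟨ξ, hξ0⟩⟩
      rw [← hT] at h1
      obtain ⟨p, hpT, hps⟩ := mem_iUnion₂.1 h1
      have h2 : (e p).symm (P p ξ, 0) = ξ := by
        have := (e p).left_inv hps
        rwa [he, hξ0] at this
      have h3 : (P p ξ, (0 : ℝ)) ∈ (e p).target := by
        have := (e p).map_source hps
        rwa [he, hξ0] at this
      apply hw
      refine mem_iUnion₂.2 ⟨p, hpT, P p ξ, ⟨h3, ?_⟩, ?_⟩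
      · -- determinant
        by_contra hne
        have hGdz := hGd p (P p ξ) h3
        rw [h2] at hGdz
        rw [hGdz.fderiv] at hne
        set A := fderiv ℝ (fun z : V => (e p).symm (z, (0 : ℝ))) (P p ξ) with hAdef
        have hAd : HasFDerivAt (fun z : V => (e p).symm (z, (0 : ℝ))) A (P p ξ) :=
          (hφd p _ h3).hasFDerivAt
        -- P ∘ A = id, dΦ ∘ A = 0
        have hVo : IsOpen {z : V | (z, (0 : ℝ)) ∈ (e p).target} :=
          (e p).open_target.preimage (continuous_id.prodMk continuous_const)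
        have h4 : (P p).comp A = ContinuousLinearMap.id ℝ V := by
          have h5 : HasFDerivAt (fun z : V => P p ((e p).symm (z, (0 : ℝ)))) ((P p).comp A)
              (P p ξ) := (P p).hasFDerivAt.comp _ hAd
          have h6 : HasFDerivAt (fun z : V => z) ((P p).comp A) (P p ξ) := by
            apply h5.congr_of_eventuallyEq
            filter_upwards [hVo.mem_nhds h3] with z hz
            have := (e p).right_inv hz
            rw [he] at this
            exact (congrArg Prod.fst this).symm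
          exact h6.unique (hasFDerivAt_id _)
        have h5 : (fderiv ℝ Φ ξ).comp A = 0 := by
          have h5 : HasFDerivAt (fun z : V => Φ ((e p).symm (z, (0 : ℝ))))
              ((fderiv ℝ Φ ξ).comp A) (P p ξ) := by
            have h7 := hΦd ((e p).symm (P p ξ, 0))
            rw [h2] at h7
            have h8 : HasFDerivAt Φ (fderiv ℝ Φ ξ) ((fun z : V => (e p).symm (z, (0 : ℝ))) (P p ξ)) := by
              show HasFDerivAt Φ (fderiv ℝ Φ ξ) ((e p).symm (P p ξ, 0))
              rw [h2]; exact h7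
            exact HasFDerivAt.comp (f := fun z : V => (e p).symm (z, (0 : ℝ))) (P p ξ) h8 hAd
          have h6 : HasFDerivAt (fun _ : V => (0 : ℝ)) ((fderiv ℝ Φ ξ).comp A) (P p ξ) := by
            apply h5.congr_of_eventuallyEq
            filter_upwards [hVo.mem_nhds h3] with z hz
            have := (e p).right_inv hz
            rw [he] at this
            exact (congrArg Prod.snd this).symm
          exact h6.unique (hasFDerivAt_const _ _)
        -- injectivity of `dΞ`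
        have h6 : ∀ u, fderiv ℝ Ξ ξ u = 0 → u = 0 := by
          intro u hu
          have h7 : fderiv ℝ Φ ξ u = 0 := by
            have h8 : HasFDerivAt (fun ξ => (Ξ ξ).2)
                ((ContinuousLinearMap.snd ℝ V ℝ).comp (fderiv ℝ Ξ ξ)) ξ := (hΞd _).snd
            have h9 : fderiv ℝ Φ ξ = (ContinuousLinearMap.snd ℝ V ℝ).comp (fderiv ℝ Ξ ξ) :=
              (hΦd ξ).unique h8
            rw [h9]
            simp [hu]
          have h8 : u = A (P p u) := by
            have h9 : u - A (P p u) = 0 := by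
              apply heinj p ξ hps
              · rw [map_sub]
                have := congrArg (fun f => f (P p u)) h4
                simp only [ContinuousLinearMap.comp_apply, ContinuousLinearMap.id_apply] at this
                rw [this, sub_self]
              · rw [map_sub, h7]
                have := congrArg (fun f => f (P p u)) h5
                simp only [ContinuousLinearMap.comp_apply, zero_apply] at this
                rw [this, sub_zero]
            exact sub_eq_zero.1 h9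
          have h9 : (((ContinuousLinearMap.fst ℝ V ℝ).comp (fderiv ℝ Ξ ξ)).comp A) (P p u) = 0 := by
            simp only [ContinuousLinearMap.comp_apply]
            rw [← h8, hu]
            rfl
          have h10 : P p u = 0 := by
            have hinj := (LinearMap.equivOfDetNeZero _ hne).injective
            apply hinj
            rw [map_zero]
            exact h9
          rw [h8, h10, map_zero]
        have h7 : LinearMap.ker (fderiv ℝ Ξ ξ : (V × ℝ) →ₗ[ℝ] (V × ℝ)) = ⊥ := by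
          rw [LinearMap.ker_eq_bot']
          exact h6
        have h8 : IsUnit (fderiv ℝ Ξ ξ : (V × ℝ) →ₗ[ℝ] (V × ℝ)) :=
          (LinearMap.isUnit_iff_ker_eq_bot _).2 h7
        exact (LinearMap.isUnit_det _ h8).ne_zero hdet
      · show (Ξ ((e p).symm (P p ξ, 0))).1 = w
        rw [h2, hξ]
    have hnt : Nontrivial (V × ℝ) := inferInstance
    obtain ⟨hfin, hodd⟩ := Vol.odd_preimage Ξ hΞ _ hΞb (w, 0) hwreg
    have heven : Even (Ξ ⁻¹' {(w, (0 : ℝ))}).ncard := by
      apply even_card_of_involution _ hfin g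
      · intro ξ hξ
        have hξ0 : Φ ξ = 0 := congrArg Prod.snd (show Ξ ξ = (w, 0) from hξ)
        show Ξ (g ξ) = (w, 0)
        rw [hinv ξ hξ0]; exact hξ
      · intro ξ hξ
        have hξ0 : Φ ξ = 0 := congrArg Prod.snd (show Ξ ξ = (w, 0) from hξ)
        exact hgg ξ hξ0
      · intro ξ hξ hfix
        have hξ0 : Φ ξ = 0 := congrArg Prod.snd (show Ξ ξ = (w, 0) from hξ)
        apply hA ξ hξ0
        obtain ⟨W, hWo, hξW, -, hWinj, -, -⟩ := Vol.exists_local Ξ hΞ ξ (hwreg ξ hξ) univ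
          isOpen_univ trivial
        obtain ⟨gh, hgh, hghe⟩ := hgsm ξ hξ0
        have h1 : gh ξ = ξ := by rw [hghe.self_of_nhds hξ0]; exact hfix
        have h2 : ∀ᶠ η in 𝓝 ξ, gh η ∈ W := by
          apply hgh.continuousAt.eventually
          rw [h1]
          exact hWo.mem_nhds hξW
        show ∀ᶠ η in 𝓝 ξ, Φ η = 0 → g η = η
        filter_upwards [h2, hghe, hWo.mem_nhds hξW] with η h3 h4 h5 h6
        rw [h4 h6] at h3
        exact hWinj h3 h5 (hinv η h6)
    exact (Nat.not_even_iff_odd.2 hodd) heven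

end Pool.Agent.H834R2
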