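import Pool.Agent.H834R2.Parity
import Pool.Agent.H834R2.Inv

/-! Periodic flows on the quotient are trivial. -/

set_option autoImplicit false

open Set Filter Topology
open scoped Topology ContDiff Real Manifold

namespace Pool.Agent.H834R2

noncomputable section

/-- a point of the hypersurface -/
def mkS (η : E5) (hη : Phi η = 0) : S := ⟨η, hη⟩

lemma mkS_val (η : E5) (hη : Phi η = 0) : (mkS η hη).1 = η := rfl

lemma mkS_self (a : S) (h : Phi a.1 = 0) : mkS a.1 h = a := rfl

/-- smooth flows of period one -/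
structure IsFlow (φ : ℝ → X → X) : Prop where
  smooth : ContMDiff (𝓘(ℝ, ℝ).prod (𝓡 4)) (𝓡 4) ∞ (fun z : ℝ × X => φ z.1 z.2)
  zero : ∀ x, φ 0 x = x
  add : ∀ s t x, φ (s + t) x = φ s (φ t x)
  one : ∀ x, φ 1 x = x

variable {φ : ℝ → X → X}

lemma IsFlow.cont (h : IsFlow φ) : Continuous (fun z : ℝ × X => φ z.1 z.2) := h.smooth.continuous

lemma IsFlow.smooth_at (h : IsFlow φ) (t : ℝ) : ContMDiff (𝓡 4) (𝓡 4) ∞ (φ t) :=
  h.smooth.comp (contMDiff_const.prodMk contMDiff_id)

/-- the homotopy on the hypersurface -/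
def Hmap (h : IsFlow φ) : C(unitInterval × S, X) :=
  ⟨fun z => φ z.1.1 (pr z.2), h.cont.comp
    ((continuous_subtype_val.comp continuous_fst).prodMk (continuous_pr.comp continuous_snd))⟩

lemma Hmap_zero (h : IsFlow φ) (a : S) : Hmap h (0, a) = pr ((ContinuousMap.id S) a) := h.zero _

/-- the lifted flow -/
def lift (h : IsFlow φ) : C(unitInterval × S, S) :=
  pr_cov.isCoveringMap.liftHomotopy (Hmap h) (ContinuousMap.id S) (Hmap_zero h)

lemma pr_lift (h : IsFlow φ) (t : unitInterval) (a : S) : pr (lift h (t, a)) = φ t.1 (pr a) :=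
  congrFun (pr_cov.isCoveringMap.liftHomotopy_lifts (Hmap h) (ContinuousMap.id S) (Hmap_zero h))
    (t, a)

lemma lift_zero (h : IsFlow φ) (a : S) : lift h (0, a) = a :=
  pr_cov.isCoveringMap.liftHomotopy_zero (Hmap h) (ContinuousMap.id S) (Hmap_zero h) a

lemma continuous_lift_left (h : IsFlow φ) (a : S) : Continuous (fun t => lift h (t, a)) :=
  (lift h).continuous.comp (continuous_id.prodMk continuous_const)

lemma continuous_lift_right (h : IsFlow φ) (t : unitInterval) : Continuous (fun a => lift h (t, a)) :=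
  (lift h).continuous.comp (continuous_const.prodMk continuous_id)

lemma lift_one (h : IsFlow φ) : ∃ v : Lat, ∀ a, lift h (1, a) = v • a := by
  let a0 : S := Classical.arbitrary S
  have h0 : pr (lift h (1, a0)) = pr a0 := by
    rw [pr_lift]; exact h.one _
  obtain ⟨g, hg⟩ := pr_cov.apply_eq_iff_mem_orbit.mp h0
  have hg' : g • a0 = lift h (1, a0) := hg
  refine ⟨g, fun a => ?_⟩
  have := pr_cov.isCoveringMap.eq_of_comp_eq (continuous_lift_right h 1)
    (continuous_const_smul g) (by
      funext b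
      show pr (lift h (1, b)) = pr (g • b)
      rw [pr_lift, pr_smul]
      exact h.one _) a0 hg'.symm
  exact congrFun this a

lemma lift_smul (h : IsFlow φ) (g : Lat) (a : S) (t : unitInterval) :
    lift h (t, g • a) = g • lift h (t, a) := by
  have := pr_cov.isCoveringMap.eq_of_comp_eq (continuous_lift_left h (g • a))
    ((continuous_const_smul g).comp (continuous_lift_left h a)) (by
      funext s
      show pr (lift h (s, g • a)) = pr (g • lift h (s, a))
      rw [pr_smul, pr_lift, pr_lift, pr_smul]) 0 (by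
      show lift h (0, g • a) = g • lift h (0, a)
      rw [lift_zero, lift_zero])
  exact congrFun this t

/-- `1/2` -/
def hf : unitInterval := ⟨1 / 2, by norm_num, by norm_num⟩

lemma lift_half (h : IsFlow φ) (a : S) : lift h (hf, lift h (hf, a)) = lift h (1, a) := by
  let A : unitInterval → unitInterval := fun t =>
    ⟨t.1 / 2, by have := t.2.1; constructor <;> linarith [t.2.1, t.2.2]⟩
  let B : unitInterval → unitInterval := fun t =>
    ⟨t.1 / 2 + 1 / 2, by constructor <;> linarith [t.2.1, t.2.2]⟩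
  have hA : Continuous A := by
    apply Continuous.subtype_mk
    exact continuous_subtype_val.div_const 2
  have hB : Continuous B := by
    apply Continuous.subtype_mk
    exact (continuous_subtype_val.div_const 2).add continuous_const
  have hA0 : A 0 = 0 := by
    apply Subtype.ext
    show (0 : ℝ) / 2 = 0
    norm_num
  have hA1 : A 1 = hf := by
    apply Subtype.ext
    show (1 : ℝ) / 2 = 1 / 2
    norm_num
  have hB0 : B 0 = hf := by
    apply Subtype.ext
    show (0 : ℝ) / 2 + 1 / 2 = 1 / 2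
    norm_num
  have hB1 : B 1 = 1 := by
    apply Subtype.ext
    show (1 : ℝ) / 2 + 1 / 2 = 1
    norm_num
  have := pr_cov.isCoveringMap.eq_of_comp_eq
    ((continuous_lift_left h (lift h (hf, a))).comp hA) ((continuous_lift_left h a).comp hB) (by
      funext s
      show pr (lift h (A s, lift h (hf, a))) = pr (lift h (B s, a))
      rw [pr_lift, pr_lift, pr_lift]
      exact (h.add _ _ _).symm) 0 (by
      show lift h (A 0, lift h (hf, a)) = lift h (B 0, a)
      rw [hA0, hB0, lift_zero])
  have h1 := congrFun this 1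
  simp only [Function.comp_apply] at h1
  rw [hA1, hB1] at h1
  exact h1

/-- bounded displacement -/
lemma lift_bounded (h : IsFlow φ) (t : unitInterval) :
    ∃ D : ℝ, 0 ≤ D ∧ ∀ a : S, ‖(lift h (t, a)).1 - a.1‖ ≤ D := by
  have hc : Continuous (fun a : S => ‖(lift h (t, a)).1 - a.1‖) :=
    ((continuous_subtype_val.comp (continuous_lift_right h t)).sub continuous_subtype_val).norm
  obtain ⟨D, hD⟩ := (isCompact_KS.image hc).isBounded.exists_norm_le
  refine ⟨max D 0, le_max_right _ _, fun a => ?_⟩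
  obtain ⟨g, hg⟩ := exists_smul_mem_KS a
  have h1 := hD _ ⟨g • a, hg, rfl⟩
  beta_reduce at h1
  rw [lift_smul, smul_val, smul_val, norm_norm] at h1
  have h2 : (lift h (t, a)).1 + lam g.toAdd - (a.1 + lam g.toAdd) = (lift h (t, a)).1 - a.1 := by
    abel
  rw [h2] at h1
  exact h1.trans (le_max_left _ _)

/-- local smoothness of the lifted flow -/
lemma lift_smooth (h : IsFlow φ) (t : unitInterval) (a : S) :
    ∃ gh : E5 → E5, ContDiffAt ℝ 1 gh a.1 ∧ ∀ᶠ η in 𝓝 a.1, ∀ hη : Phi η = 0,
      gh η = (lift h (t, (mkS η hη))).1 := by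
  set τ := lift h (t, a) with hτ
  -- the retraction
  have hmem : a ∈ (cc a).source := mem_cc_source a
  have htar : PP a a.1 ∈ (cc a).target := (cc a).map_source hmem
  have hinv : (cc a).symm (PP a a.1) = a := (cc a).left_inv hmem
  refine ⟨fun η => (li τ (φ t.1 (pr ((cc a).symm (PP a η))))).1, ?_, ?_⟩
  · have h1 : ContMDiffAt 𝓘(ℝ, E5) 𝓘(ℝ, E5) ∞ (fun η => ((cc a).symm (PP a η)).1) a.1 := by
      have h2 : ContDiffAt ℝ ∞ (fun η => ((cc a).symm (PP a η)).1) a.1 :=
        (contDiffAt_param a htar).comp a.1 (PP a).contDiff.contDiffAt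
      exact h2.contMDiffAt
    have h2 := contMDiffAt_pr h1
    have h3 : ContMDiffAt 𝓘(ℝ, E5) (𝓡 4) ∞ (fun η => φ t.1 (pr ((cc a).symm (PP a η)))) a.1 :=
      ((h.smooth_at t.1).contMDiffAt (x := pr ((cc a).symm (PP a a.1)))).comp a.1 h2
    have h4 : φ t.1 (pr ((cc a).symm (PP a a.1))) ∈ (li τ).source := by
      rw [hinv, ← pr_lift h]
      exact li_mem τ
    have h5 := (contMDiffAt_li τ h4).comp a.1 h3
    have h6 : ContDiffAt ℝ ∞ (fun η => (li τ (φ t.1 (pr ((cc a).symm (PP a η))))).1) a.1 :=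
      h5.contDiffAt
    exact h6.of_le (by simp)
  · -- agreement
    have hU : IsOpen {b : S | b ∈ (cc a).source ∧ lift h (t, b) ∈ (li τ).target} :=
      (cc a).open_source.inter ((li τ).open_target.preimage (continuous_lift_right h t))
    have haU : a ∈ {b : S | b ∈ (cc a).source ∧ lift h (t, b) ∈ (li τ).target} := by
      refine ⟨hmem, ?_⟩
      have h1 := (li τ).map_source (li_mem τ)
      rw [li_pr_self] at h1
      exact h1
    have h1 : {b : S | b ∈ (cc a).source ∧ lift h (t, b) ∈ (li τ).target} ∈ 𝓝 a :=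
      hU.mem_nhds haU
    rw [nhds_subtype_eq_comap, mem_comap] at h1
    obtain ⟨W, hW, hWs⟩ := h1
    filter_upwards [hW] with η hηW hη
    have h2 := hWs (show (mkS η hη : S) ∈ Subtype.val ⁻¹' W from hηW)
    have h3 : (cc a).symm (PP a η) = (mkS η hη) := (cc a).left_inv h2.1
    have h4 : li τ (pr (lift h (t, (mkS η hη)))) = lift h (t, (mkS η hη)) := by
      have := (li τ).right_inv h2.2
      rwa [li_symm] at this
    show (li τ (φ t.1 (pr ((cc a).symm (PP a η))))).1 = _
    rw [h3, ← pr_lift h, h4]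

/-- The half period map is trivial. -/
theorem half_trivial (h : IsFlow φ) (x : X) : φ (1 / 2) x = x := by
  classical
  obtain ⟨v, hv⟩ := lift_one h
  obtain ⟨w, hw⟩ := parity (lift h) (lift_zero h) v hv
  let g : E5 → E5 := fun ξ => if hξ : Phi ξ = 0 then (w⁻¹ • lift h (hf, (mkS ξ hξ))).1 else ξ
  have hg : ∀ a : S, g a.1 = (w⁻¹ • lift h (hf, a)).1 := by
    intro a
    have ha : Phi a.1 = 0 := a.2
    simp only [g]
    rw [dif_pos ha, mkS_self]
  obtain ⟨D, hD0, hD⟩ := lift_bounded h hf
  have key := involution_trivial contDiff_Phi _ Phi_bound regular isPathConnected_S.isConnected.isPreconnected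
    g (by
      intro ξ hξ
      have := hg (mkS ξ hξ)
      rw [mkS_val] at this
      rw [this]
      exact (w⁻¹ • lift h (hf, (mkS ξ hξ))).2) (by
      intro ξ hξ
      have h1 := hg (mkS ξ hξ)
      rw [mkS_val] at h1
      rw [h1, hg, lift_smul, smul_smul, lift_half, hv, hw, smul_smul]
      have : w⁻¹ * w⁻¹ * (w * w) = 1 := by group
      rw [this, one_smul, mkS_val]) (by
      intro ξ hξ
      obtain ⟨gh, hgh1, hgh2⟩ := lift_smooth h hf (mkS ξ hξ)
      refine ⟨fun η => gh η + lam (w⁻¹).toAdd, hgh1.add contDiffAt_const, ?_⟩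
      filter_upwards [hgh2] with η h1 h2
      have h3 := hg (mkS η h2)
      rw [mkS_val] at h3
      rw [h3, h1 h2, smul_val]) (D + ‖lam (w⁻¹).toAdd‖) (by positivity) (by
      intro ξ hξ
      have h1 := hg (mkS ξ hξ)
      rw [mkS_val] at h1
      rw [h1, smul_val]
      have h2 := hD (mkS ξ hξ)
      have h3 : ((lift h (hf, (mkS ξ hξ))).1 + lam (w⁻¹).toAdd).1 - ξ.1 =
          ((lift h (hf, (mkS ξ hξ))).1 - ξ).1 + (lam (w⁻¹).toAdd).1 := by
        show (lift h (hf, (mkS ξ hξ))).1.1 + (lam (w⁻¹).toAdd).1 - ξ.1 =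
          ((lift h (hf, (mkS ξ hξ))).1.1 - ξ.1) + (lam (w⁻¹).toAdd).1
        abel
      rw [h3]
      calc _ ≤ ‖((lift h (hf, (mkS ξ hξ))).1 - ξ).1‖ + ‖(lam (w⁻¹).toAdd).1‖ := norm_add_le _ _
        _ ≤ _ := add_le_add ((norm_fst_le _).trans h2) (norm_fst_le _))
  obtain ⟨a, rfl⟩ := pr_cov.surjective x
  have h1 := key a.1 a.2
  rw [hg] at h1
  have h2 : w⁻¹ • lift h (hf, a) = a := Subtype.ext h1
  have h3 : lift h (hf, a) = w • a := by
    rw [← h2, smul_smul, mul_inv_cancel, one_smul, h2]
  have h4 := pr_lift h hf a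
  rw [h3, pr_smul] at h4
  exact h4.symm

/-- reparametrised flow -/
lemma IsFlow.half (h : IsFlow φ) : IsFlow (fun t => φ (t / 2)) where
  smooth := by
    have h1 : ContMDiff (𝓘(ℝ, ℝ).prod (𝓡 4)) (𝓘(ℝ, ℝ).prod (𝓡 4)) ∞
        (fun z : ℝ × X => ((z.1 / 2 : ℝ), z.2)) := by
      apply ContMDiff.prodMk _ contMDiff_snd
      have h2 : ContDiff ℝ ∞ (fun t : ℝ => t / 2) := contDiff_id.div_const 2
      exact h2.contMDiff.comp contMDiff_fst
    exact h.smooth.comp h1
  zero x := by
    show φ (0 / 2) x = x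
    rw [zero_div]; exact h.zero x
  add s t x := by
    show φ ((s + t) / 2) x = φ (s / 2) (φ (t / 2) x)
    rw [add_div]; exact h.add _ _ _
  one x := half_trivial h x

lemma dyadic_trivial (n : ℕ) : ∀ {φ : ℝ → X → X} (_ : IsFlow φ) (x : X), φ (1 / 2 ^ n) x = x := by
  induction n with
  | zero =>
    intro φ h x
    have : (1 : ℝ) / 2 ^ 0 = 1 := by norm_num
    rw [this]; exact h.one x
  | succ n ih =>
    intro φ h x
    have h1 := ih h.half x
    have : (1 : ℝ) / 2 ^ (n + 1) = 1 / 2 ^ n / 2 := by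
      rw [pow_succ]; field_simp
    rw [this]; exact h1

theorem flow_trivial (h : IsFlow φ) (t : ℝ) (x : X) : φ t x = x := by
  let Z : AddSubgroup ℝ :=
    { carrier := {t | φ t x = x}
      zero_mem' := h.zero x
      add_mem' := by
        intro s t hs ht
        show φ (s + t) x = x
        have hs' : φ s x = x := hs
        have ht' : φ t x = x := ht
        rw [h.add, ht', hs']
      neg_mem' := by
        intro s hs
        show φ (-s) x = x
        have hs' : φ s x = x := hs
        have h1 := h.add (-s) s x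
        rw [neg_add_cancel, h.zero, hs'] at h1
        exact h1.symm }
  have hd : Dense (Z : Set ℝ) := by
    apply AddSubgroup.dense_of_not_isolated_zero
    intro ε hε
    obtain ⟨n, hn⟩ := exists_pow_lt_of_lt_one hε (by norm_num : (1 / 2 : ℝ) < 1)
    refine ⟨1 / 2 ^ n, dyadic_trivial n h x, by positivity, ?_⟩
    rw [one_div_pow] at hn
    exact hn
  have hcl : IsClosed (Z : Set ℝ) := by
    have hc : Continuous (fun t : ℝ => φ t x) :=
      h.cont.comp (continuous_id.prodMk continuous_const)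
    exact isClosed_eq hc continuous_const
  have h1 : (t : ℝ) ∈ closure (Z : Set ℝ) := hd t
  rw [hcl.closure_eq] at h1
  exact h1

end

end Pool.Agent.H834R2
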