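import Pool.Agent.H834R2.Wind

/-! The loop through the arch. -/

set_option autoImplicit false

open Set Filter Topology
open scoped Topology ContDiff Real

namespace Pool.Agent.H834R2

noncomputable section

/-- the set of points of the hypersurface on a parametrised curve -/
def curve (a b : ℝ) (q p y : ℝ → ℝ) : Set S :=
  {σ | ∃ t ∈ Icc a b, σ.1 = pt 0 (q t) (p t) 0 0 (y t)}

lemma curve_preconn {a b : ℝ} {q p y : ℝ → ℝ} (hq : ContinuousOn q (Icc a b))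
    (hp' : ContinuousOn p (Icc a b)) (hy : ContinuousOn y (Icc a b))
    (hb : ∀ t ∈ Icc a b, q t ^ 2 + p t ^ 2 + 0 ^ 2 ≤ 4)
    (hF : ∀ t ∈ Icc a b, Fq (q t) (p t) 0 (y t) = 0) : IsPreconnected (curve a b q p y) := by
  rw [← Topology.IsInducing.subtypeVal.isPreconnected_image]
  have : (Subtype.val '' curve a b q p y : Set E5) =
      (fun t => pt 0 (q t) (p t) 0 0 (y t)) '' Icc a b := by
    ext ξ
    constructor
    · rintro ⟨σ, ⟨t, ht, hσ⟩, rfl⟩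
      exact ⟨t, ht, hσ.symm⟩
    · rintro ⟨t, ht, rfl⟩
      refine ⟨⟨pt 0 (q t) (p t) 0 0 (y t), ?_⟩, ⟨t, ht, rfl⟩, rfl⟩
      show Phi _ = 0
      rw [Phi_pt 0 (by linarith [hb t ht])]
      exact hF t ht
  rw [this]
  apply isPreconnected_Icc.image
  exact continuousOn_pt 0 0 hq hp' continuousOn_const hy

/-- height where the arch is cut by `y = 1` -/
lemma exists_T1 : ∃ T1 : ℝ, 1 / 8 < T1 ∧ T1 < 1 / 4 ∧ hp T1 = 1 / 4 := by
  have h1 : hp (1 / 8) ≤ 0 := hp_nonpos le_rfl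
  have h2 : hp (1 / 4) = 1 := hp_eq_one le_rfl
  have h3 : (1 / 4 : ℝ) ∈ hp '' Icc (1 / 8) (1 / 4) := by
    apply intermediate_value_Icc (by norm_num) continuous_hp.continuousOn
    rw [h2]
    constructor <;> linarith
  obtain ⟨T, hT, hT2⟩ := h3
  refine ⟨T, lt_of_le_of_ne hT.1 ?_, lt_of_le_of_ne hT.2 ?_, hT2⟩
  · rintro rfl; linarith
  · rintro rfl; linarith

theorem no_log (M : S → ℝ) (hM : Continuous M) (h : ∀ σ : S, usq 0 σ.1 ≤ 4 →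
    ∃ r : ℝ, 0 < r ∧ zr σ.1 ^ 2 - zi σ.1 ^ 2 = r * Real.cos (M σ) ∧
      2 * zr σ.1 * zi σ.1 = r * Real.sin (M σ)) : False := by
  obtain ⟨T1, hT1, hT1', hT⟩ := exists_T1
  have hT0 : 0 < T1 := by linarith
  set w := Real.sqrt T1 with hw
  have hw0 : 0 < w := Real.sqrt_pos.2 hT0
  have hww : w ^ 2 = T1 := Real.sq_sqrt hT0.le
  have hw1 : w < 1 / 2 := by nlinarith
  set q1 := Real.sqrt w with hq1
  have hq0 : 0 < q1 := Real.sqrt_pos.2 hw0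
  have hqq : q1 ^ 2 = w := Real.sq_sqrt hw0.le
  -- the profile of the outer curve
  set Y : ℝ → ℝ := fun T => 1 / (4 * hp T) with hY
  have hhp : ∀ T ∈ Icc T1 (1 / 4), 1 / 4 ≤ hp T := fun T hT' => by rw [← hT]; exact hp_mono hT'.1
  have hYc : ContinuousOn Y (Icc T1 (1 / 4)) := by
    apply ContinuousOn.div continuousOn_const
    · exact (continuous_const.mul continuous_hp).continuousOn
    · intro t ht
      have := hhp t ht
      positivity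
  have hYh : ∀ T ∈ Icc T1 (1 / 4), Y T * hp T = 1 / 4 := by
    intro T hT'
    have : hp T ≠ 0 := by have := hhp T hT'; positivity
    simp only [hY]
    field_simp
  have hYle : ∀ T ∈ Icc T1 (1 / 4), Y T ≤ 1 := by
    intro T hT'
    have h1 := hYh T hT'
    have h2 := hhp T hT'
    by_contra hcon
    push Not at hcon
    nlinarith
  have hYge : ∀ T ∈ Icc T1 (1 / 4), 1 / 4 ≤ Y T := by
    intro T hT'
    have h1 := hYh T hT'
    have h2 := hhp T hT'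
    have h3 := hp_le_one T
    by_contra hcon
    push Not at hcon
    nlinarith
  have hY1 : Y T1 = 1 := by
    simp only [hY]; rw [hT]; norm_num
  have hY2 : Y (1 / 4) = 1 / 4 := by
    simp only [hY]; rw [hp_eq_one le_rfl]; norm_num
  set Q : ℝ → ℝ := fun T => Real.sqrt (1 + Real.sqrt T - Y T) with hQ
  have hQc : ContinuousOn Q (Icc T1 (1 / 4)) :=
    ((continuousOn_const.add Real.continuous_sqrt.continuousOn).sub hYc).sqrt
  have hsq : ∀ T ∈ Icc T1 (1 / 4), 0 < Real.sqrt T ∧ Real.sqrt T ^ 2 = T ∧ Real.sqrt T ≤ 1 / 2 := by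
    intro T hT'
    have h0 : 0 < T := lt_of_lt_of_le hT0 hT'.1
    refine ⟨Real.sqrt_pos.2 h0, Real.sq_sqrt h0.le, ?_⟩
    have h1 := Real.sq_sqrt h0.le
    have h2 := Real.sqrt_nonneg T
    have h3 := hT'.2
    nlinarith
  have hQpos : ∀ T ∈ Icc T1 (1 / 4), 0 < Q T := by
    intro T hT'
    have h1 := (hsq T hT').1
    have h2 := hYle T hT'
    exact Real.sqrt_pos.2 (by linarith)
  have hQsq : ∀ T ∈ Icc T1 (1 / 4), Q T ^ 2 = 1 + Real.sqrt T - Y T := by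
    intro T hT'
    have h1 := (hsq T hT').1
    have h2 := hYle T hT'
    exact Real.sq_sqrt (by linarith)
  have hQ1 : Q T1 = q1 := by
    simp only [hQ]; rw [hY1, ← hw, hq1]; congr 1; ring
  set q2 := Q (1 / 4) with hq2
  have hq2pos : 0 < q2 := hQpos _ ⟨hT1'.le, le_rfl⟩
  have hq2sq : q2 ^ 2 = 5 / 4 := by
    have := hQsq (1 / 4) ⟨hT1'.le, le_rfl⟩
    rw [hY2] at this
    have h2 : Real.sqrt (1 / 4) = 1 / 2 := by
      rw [show (1 / 4 : ℝ) = (1 / 2) ^ 2 by norm_num, Real.sqrt_sq (by norm_num)]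
    rw [h2] at this
    rw [hq2, this]; norm_num
  -- bounds for the side curves
  have hQb : ∀ T ∈ Icc T1 (1 / 4), Q T ^ 2 ≤ 4 := by
    intro T hT'
    rw [hQsq T hT']
    have := (hsq T hT').2.2
    have := hYge T hT'
    linarith
  have hFside : ∀ T ∈ Icc T1 (1 / 4), ∀ q : ℝ, q ^ 2 = Q T ^ 2 → Fq q 0 0 (Y T) = 0 := by
    intro T hT' q hq
    have h1 : Tq q 0 0 (Y T) = T := by
      unfold Tq
      rw [psi_of_ge (by linarith [hYge T hT']), hq, hQsq T hT']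
      have := (hsq T hT').2.1
      nlinarith
    unfold Fq
    rw [h1, hYh T hT', sub_self]
  -- the four sets
  let K1 : Set S := curve (-q1) q1 (fun t => t) (fun t => Real.sqrt (T1 - t ^ 4)) (fun _ => 1)
  let K2 : Set S := curve T1 (1 / 4) (fun T => -Q T) (fun _ => 0) Y
  let K3 : Set S := curve 0 π (fun θ => -(q2 * Real.cos θ)) (fun θ => 3 / 2 * Real.sin θ)
    (fun _ => 1 / 4)
  let K4 : Set S := curve T1 (1 / 4) Q (fun _ => 0) Y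
  -- K1
  have b1 : ∀ t ∈ Icc (-q1) q1, t ^ 2 ≤ w ∧ 0 ≤ T1 - t ^ 4 ∧ Real.sqrt (T1 - t ^ 4) ^ 2 = T1 - t ^ 4 := by
    intro t ht
    have h1 : t ^ 2 ≤ w := by rw [← hqq]; nlinarith [ht.1, ht.2]
    have h2 : t ^ 4 ≤ w ^ 2 := by
      have : t ^ 4 = (t ^ 2) ^ 2 := by ring
      rw [this]
      nlinarith [sq_nonneg t]
    have h3 : 0 ≤ T1 - t ^ 4 := by rw [← hww]; linarith
    exact ⟨h1, h3, Real.sq_sqrt h3⟩
  have bb1 : ∀ t ∈ Icc (-q1) q1, t ^ 2 + Real.sqrt (T1 - t ^ 4) ^ 2 + 0 ^ 2 ≤ 4 := by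
    intro t ht
    obtain ⟨h1, h2, h3⟩ := b1 t ht
    rw [h3]
    nlinarith [sq_nonneg (t ^ 2)]
  have F1 : ∀ t ∈ Icc (-q1) q1, Fq t (Real.sqrt (T1 - t ^ 4)) 0 1 = 0 := by
    intro t ht
    obtain ⟨h1, h2, h3⟩ := b1 t ht
    have h4 : Tq t (Real.sqrt (T1 - t ^ 4)) 0 1 = T1 := by
      unfold Tq
      rw [h3, psi_of_ge (by norm_num)]
      ring
    unfold Fq
    rw [h4, hT]; norm_num
  have c1 : IsPreconnected K1 := curve_preconn (by fun_prop) (by fun_prop) (by fun_prop) bb1 F1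
  -- K2, K4
  have bb4 : ∀ t ∈ Icc T1 (1 / 4), Q t ^ 2 + (0 : ℝ) ^ 2 + 0 ^ 2 ≤ 4 := by
    intro t ht
    have := hQb t ht
    linarith
  have bb2 : ∀ t ∈ Icc T1 (1 / 4), (-Q t) ^ 2 + (0 : ℝ) ^ 2 + 0 ^ 2 ≤ 4 := by
    intro t ht
    have := hQb t ht
    rw [neg_sq]
    linarith
  have c4 : IsPreconnected K4 := curve_preconn hQc continuousOn_const hYc bb4
    (fun t ht => hFside t ht _ rfl)
  have c2 : IsPreconnected K2 := curve_preconn hQc.neg continuousOn_const hYc bb2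
    (fun t ht => hFside t ht _ (neg_sq _))
  -- K3
  have bb3 : ∀ t ∈ Icc (0 : ℝ) π, (-(q2 * Real.cos t)) ^ 2 + (3 / 2 * Real.sin t) ^ 2 + 0 ^ 2 ≤ 4 := by
    intro t _
    have h1 := Real.sin_sq_add_cos_sq t
    have h2 : (-(q2 * Real.cos t)) ^ 2 = 5 / 4 * Real.cos t ^ 2 := by
      rw [neg_sq, mul_pow, hq2sq]
    rw [h2]
    nlinarith [sq_nonneg (Real.sin t), sq_nonneg (Real.cos t)]
  have F3 : ∀ t ∈ Icc (0 : ℝ) π, Fq (-(q2 * Real.cos t)) (3 / 2 * Real.sin t) 0 (1 / 4) = 0 := by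
    intro t _
    have h1 := Real.sin_sq_add_cos_sq t
    have h2 : (-(q2 * Real.cos t)) ^ 2 = 5 / 4 * Real.cos t ^ 2 := by
      rw [neg_sq, mul_pow, hq2sq]
    have h3 : 1 / 4 ≤ Tq (-(q2 * Real.cos t)) (3 / 2 * Real.sin t) 0 (1 / 4) := by
      unfold Tq
      rw [h2]
      have h4 := psi_nonneg (1 / 4)
      have h5 : (3 / 2 * Real.sin t) ^ 2 = 9 / 4 * (1 - Real.cos t ^ 2) := by
        rw [← h1]; ring
      rw [h5]
      have h6 : 0 ≤ Real.cos t ^ 2 := sq_nonneg _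
      have h7 : Real.cos t ^ 2 ≤ 1 := by nlinarith [sq_nonneg (Real.sin t)]
      nlinarith
    unfold Fq
    rw [hp_eq_one h3]; norm_num
  have c3 : IsPreconnected K3 := curve_preconn (by fun_prop) (by fun_prop) (by fun_prop) bb3 F3
  -- corner points
  have mS : ∀ q p y : ℝ, q ^ 2 + p ^ 2 + 0 ^ 2 ≤ 4 → Fq q p 0 y = 0 → Phi (pt 0 q p 0 0 y) = 0 := by
    intro q p y h1 h2
    rw [Phi_pt 0 (by linarith)]; exact h2
  have t1mem : T1 ∈ Icc T1 (1 / 4) := ⟨le_rfl, hT1'.le⟩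
  have t4mem : (1 / 4 : ℝ) ∈ Icc T1 (1 / 4) := ⟨hT1'.le, le_rfl⟩
  let σ0 : S := ⟨pt 0 (Q T1) 0 0 0 (Y T1), mS _ _ _ (bb4 T1 t1mem) (hFside T1 t1mem _ rfl)⟩
  let σ1 : S := ⟨pt 0 (-Q T1) 0 0 0 (Y T1), mS _ _ _ (bb2 T1 t1mem) (hFside T1 t1mem _ (neg_sq _))⟩
  let σ2 : S := ⟨pt 0 (-Q (1 / 4)) 0 0 0 (Y (1 / 4)),
    mS _ _ _ (bb2 _ t4mem) (hFside _ t4mem _ (neg_sq _))⟩
  let σ3 : S := ⟨pt 0 (Q (1 / 4)) 0 0 0 (Y (1 / 4)), mS _ _ _ (bb4 _ t4mem) (hFside _ t4mem _ rfl)⟩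
  have hsq1 : T1 - q1 ^ 4 = 0 := by
    have : q1 ^ 4 = (q1 ^ 2) ^ 2 := by ring
    rw [this, hqq, hww, sub_self]
  have m41 : σ0 ∈ K4 := ⟨T1, t1mem, rfl⟩
  have m11 : σ0 ∈ K1 := by
    refine ⟨q1, ⟨by linarith, le_rfl⟩, ?_⟩
    show pt 0 (Q T1) 0 0 0 (Y T1) = pt 0 q1 (Real.sqrt (T1 - q1 ^ 4)) 0 0 1
    rw [hsq1, Real.sqrt_zero, hQ1, hY1]
  have m12 : σ1 ∈ K1 := by
    refine ⟨-q1, ⟨le_rfl, by linarith⟩, ?_⟩
    show pt 0 (-Q T1) 0 0 0 (Y T1) = pt 0 (-q1) (Real.sqrt (T1 - (-q1) ^ 4)) 0 0 1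
    have : (-q1) ^ 4 = q1 ^ 4 := by ring
    rw [this, hsq1, Real.sqrt_zero, hQ1, hY1]
  have m22 : σ1 ∈ K2 := ⟨T1, t1mem, rfl⟩
  have m23 : σ2 ∈ K2 := ⟨1 / 4, t4mem, rfl⟩
  have m33 : σ2 ∈ K3 := by
    refine ⟨0, ⟨le_rfl, Real.pi_pos.le⟩, ?_⟩
    show pt 0 (-Q (1 / 4)) 0 0 0 (Y (1 / 4)) =
      pt 0 (-(q2 * Real.cos 0)) (3 / 2 * Real.sin 0) 0 0 (1 / 4)
    rw [Real.cos_zero, Real.sin_zero, hY2, mul_one, mul_zero]
  have m34 : σ3 ∈ K3 := by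
    refine ⟨π, ⟨Real.pi_pos.le, le_rfl⟩, ?_⟩
    show pt 0 (Q (1 / 4)) 0 0 0 (Y (1 / 4)) =
      pt 0 (-(q2 * Real.cos π)) (3 / 2 * Real.sin π) 0 0 (1 / 4)
    rw [Real.cos_pi, Real.sin_pi, hY2, mul_neg, neg_neg, mul_one, mul_zero]
  have m44 : σ3 ∈ K4 := ⟨1 / 4, t4mem, rfl⟩
  -- values
  have v : ∀ {q p y : ℝ} {σ : S}, q ^ 2 + p ^ 2 + 0 ^ 2 ≤ 4 → σ.1 = pt 0 q p 0 0 y →
      usq 0 σ.1 ≤ 4 ∧ zr σ.1 = q ∧ zi σ.1 = y - 3 / 8 := by
    intro q p y σ h1 h2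
    rw [h2]
    exact ⟨by rw [usq_pt]; exact h1, zr_pt h1, zi_pt h1⟩
  apply winding hM (q := fun σ : S => zr σ.1) (h := fun σ : S => zi σ.1) c1 c2 c3 c4 _ _ _ _ _
    m41 m11 m12 m22 m23 m33 m34 m44
  · rintro σ (((hσ | hσ) | hσ) | hσ)
    · obtain ⟨t, ht, hσ⟩ := hσ
      exact h σ (v (bb1 t ht) hσ).1
    · obtain ⟨t, ht, hσ⟩ := hσ
      exact h σ (v (bb2 t ht) hσ).1
    · obtain ⟨t, ht, hσ⟩ := hσ
      exact h σ (v (bb3 t ht) hσ).1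
    · obtain ⟨t, ht, hσ⟩ := hσ
      exact h σ (v (bb4 t ht) hσ).1
  · rintro σ ⟨t, ht, hσ⟩
    show 0 < zi σ.1
    rw [(v (bb1 t ht) hσ).2.2]; norm_num
  · rintro σ ⟨t, ht, hσ⟩
    show zr σ.1 < 0
    rw [(v (bb2 t ht) hσ).2.1]
    linarith [hQpos t ht]
  · rintro σ ⟨t, ht, hσ⟩
    show zi σ.1 < 0
    rw [(v (bb3 t ht) hσ).2.2]; norm_num
  · rintro σ ⟨t, ht, hσ⟩
    show 0 < zr σ.1
    rw [(v (bb4 t ht) hσ).2.1]
    exact hQpos t ht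

end

end Pool.Agent.H834R2
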