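import Pool.Agent.H834R2.Quo
import Pool.Agent.H834R2.Chart

/-! The smooth structure on the quotient. -/

set_option autoImplicit false

open Set Filter Topology
open scoped Topology ContDiff Real Manifold

namespace Pool.Agent.H834R2

noncomputable section

/-- the projection in the chart at `σ` -/
def PP (σ : S) : E5 →L[ℝ] V4 := (exists_chart contDiff_Phi σ.1 (regular σ.1 σ.2)).choose

/-- the ambient chart at `σ` -/
def ee (σ : S) : OpenPartialHomeomorph E5 E5 :=
  (exists_chart contDiff_Phi σ.1 (regular σ.1 σ.2)).choose_spec.choose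

lemma ee_mem (σ : S) : σ.1 ∈ (ee σ).source :=
  (exists_chart contDiff_Phi σ.1 (regular σ.1 σ.2)).choose_spec.choose_spec.1

lemma ee_apply (σ : S) (ξ : E5) : ee σ ξ = (PP σ ξ, Phi ξ) :=
  (exists_chart contDiff_Phi σ.1 (regular σ.1 σ.2)).choose_spec.choose_spec.2.1 ξ

lemma ee_symm (σ : S) : ContDiffOn ℝ ∞ (ee σ).symm (ee σ).target :=
  (exists_chart contDiff_Phi σ.1 (regular σ.1 σ.2)).choose_spec.choose_spec.2.2.2

lemma ee_symm_mem (σ : S) {v : V4} (hv : (v, (0 : ℝ)) ∈ (ee σ).target) :
    Phi ((ee σ).symm (v, 0)) = 0 ∧ PP σ ((ee σ).symm (v, 0)) = v := by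
  have h1 := (ee σ).right_inv hv
  rw [ee_apply] at h1
  exact ⟨congrArg Prod.snd h1, congrArg Prod.fst h1⟩

lemma ee_of_S (σ τ : S) : ee σ τ.1 = (PP σ τ.1, 0) := by
  rw [ee_apply]
  have : Phi τ.1 = 0 := τ.2
  rw [this]

open Classical in
/-- the level chart -/
def cc (σ : S) : OpenPartialHomeomorph S V4 :=
  { toFun := fun τ => PP σ τ.1
    invFun := fun v => if h : (v, (0 : ℝ)) ∈ (ee σ).target then
      ⟨(ee σ).symm (v, 0), (ee_symm_mem σ h).1⟩ else σ
    source := {τ : S | τ.1 ∈ (ee σ).source}
    target := {v : V4 | (v, (0 : ℝ)) ∈ (ee σ).target}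
    map_source' := by
      intro τ hτ
      show (PP σ τ.1, (0 : ℝ)) ∈ (ee σ).target
      rw [← ee_of_S]
      exact (ee σ).map_source hτ
    map_target' := by
      intro v hv
      have hv' : (v, (0 : ℝ)) ∈ (ee σ).target := hv
      show (dite _ _ _ : S).1 ∈ (ee σ).source
      rw [dif_pos hv']
      exact (ee σ).map_target hv'
    left_inv' := by
      intro τ hτ
      have hv' : (PP σ τ.1, (0 : ℝ)) ∈ (ee σ).target := by
        rw [← ee_of_S]
        exact (ee σ).map_source hτ
      rw [dif_pos hv']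
      apply Subtype.ext
      show (ee σ).symm (PP σ τ.1, (0 : ℝ)) = τ.1
      rw [← ee_of_S]
      exact (ee σ).left_inv hτ
    right_inv' := by
      intro v hv
      have hv' : (v, (0 : ℝ)) ∈ (ee σ).target := hv
      rw [dif_pos hv']
      exact (ee_symm_mem σ hv').2
    open_source := (ee σ).open_source.preimage continuous_subtype_val
    open_target := (ee σ).open_target.preimage (continuous_id.prodMk continuous_const)
    continuousOn_toFun := ((PP σ).continuous.comp continuous_subtype_val).continuousOn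
    continuousOn_invFun := by
      rw [Topology.IsInducing.subtypeVal.continuousOn_iff]
      have h1 : ContinuousOn (fun v : V4 => (ee σ).symm (v, (0 : ℝ)))
          {v : V4 | (v, (0 : ℝ)) ∈ (ee σ).target} :=
        (ee σ).symm.continuousOn.comp (continuous_id.prodMk continuous_const).continuousOn
          (fun w hw => hw)
      refine h1.congr (fun v hv => ?_)
      have hv' : (v, (0 : ℝ)) ∈ (ee σ).target := hv
      simp only [Function.comp_apply]
      rw [dif_pos hv'] }

lemma cc_source (σ : S) : (cc σ).source = {τ : S | τ.1 ∈ (ee σ).source} := rfl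
lemma cc_target (σ : S) : (cc σ).target = {v : V4 | (v, (0 : ℝ)) ∈ (ee σ).target} := rfl
lemma cc_apply (σ τ : S) : cc σ τ = PP σ τ.1 := rfl
open Classical in
lemma cc_symm_def (σ : S) (v : V4) : (cc σ).symm v = if h : (v, (0 : ℝ)) ∈ (ee σ).target then
      ⟨(ee σ).symm (v, 0), (ee_symm_mem σ h).1⟩ else σ := rfl
lemma cc_symm (σ : S) {v : V4} (hv : v ∈ (cc σ).target) :
    ((cc σ).symm v).1 = (ee σ).symm (v, 0) := by
  have hv' : (v, (0 : ℝ)) ∈ (ee σ).target := hv
  rw [cc_symm_def, dif_pos hv']

lemma mem_cc_source (σ : S) : σ ∈ (cc σ).source := ee_mem σ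

/-- the projection is a local homeomorphism -/
lemma hl : IsLocalHomeomorph pr := pr_cov.isCoveringMap.isLocalHomeomorph

/-- local inverse of the projection -/
def li (σ : S) : OpenPartialHomeomorph X S := hl.localInverseAt σ

lemma li_mem (σ : S) : pr σ ∈ (li σ).source := hl.apply_self_mem_localInverseAt_source

lemma pr_li (σ : S) {x : X} (hx : x ∈ (li σ).source) : pr (li σ x) = x :=
  hl.apply_localInverseAt_of_mem hx

lemma li_pr_self (σ : S) : li σ (pr σ) = σ := hl.localInverseAt_apply_self

lemma li_symm (σ : S) : ((li σ).symm : S → X) = pr := hl.localInverseAt_symm σ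

lemma li_target_inj (σ : S) : InjOn pr (li σ).target := hl.injOn_localInverseAt_target

/-- local description of local inverses -/
lemma li_eq_smul (σ τ : S) (hv : pr τ ∈ (li σ).source) :
    ∃ g : Lat, ∀ᶠ u in 𝓝 τ, li σ (pr u) = g • u := by
  set w := li σ (pr τ) with hw
  have hqw : pr w = pr τ := pr_li σ hv
  obtain ⟨g, hg⟩ := pr_cov.apply_eq_iff_mem_orbit.mp hqw
  refine ⟨g, ?_⟩
  have hwt : w ∈ (li σ).target := (li σ).map_source hv
  have h1 : ∀ᶠ u in 𝓝 τ, g • u ∈ (li σ).target := by
    have hc : Continuous fun u : S => g • u := continuous_const_smul g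
    have : g • τ ∈ (li σ).target := by
      have : g • τ = w := hg
      rw [this]; exact hwt
    exact hc.continuousAt.preimage_mem_nhds ((li σ).open_target.mem_nhds this)
  have h2 : ∀ᶠ u in 𝓝 τ, pr u ∈ (li σ).source :=
    continuous_pr.continuousAt.preimage_mem_nhds ((li σ).open_source.mem_nhds hv)
  filter_upwards [h1, h2] with u hu1 hu2
  apply li_target_inj σ
  · exact (li σ).map_source hu2
  · exact hu1
  · rw [pr_li σ hu2]
    exact (pr_smul g u).symm

/-- the charts of the quotient -/
def kk (σ : S) : OpenPartialHomeomorph X V4 := (li σ).trans (cc σ)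

/-- a set theoretic section -/
def sec (x : X) : S := (pr_cov.surjective x).choose

lemma pr_sec (x : X) : pr (sec x) = x := (pr_cov.surjective x).choose_spec

lemma mem_kk_source (σ : S) : pr σ ∈ (kk σ).source := by
  rw [kk, OpenPartialHomeomorph.trans_source]
  refine ⟨li_mem σ, ?_⟩
  rw [mem_preimage, li_pr_self]
  exact mem_cc_source σ

instance : ChartedSpace V4 X where
  atlas := range kk
  chartAt x := kk (sec x)
  mem_chart_source x := by
    have := mem_kk_source (sec x)
    rwa [pr_sec] at this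
  chart_mem_atlas x := ⟨sec x, rfl⟩

lemma chartAt_eq (x : X) : chartAt V4 x = kk (sec x) := rfl

lemma kk_apply (σ : S) (x : X) : kk σ x = PP σ (li σ x).1 := rfl

lemma kk_target_sub (σ : S) {v : V4} (hv : v ∈ (kk σ).target) : v ∈ (cc σ).target := by
  rw [kk, OpenPartialHomeomorph.trans_target] at hv
  exact hv.1

lemma kk_symm_apply (σ : S) (v : V4) : (kk σ).symm v = pr ((cc σ).symm v) := by
  have : (kk σ).symm v = (li σ).symm ((cc σ).symm v) := rfl
  rw [this, li_symm]

/-- the local parametrisation of the hypersurface is smooth -/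
lemma contDiffAt_param (σ : S) {v : V4} (hv : v ∈ (cc σ).target) :
    ContDiffAt ℝ ∞ (fun w => ((cc σ).symm w).1) v := by
  have h1 : ContDiffOn ℝ ∞ (fun w : V4 => (ee σ).symm (w, 0)) (cc σ).target :=
    (ee_symm σ).comp (contDiff_id.prodMk contDiff_const).contDiffOn (fun w hw => hw)
  have h2 := h1.contDiffAt ((cc σ).open_target.mem_nhds hv)
  apply h2.congr_of_eventuallyEq
  filter_upwards [(cc σ).open_target.mem_nhds hv] with w hw
  exact cc_symm σ hw

/-- local inverses, read in the chart, are smooth -/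
lemma contDiffAt_li_param (σ τ : S) {v : V4} (hv : v ∈ (kk σ).target)
    (hτ : (kk σ).symm v ∈ (li τ).source) :
    ContDiffAt ℝ ∞ (fun w => (li τ ((kk σ).symm w)).1) v := by
  rw [kk_symm_apply] at hτ
  obtain ⟨g, hg⟩ := li_eq_smul τ _ hτ
  have hv' := kk_target_sub σ hv
  have hc : ContinuousAt (cc σ).symm v :=
    (cc σ).symm.continuousAt hv'
  have h1 := hc.eventually hg
  have h2 : ContDiffAt ℝ ∞ (fun w => ((cc σ).symm w).1 + lam g.toAdd) v :=
    (contDiffAt_param σ hv').add contDiffAt_const
  apply h2.congr_of_eventuallyEq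
  filter_upwards [h1] with w hw
  rw [kk_symm_apply, hw]
  rfl

instance : IsManifold (𝓡 4) ∞ X := by
  apply isManifold_of_contDiffOn
  rintro _ _ ⟨σ, rfl⟩ ⟨τ, rfl⟩
  intro v hv
  simp only [modelWithCornersSelf_coe, modelWithCornersSelf_coe_symm, preimage_id_eq, id_eq,
    range_id, inter_univ, OpenPartialHomeomorph.coe_trans, Function.comp_def] at hv ⊢
  rw [OpenPartialHomeomorph.trans_source] at hv
  have h1 : v ∈ (kk σ).target := hv.1
  have h2 : (kk σ).symm v ∈ (kk τ).source := hv.2
  rw [kk, OpenPartialHomeomorph.trans_source] at h2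
  have h3 := contDiffAt_li_param σ τ h1 h2.1
  have h4 : ContDiffAt ℝ ∞ (fun w => PP τ (li τ ((kk σ).symm w)).1) v :=
    (PP τ).contDiff.contDiffAt.comp v h3
  exact h4.contDiffWithinAt

/-- maps into the quotient -/
theorem contMDiffAt_pr {E H M : Type*} [NormedAddCommGroup E] [NormedSpace ℝ E]
    [TopologicalSpace H] {I : ModelWithCorners ℝ E H} [TopologicalSpace M] [ChartedSpace H M]
    {f : M → S} {z : M} (hf : ContMDiffAt I 𝓘(ℝ, E5) ∞ (fun w => (f w).1) z) :
    ContMDiffAt I (𝓡 4) ∞ (fun w => pr (f w)) z := by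
  have hfc : ContinuousAt f z := by
    rw [Topology.IsInducing.subtypeVal.continuousAt_iff]
    exact hf.continuousAt
  rw [contMDiffAt_iff_target]
  refine ⟨continuous_pr.continuousAt.comp hfc, ?_⟩
  set σ := sec (pr (f z)) with hσ
  have hmem : pr (f z) ∈ (li σ).source := by
    have := li_mem σ
    rwa [hσ, pr_sec] at this
  obtain ⟨g, hg⟩ := li_eq_smul σ (f z) hmem
  have h1 := hfc.eventually hg
  have h2 : ContMDiffAt I 𝓘(ℝ, V4) ∞ (fun w => PP σ ((f w).1 + lam g.toAdd)) z := by
    have h3 : ContDiff ℝ ∞ (fun ξ : E5 => PP σ (ξ + lam g.toAdd)) :=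
      (PP σ).contDiff.comp (contDiff_id.add contDiff_const)
    exact h3.contMDiff.contMDiffAt.comp z hf
  apply h2.congr_of_eventuallyEq
  filter_upwards [h1] with w hw
  show kk σ (pr (f w)) = _
  rw [kk_apply, hw]
  rfl

/-- local lifts are smooth -/
theorem contMDiffAt_li (τ : S) {x : X} (hx : x ∈ (li τ).source) :
    ContMDiffAt (𝓡 4) 𝓘(ℝ, E5) ∞ (fun w => (li τ w).1) x := by
  rw [contMDiffAt_iff]
  constructor
  · exact continuous_subtype_val.continuousAt.comp ((li τ).continuousAt hx)
  · have hmem := mem_chart_source V4 x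
    have h1 : kk (sec x) x ∈ (kk (sec x)).target := (kk (sec x)).map_source hmem
    have h2 : (kk (sec x)).symm (kk (sec x) x) = x := (kk (sec x)).left_inv hmem
    have h3 := contDiffAt_li_param (sec x) τ h1 (by rw [h2]; exact hx)
    exact h3.contDiffWithinAt

end

end Pool.Agent.H834R2
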