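import Pool.Agent.H834R2.Scal2

/-! The periodic hypersurface. -/

set_option autoImplicit false

open Set Filter Topology
open scoped Topology ContDiff Real

namespace Pool.Agent.H834R2

noncomputable section

/-- `ℝ⁴` with coordinates `(x₁, x₂, x₃, s)` -/
abbrev V4 : Type := EuclideanSpace ℝ (Fin 4)
/-- `ℝ⁵` with coordinates `(x₁, x₂, x₃, s, y)` -/
abbrev E5 : Type := V4 × ℝ

def rq (a b s : ℝ) : ℝ := a * Real.cos (π * s) + b * Real.sin (π * s)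
def rp (a b s : ℝ) : ℝ := -a * Real.sin (π * s) + b * Real.cos (π * s)

lemma rq_rp (a b s : ℝ) : rq a b s ^ 2 + rp a b s ^ 2 = a ^ 2 + b ^ 2 := by
  unfold rq rp
  have := Real.sin_sq_add_cos_sq (π * s)
  nlinarith [this]

/-- local equation centred at the lattice point `10 n` -/
def G (n : Fin 3 → ℤ) (ξ : E5) : ℝ :=
  Fq (rq (ξ.1 0 - 10 * n 0) (ξ.1 1 - 10 * n 1) (ξ.1 3))
    (rp (ξ.1 0 - 10 * n 0) (ξ.1 1 - 10 * n 1) (ξ.1 3)) (ξ.1 2 - 10 * n 2) ξ.2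

/-- the nearest lattice point -/
def cell (ξ : E5) : Fin 3 → ℤ := ![round (ξ.1 0 / 10), round (ξ.1 1 / 10), round (ξ.1 2 / 10)]

/-- the defining function of the hypersurface -/
def Phi (ξ : E5) : ℝ := G (cell ξ) ξ

/-- the hypersurface -/
def S : Set E5 := {ξ | Phi ξ = 0}

lemma G_far {n : Fin 3 → ℤ} {ξ : E5}
    (h : 4 ≤ (ξ.1 0 - 10 * n 0) ^ 2 + (ξ.1 1 - 10 * n 1) ^ 2 + (ξ.1 2 - 10 * n 2) ^ 2) :
    G n ξ = ξ.2 - 1 / 4 := by
  unfold G
  apply Fq_far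
  rw [rq_rp]
  exact h

lemma abs_sub_lattice {t : ℝ} {m n : ℤ} (hmn : m ≠ n) (h : |t - 10 * n| < 6) :
    4 ≤ |t - 10 * m| := by
  have h1 : (10 : ℝ) ≤ |10 * (m : ℝ) - 10 * n| := by
    rw [← mul_sub, abs_mul, abs_of_pos (by norm_num : (0 : ℝ) < 10)]
    have h2 : (1 : ℤ) ≤ |m - n| := Int.one_le_abs (sub_ne_zero.2 hmn)
    have h3 : (1 : ℝ) ≤ |(m : ℝ) - n| := by exact_mod_cast h2
    linarith
  have h2 : |10 * (m : ℝ) - 10 * n| ≤ |t - 10 * n| + |t - 10 * m| := by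
    have : 10 * (m : ℝ) - 10 * n = (t - 10 * n) - (t - 10 * m) := by ring
    rw [this]
    exact abs_sub _ _
  linarith

lemma round_cell (t : ℝ) : |t - 10 * round (t / 10)| ≤ 5 := by
  have h := abs_sub_round (t / 10)
  have h2 : t - 10 * round (t / 10) = 10 * (t / 10 - round (t / 10)) := by ring
  rw [h2, abs_mul, abs_of_pos (by norm_num : (0 : ℝ) < 10)]
  linarith

lemma round_eq_of_abs_lt {t : ℝ} {n : ℤ} (h : |t - 10 * n| < 5) : round (t / 10) = n := by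
  rw [round_eq, Int.floor_eq_iff]
  rw [abs_lt] at h
  constructor <;> linarith [h.1, h.2]

lemma five_le_of_ne {t : ℝ} {n : ℤ} (h : round (t / 10) ≠ n) : 5 ≤ |t - 10 * n| := by
  by_contra hcon
  push Not at hcon
  exact h (round_eq_of_abs_lt hcon)

lemma Phi_eq_G {n : Fin 3 → ℤ} {ξ : E5} (h0 : |ξ.1 0 - 10 * n 0| < 6)
    (h1 : |ξ.1 1 - 10 * n 1| < 6) (h2 : |ξ.1 2 - 10 * n 2| < 6) : Phi ξ = G n ξ := by
  have key : ∀ (t : ℝ) (n : ℤ), |t - 10 * n| < 6 → round (t / 10) ≠ n →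
      16 ≤ (t - 10 * round (t / 10)) ^ 2 ∧ 16 ≤ (t - 10 * n) ^ 2 := by
    intro t n h hne
    have h3 := abs_sub_lattice hne h
    have h4 := five_le_of_ne hne
    constructor
    · rw [← sq_abs]; nlinarith
    · rw [← sq_abs]; nlinarith
  by_cases hc : cell ξ = n
  · unfold Phi; rw [hc]
  · have hne : round (ξ.1 0 / 10) ≠ n 0 ∨ round (ξ.1 1 / 10) ≠ n 1 ∨ round (ξ.1 2 / 10) ≠ n 2 := by
      by_contra hcon
      push Not at hcon
      apply hc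
      funext i
      fin_cases i
      · exact hcon.1
      · exact hcon.2.1
      · exact hcon.2.2
    have hA : 4 ≤ (ξ.1 0 - 10 * n 0) ^ 2 + (ξ.1 1 - 10 * n 1) ^ 2 + (ξ.1 2 - 10 * n 2) ^ 2 ∧
        4 ≤ (ξ.1 0 - 10 * round (ξ.1 0 / 10)) ^ 2 + (ξ.1 1 - 10 * round (ξ.1 1 / 10)) ^ 2 +
          (ξ.1 2 - 10 * round (ξ.1 2 / 10)) ^ 2 := by
      rcases hne with h | h | h
      · have := key _ _ h0 h
        constructor
        · nlinarith [sq_nonneg (ξ.1 1 - 10 * n 1), sq_nonneg (ξ.1 2 - 10 * n 2)]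
        · nlinarith [sq_nonneg (ξ.1 1 - 10 * round (ξ.1 1 / 10)),
            sq_nonneg (ξ.1 2 - 10 * round (ξ.1 2 / 10))]
      · have := key _ _ h1 h
        constructor
        · nlinarith [sq_nonneg (ξ.1 0 - 10 * n 0), sq_nonneg (ξ.1 2 - 10 * n 2)]
        · nlinarith [sq_nonneg (ξ.1 0 - 10 * round (ξ.1 0 / 10)),
            sq_nonneg (ξ.1 2 - 10 * round (ξ.1 2 / 10))]
      · have := key _ _ h2 h
        constructor
        · nlinarith [sq_nonneg (ξ.1 0 - 10 * n 0), sq_nonneg (ξ.1 1 - 10 * n 1)]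
        · nlinarith [sq_nonneg (ξ.1 0 - 10 * round (ξ.1 0 / 10)),
            sq_nonneg (ξ.1 1 - 10 * round (ξ.1 1 / 10))]
    have e1 : G n ξ = ξ.2 - 1 / 4 := G_far hA.1
    have e2 : G (cell ξ) ξ = ξ.2 - 1 / 4 := G_far (by
      simpa [cell] using hA.2)
    unfold Phi
    rw [e1, e2]

lemma continuous_coord (i : Fin 4) : Continuous (fun ξ : E5 => ξ.1 i) :=
  (EuclideanSpace.proj (𝕜 := ℝ) i).continuous.comp continuous_fst

lemma contDiff_coord (i : Fin 4) : ContDiff ℝ ∞ (fun ξ : E5 => ξ.1 i) :=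
  (EuclideanSpace.proj (𝕜 := ℝ) i).contDiff.comp contDiff_fst

lemma contDiff_G (n : Fin 3 → ℤ) : ContDiff ℝ ∞ (G n) := by
  have ha : ContDiff ℝ ∞ (fun ξ : E5 => ξ.1 0 - 10 * (n 0 : ℝ)) := (contDiff_coord 0).sub contDiff_const
  have hb : ContDiff ℝ ∞ (fun ξ : E5 => ξ.1 1 - 10 * (n 1 : ℝ)) := (contDiff_coord 1).sub contDiff_const
  have hc : ContDiff ℝ ∞ (fun ξ : E5 => ξ.1 2 - 10 * (n 2 : ℝ)) := (contDiff_coord 2).sub contDiff_const
  have hcos : ContDiff ℝ ∞ (fun ξ : E5 => Real.cos (π * ξ.1 3)) :=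
    Real.contDiff_cos.comp (contDiff_const.mul (contDiff_coord 3))
  have hsin : ContDiff ℝ ∞ (fun ξ : E5 => Real.sin (π * ξ.1 3)) :=
    Real.contDiff_sin.comp (contDiff_const.mul (contDiff_coord 3))
  have hq : ContDiff ℝ ∞ (fun ξ : E5 => rq (ξ.1 0 - 10 * n 0) (ξ.1 1 - 10 * n 1) (ξ.1 3)) :=
    (ha.mul hcos).add (hb.mul hsin)
  have hp' : ContDiff ℝ ∞ (fun ξ : E5 => rp (ξ.1 0 - 10 * n 0) (ξ.1 1 - 10 * n 1) (ξ.1 3)) :=
    (ha.neg.mul hsin).add (hb.mul hcos)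
  have hT : ContDiff ℝ ∞ (fun ξ : E5 => Tq (rq (ξ.1 0 - 10 * n 0) (ξ.1 1 - 10 * n 1) (ξ.1 3))
      (rp (ξ.1 0 - 10 * n 0) (ξ.1 1 - 10 * n 1) (ξ.1 3)) (ξ.1 2 - 10 * n 2) ξ.2) := by
    unfold Tq
    exact ((((((hq.pow 2).add contDiff_snd).sub contDiff_const).pow 2).add (hp'.pow 2)).add
      (hc.pow 2)).add (contDiff_psi.comp contDiff_snd)
  unfold G Fq
  exact (contDiff_snd.mul (contDiff_hp.comp hT)).sub contDiff_const

lemma eventually_near (ξ : E5) (i : Fin 4) (c : ℝ) (h : |ξ.1 i - c| < 6) :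
    ∀ᶠ η in 𝓝 ξ, |(η : E5).1 i - c| < 6 := by
  have hc : Continuous (fun η : E5 => |η.1 i - c|) := ((continuous_coord i).sub continuous_const).abs
  exact hc.continuousAt.eventually_mem (isOpen_Iio.mem_nhds h)

lemma Phi_eventuallyEq_of {n : Fin 3 → ℤ} {ξ : E5} (h0 : |ξ.1 0 - 10 * n 0| < 6)
    (h1 : |ξ.1 1 - 10 * n 1| < 6) (h2 : |ξ.1 2 - 10 * n 2| < 6) : Phi =ᶠ[𝓝 ξ] G n := by
  filter_upwards [eventually_near ξ 0 _ h0, eventually_near ξ 1 _ h1, eventually_near ξ 2 _ h2]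
    with η a b c
  exact Phi_eq_G a b c

lemma cell_near (ξ : E5) : |ξ.1 0 - 10 * cell ξ 0| ≤ 5 ∧ |ξ.1 1 - 10 * cell ξ 1| ≤ 5 ∧
    |ξ.1 2 - 10 * cell ξ 2| ≤ 5 :=
  ⟨round_cell _, round_cell _, round_cell _⟩

lemma Phi_eventuallyEq (ξ : E5) : Phi =ᶠ[𝓝 ξ] G (cell ξ) := by
  obtain ⟨a, b, c⟩ := cell_near ξ
  exact Phi_eventuallyEq_of (by linarith) (by linarith) (by linarith)

lemma contDiff_Phi : ContDiff ℝ ∞ Phi := by
  rw [contDiff_iff_contDiffAt]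
  intro ξ
  exact (contDiff_G (cell ξ)).contDiffAt.congr_of_eventuallyEq (Phi_eventuallyEq ξ)

lemma continuous_Phi : Continuous Phi := contDiff_Phi.continuous

lemma isClosed_S : IsClosed S := isClosed_singleton.preimage continuous_Phi

lemma Phi_bound (ξ : E5) : |Phi ξ - ξ.2| ≤ 3 / 2 * Real.exp 8 + 1 / 4 := Fq_bound _ _ _ _

lemma rq_add (a b s t a' b' : ℝ) : rq (a + t * a') (b + t * b') s = rq a b s + t * rq a' b' s := by
  unfold rq; ring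

lemma rp_add (a b s t a' b' : ℝ) : rp (a + t * a') (b + t * b') s = rp a b s + t * rp a' b' s := by
  unfold rp; ring

/-- regularity -/
theorem regular (ξ : E5) (hξ : Phi ξ = 0) : fderiv ℝ Phi ξ ≠ 0 := by
  intro h0
  set n := cell ξ with hn
  have hd : HasFDerivAt Phi (0 : E5 →L[ℝ] ℝ) ξ := by
    rw [← h0]
    exact ((contDiff_Phi.differentiable (by simp)) ξ).hasFDerivAt
  have hd' : HasFDerivAt (G n) (0 : E5 →L[ℝ] ℝ) ξ :=
    hd.congr_of_eventuallyEq (Phi_eventuallyEq ξ).symm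
  have hdir : ∀ u : E5, HasDerivAt (fun t : ℝ => G n (ξ + t • u)) 0 0 := by
    intro u
    have h1 : HasDerivAt (fun t : ℝ => ξ + t • u) u 0 := by
      have := ((hasDerivAt_id (0 : ℝ)).smul_const u).const_add ξ
      rw [one_smul] at this
      exact this
    have h2 : HasFDerivAt (G n) (0 : E5 →L[ℝ] ℝ) (ξ + (0 : ℝ) • u) := by
      rw [zero_smul, add_zero]; exact hd'
    have h3 := h2.comp_hasDerivAt (0 : ℝ) h1
    exact h3
  set a := ξ.1 0 - 10 * (n 0 : ℝ) with ha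
  set b := ξ.1 1 - 10 * (n 1 : ℝ) with hb
  set c := ξ.1 2 - 10 * (n 2 : ℝ) with hc
  set s := ξ.1 3 with hs
  have hG : ∀ (u0 u1 u2 v t : ℝ), G n (ξ + t • ((!₂[u0, u1, u2, 0] : V4), v)) =
      Fq (rq a b s + t * rq u0 u1 s) (rp a b s + t * rp u0 u1 s) (c + t * u2) (ξ.2 + t * v) := by
    intro u0 u1 u2 v t
    rw [← rq_add, ← rp_add]
    unfold G
    have e0 : (ξ + t • ((!₂[u0, u1, u2, 0] : V4), v)).1 0 - 10 * (n 0 : ℝ) = a + t * u0 := by
      simp [ha]; ring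
    have e1 : (ξ + t • ((!₂[u0, u1, u2, 0] : V4), v)).1 1 - 10 * (n 1 : ℝ) = b + t * u1 := by
      simp [hb]; ring
    have e2 : (ξ + t • ((!₂[u0, u1, u2, 0] : V4), v)).1 2 - 10 * (n 2 : ℝ) = c + t * u2 := by
      simp [hc]; ring
    have e3 : (ξ + t • ((!₂[u0, u1, u2, 0] : V4), v)).1 3 = s := by
      simp [hs]
    have e4 : (ξ + t • ((!₂[u0, u1, u2, 0] : V4), v)).2 = ξ.2 + t * v := by
      simp
    rw [e0, e1, e2, e3, e4]
  have hcs := Real.sin_sq_add_cos_sq (π * s)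
  have hq : rq (Real.cos (π * s)) (Real.sin (π * s)) s = 1 := by
    unfold rq; nlinarith
  have hq' : rp (Real.cos (π * s)) (Real.sin (π * s)) s = 0 := by
    unfold rp; ring
  have hp1 : rq (-Real.sin (π * s)) (Real.cos (π * s)) s = 0 := by
    unfold rq; ring
  have hp2 : rp (-Real.sin (π * s)) (Real.cos (π * s)) s = 1 := by
    unfold rp; nlinarith
  have hz : rq 0 0 s = 0 := by unfold rq; ring
  have hz' : rp 0 0 s = 0 := by unfold rp; ring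
  have hF : Fq (rq a b s) (rp a b s) c ξ.2 = 0 := hξ
  apply reg_scalar hF
  · have := hdir ((!₂[Real.cos (π * s), Real.sin (π * s), 0, 0] : V4), 0)
    simp only [hG, hq, hq', mul_one, mul_zero, add_zero] at this
    exact this
  · have := hdir ((!₂[-Real.sin (π * s), Real.cos (π * s), 0, 0] : V4), 0)
    simp only [hG, hp1, hp2, mul_one, mul_zero, add_zero] at this
    exact this
  · have := hdir ((!₂[0, 0, 1, 0] : V4), 0)
    simp only [hG, hz, hz', mul_one, mul_zero, add_zero] at this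
    exact this
  · have := hdir ((!₂[0, 0, 0, 0] : V4), 1)
    simp only [hG, hz, hz', mul_one, mul_zero, add_zero] at this
    exact this

/-- translation vectors -/
def lam (m : Fin 4 → ℤ) : E5 := ((!₂[10 * (m 0 : ℝ), 10 * (m 1 : ℝ), 10 * (m 2 : ℝ), (m 3 : ℝ)] : V4), 0)

lemma lam_0 (m : Fin 4 → ℤ) : (lam m).1 0 = 10 * (m 0 : ℝ) := rfl
lemma lam_1 (m : Fin 4 → ℤ) : (lam m).1 1 = 10 * (m 1 : ℝ) := rfl
lemma lam_2 (m : Fin 4 → ℤ) : (lam m).1 2 = 10 * (m 2 : ℝ) := rfl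
lemma lam_3 (m : Fin 4 → ℤ) : (lam m).1 3 = (m 3 : ℝ) := rfl
lemma lam_y (m : Fin 4 → ℤ) : (lam m).2 = 0 := rfl

lemma rq_shift (a b s : ℝ) (k : ℤ) : rq a b (s + k) ^ 2 = rq a b s ^ 2 := by
  unfold rq
  rw [mul_add, mul_comm π (k : ℝ), Real.cos_add_int_mul_pi, Real.sin_add_int_mul_pi]
  have h : ((-1 : ℝ) ^ k) ^ 2 = 1 := by
    rw [← zpow_natCast, ← zpow_mul, mul_comm, zpow_mul]; simp
  have : a * ((-1 : ℝ) ^ k * Real.cos (π * s)) + b * ((-1 : ℝ) ^ k * Real.sin (π * s)) =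
      (-1 : ℝ) ^ k * (a * Real.cos (π * s) + b * Real.sin (π * s)) := by ring
  rw [this, mul_pow, h, one_mul]

lemma rp_shift (a b s : ℝ) (k : ℤ) : rp a b (s + k) ^ 2 = rp a b s ^ 2 := by
  have h1 := rq_rp a b (s + k)
  have h2 := rq_rp a b s
  rw [rq_shift] at h1
  linarith

lemma Fq_congr {q p q' p' c y : ℝ} (hq : q ^ 2 = q' ^ 2) (hp' : p ^ 2 = p' ^ 2) :
    Fq q p c y = Fq q' p' c y := by
  unfold Fq Tq
  rw [hq, hp']

lemma cell_add (ξ : E5) (m : Fin 4 → ℤ) :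
    cell (ξ + lam m) = fun i => cell ξ i + m i.castSucc := by
  have key : ∀ (t : ℝ) (k : ℤ), round ((t + 10 * (k : ℝ)) / 10) = round (t / 10) + k := by
    intro t k
    have : (t + 10 * (k : ℝ)) / 10 = t / 10 + k := by ring
    rw [this, round_add_intCast]
  funext i
  fin_cases i
  · exact key _ _
  · exact key _ _
  · exact key _ _

lemma Phi_add (ξ : E5) (m : Fin 4 → ℤ) : Phi (ξ + lam m) = Phi ξ := by
  unfold Phi
  rw [cell_add]
  unfold G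
  have e0 : (ξ + lam m).1 0 - 10 * ((cell ξ 0 + m (Fin.castSucc 0) : ℤ) : ℝ) =
      ξ.1 0 - 10 * cell ξ 0 := by
    have : (ξ + lam m).1 0 = ξ.1 0 + 10 * (m 0 : ℝ) := rfl
    rw [this]
    push_cast
    ring
  have e1 : (ξ + lam m).1 1 - 10 * ((cell ξ 1 + m (Fin.castSucc 1) : ℤ) : ℝ) =
      ξ.1 1 - 10 * cell ξ 1 := by
    have : (ξ + lam m).1 1 = ξ.1 1 + 10 * (m 1 : ℝ) := rfl
    rw [this]
    push_cast
    ring
  have e2 : (ξ + lam m).1 2 - 10 * ((cell ξ 2 + m (Fin.castSucc 2) : ℤ) : ℝ) =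
      ξ.1 2 - 10 * cell ξ 2 := by
    have : (ξ + lam m).1 2 = ξ.1 2 + 10 * (m 2 : ℝ) := rfl
    rw [this]
    push_cast
    ring
  have e3 : (ξ + lam m).1 3 = ξ.1 3 + (m 3 : ℝ) := rfl
  have e4 : (ξ + lam m).2 = ξ.2 := by
    show ξ.2 + 0 = ξ.2
    rw [add_zero]
  rw [e0, e1, e2, e3, e4]
  exact Fq_congr (rq_shift _ _ _ _) (rp_shift _ _ _ _)

end

end Pool.Agent.H834R2
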