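import Pool.Agent.H295R2.Nic.Defs

/-!
# Counting the exceptional integers (C2): `Upper` from `Struct`
-/

set_option autoImplicit false

open Finset Filter Topology

namespace Pool.Agent.H834R2.NicUpper

open Pool.Agent.H295R2.Nic

noncomputable section

/-- few small subsets -/
theorem card_small_subsets {α : Type*} [DecidableEq α] (s : Finset α) (k : ℕ) :
    ((s.powerset).filter (fun t => t.card ≤ k)).card ≤ (s.card + 1) ^ k := by
  classical
  have h1 : (Fintype.piFinset (fun _ : Fin k => insertNone s)).card = (s.card + 1) ^ k := by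
    rw [Fintype.card_piFinset]
    simp [Finset.card_insertNone]
  rw [← h1]
  refine Finset.card_le_card_of_surjOn
    (fun g : Fin k → Option α => (Finset.univ.image g).eraseNone) ?_
  intro t ht
  simp only [Finset.coe_filter, Finset.mem_powerset, Set.mem_ofPred_eq] at ht
  obtain ⟨hts, htk⟩ := ht
  simp only [Set.mem_image, Finset.mem_coe]
  let e := t.equivFin
  refine ⟨fun i : Fin k => if h : (i : ℕ) < t.card then some ((e.symm ⟨i, h⟩ : t) : α) else none, ?_, ?_⟩
  · rw [Fintype.mem_piFinset]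
    intro i
    by_cases h : (i : ℕ) < t.card
    · simp only [h, dif_pos]
      rw [Finset.some_mem_insertNone]
      exact hts (e.symm ⟨i, h⟩).2
    · simp only [h, dif_neg, not_false_eq_true]
      exact Finset.none_mem_insertNone
  · ext a
    rw [Finset.mem_eraseNone, Finset.mem_image]
    constructor
    · rintro ⟨i, -, hi⟩
      by_cases h : (i : ℕ) < t.card
      · simp only [h, dif_pos, Option.some.injEq] at hi
        rw [← hi]
        exact (e.symm ⟨i, h⟩).2
      · simp [h] at hi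
    · intro ha
      refine ⟨⟨(e ⟨a, ha⟩ : ℕ), lt_of_lt_of_le (e ⟨a, ha⟩).2 htk⟩, Finset.mem_univ _, ?_⟩
      have h : ((e ⟨a, ha⟩ : Fin t.card) : ℕ) < t.card := (e ⟨a, ha⟩).2
      simp only [h, dif_pos, Fin.eta, Equiv.symm_apply_apply]

/-- the deviation set of `n` below `2y` -/
def E (y n : ℕ) : Finset ℕ :=
  (Finset.range (2 * y + 1)).filter (fun p => p.Prime ∧ ((p ≤ y ∧ ¬ p ∣ n) ∨ (y < p ∧ p ∣ n)))

def En (y D n : ℕ) : Finset ℕ := (E y n).filter (fun p => y ≤ p + D ∧ p ≤ y + D)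

def Ef (y D n : ℕ) : Finset ℕ := (E y n).filter (fun p => ¬ (y ≤ p + D ∧ p ≤ y + D))

def QQ (y n : ℕ) : ℕ := ∏ p ∈ n.primeFactors.filter (fun p => 2 * y < p), p

def mm (n : ℕ) : ℕ := n / ∏ p ∈ n.primeFactors, p

theorem mm_mul (n : ℕ) : mm n * ∏ p ∈ n.primeFactors, p = n :=
  Nat.div_mul_cancel (Nat.prod_primeFactors_dvd n)

theorem small_eq (y n : ℕ) (hn : n ≠ 0) :
    n.primeFactors.filter (fun p => ¬ 2 * y < p) =
      (Finset.range (2 * y + 1)).filter (fun p => p.Prime ∧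
        ((p ≤ y ∧ p ∉ E y n) ∨ (y < p ∧ p ∈ E y n))) := by
  ext p
  simp only [Finset.mem_filter, Nat.mem_primeFactors, Finset.mem_range, E]
  constructor
  · rintro ⟨⟨hp, hd, -⟩, h⟩
    refine ⟨by omega, hp, ?_⟩
    rcases le_or_gt p y with h' | h'
    · left
      refine ⟨h', ?_⟩
      rintro ⟨-, -, h1 | h1⟩
      · exact h1.2 hd
      · omega
    · right
      exact ⟨h', by omega, hp, Or.inr ⟨h', hd⟩⟩
  · rintro ⟨h1, hp, h2⟩
    rcases h2 with h2 | h2
    · have : p ∣ n := by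
        by_contra hd
        exact h2.2 ⟨h1, hp, Or.inl ⟨h2.1, hd⟩⟩
      exact ⟨⟨hp, this, hn⟩, by omega⟩
    · have : p ∣ n := by
        rcases h2.2.2.2 with h3 | h3
        · omega
        · exact h3.2
      exact ⟨⟨hp, this, hn⟩, by omega⟩

theorem determ (y D n n' : ℕ) (hn : n ≠ 0) (hn' : n' ≠ 0) (h1 : En y D n = En y D n')
    (h2 : Ef y D n = Ef y D n') (h3 : QQ y n = QQ y n') (h4 : mm n = mm n') : n = n' := by
  have hE : E y n = E y n' := by
    rw [← Finset.filter_union_filter_not_eq (fun p => y ≤ p + D ∧ p ≤ y + D) (E y n),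
      ← Finset.filter_union_filter_not_eq (fun p => y ≤ p + D ∧ p ≤ y + D) (E y n')]
    unfold En at h1
    unfold Ef at h2
    rw [h1, h2]
  have hrad : ∏ p ∈ n.primeFactors, p = ∏ p ∈ n'.primeFactors, p := by
    rw [← Finset.prod_filter_mul_prod_filter_not n.primeFactors (fun p => 2 * y < p),
      ← Finset.prod_filter_mul_prod_filter_not n'.primeFactors (fun p => 2 * y < p)]
    rw [small_eq y n hn, small_eq y n' hn', hE]
    unfold QQ at h3
    rw [h3]
  rw [← mm_mul n, ← mm_mul n', h4, hrad]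

/-- the structure inequality bounds the number of far deviations -/
theorem far_bound (y D n : ℕ) (A B : ℝ) (hy : 2 ≤ y) (hD : A ≤ D) (hA : 0 < A) (hn : n ≠ 0)
    (h : (∑ p ∈ (Finset.Icc 1 y).filter (fun p => p.Prime ∧ ¬ p ∣ n), ((y : ℝ) - p) / (y : ℝ) ^ 2) +
      (∑ p ∈ n.primeFactors.filter (fun p => y < p ∧ p ≤ 2 * y), ((p : ℝ) - y) / (y : ℝ) ^ 2) ≤ B) :
    ((Ef y D n).card : ℝ) ≤ B * (y : ℝ) ^ 2 / A := by
  classical
  have hyp : (0 : ℝ) < y := by positivity
  rw [le_div_iff₀ hA]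
  have key : ((Ef y D n).card : ℝ) * (A / (y : ℝ) ^ 2) ≤ B := by
    refine le_trans ?_ h
    rw [← nsmul_eq_mul, ← Finset.sum_const]
    rw [← Finset.sum_filter_add_sum_filter_not (Ef y D n) (fun p => p ≤ y)]
    refine add_le_add ?_ ?_
    · calc ∑ x ∈ (Ef y D n).filter (fun p => p ≤ y), A / (y : ℝ) ^ 2
          ≤ ∑ p ∈ (Ef y D n).filter (fun p => p ≤ y), ((y : ℝ) - p) / (y : ℝ) ^ 2 := by
            refine Finset.sum_le_sum fun p hp => ?_
            simp only [Ef, Finset.mem_filter] at hp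
            have h1 : p + D < y := by
              have := hp.1.2
              have := hp.2
              by_contra hc
              apply hp.1.2
              constructor <;> omega
            have h2 : (p : ℝ) + D < y := by exact_mod_cast h1
            gcongr
            linarith
        _ ≤ ∑ p ∈ (Finset.Icc 1 y).filter (fun p => p.Prime ∧ ¬ p ∣ n), ((y : ℝ) - p) / (y : ℝ) ^ 2 := by
            refine Finset.sum_le_sum_of_subset_of_nonneg ?_ ?_
            · intro p hp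
              simp only [Ef, E, Finset.mem_filter, Finset.mem_range, Finset.mem_Icc] at hp ⊢
              obtain ⟨⟨⟨h1, h2, h3⟩, h4⟩, h5⟩ := hp
              refine ⟨⟨h2.one_lt.le, h5⟩, h2, ?_⟩
              rcases h3 with h3 | h3
              · exact h3.2
              · omega
            · intro p hp _
              simp only [Finset.mem_filter, Finset.mem_Icc] at hp
              have : (p : ℝ) ≤ y := by exact_mod_cast hp.1.2
              have : 0 ≤ (y : ℝ) - p := by linarith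
              positivity
    · calc ∑ x ∈ (Ef y D n).filter (fun p => ¬ p ≤ y), A / (y : ℝ) ^ 2
          ≤ ∑ p ∈ (Ef y D n).filter (fun p => ¬ p ≤ y), ((p : ℝ) - y) / (y : ℝ) ^ 2 := by
            refine Finset.sum_le_sum fun p hp => ?_
            simp only [Ef, Finset.mem_filter] at hp
            have h1 : y + D < p := by
              by_contra hc
              apply hp.1.2
              have := hp.2
              constructor <;> omega
            have h2 : (y : ℝ) + D < p := by exact_mod_cast h1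
            gcongr
            linarith
        _ ≤ ∑ p ∈ n.primeFactors.filter (fun p => y < p ∧ p ≤ 2 * y), ((p : ℝ) - y) / (y : ℝ) ^ 2 := by
            refine Finset.sum_le_sum_of_subset_of_nonneg ?_ ?_
            · intro p hp
              simp only [Ef, E, Finset.mem_filter, Finset.mem_range, Nat.mem_primeFactors] at hp ⊢
              obtain ⟨⟨⟨h1, h2, h3⟩, h4⟩, h5⟩ := hp
              refine ⟨⟨h2, ?_, hn⟩, by omega, by omega⟩
              rcases h3 with h3 | h3
              · omega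
              · exact h3.2
            · intro p hp _
              simp only [Finset.mem_filter] at hp
              have : (y : ℝ) < p := by exact_mod_cast hp.2.1
              have : 0 ≤ (p : ℝ) - y := by linarith
              positivity
  have h3 : ((Ef y D n).card : ℝ) * A = ((Ef y D n).card : ℝ) * (A / (y : ℝ) ^ 2) * (y : ℝ) ^ 2 := by
    field_simp
  rw [h3]
  gcongr

/-- counting for fixed `y` -/
theorem card_fixed (y D K M : ℕ) (S : Finset ℕ) (hS : ∀ n ∈ S, n ≠ 0 ∧ (Ef y D n).card ≤ K ∧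
    QQ y n ≤ M ∧ mm n ≤ M) :
    S.card ≤ 2 ^ (2 * D + 1) * (2 * y + 2) ^ K * (M + 1) ^ 2 := by
  classical
  set T : Finset (Finset ℕ × Finset ℕ × ℕ × ℕ) :=
    (Finset.Icc (y - D) (y + D)).powerset ×ˢ
      (((Finset.range (2 * y + 1)).powerset).filter (fun t => t.card ≤ K)) ×ˢ
        (Finset.range (M + 1)) ×ˢ (Finset.range (M + 1)) with hT
  have h1 : S.card ≤ T.card := by
    refine Finset.card_le_card_of_injOn (fun n => (En y D n, Ef y D n, QQ y n, mm n)) ?_ ?_
    · intro n hn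
      obtain ⟨h0, h1, h2, h3⟩ := hS n hn
      simp only [hT, Finset.mem_coe, Finset.mem_product, Finset.mem_powerset, Finset.mem_filter,
        Finset.mem_range]
      refine ⟨?_, ⟨?_, h1⟩, by omega, by omega⟩
      · intro p hp
        simp only [En, Finset.mem_filter] at hp
        rw [Finset.mem_Icc]
        omega
      · intro p hp
        simp only [Ef, E, Finset.mem_filter] at hp
        exact hp.1.1
    · intro n hn n' hn' h
      simp only [Prod.mk.injEq] at h
      obtain ⟨h1, h2, h3, h4⟩ := h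
      exact determ y D n n' (hS n hn).1 (hS n' hn').1 h1 h2 h3 h4
  refine h1.trans ?_
  rw [hT, Finset.card_product, Finset.card_product, Finset.card_product, Finset.card_powerset,
    Finset.card_range]
  have h2 : (Finset.Icc (y - D) (y + D)).card ≤ 2 * D + 1 := by
    rw [Nat.card_Icc]
    omega
  have h3 := card_small_subsets (Finset.range (2 * y + 1)) K
  rw [Finset.card_range] at h3
  calc 2 ^ (Finset.Icc (y - D) (y + D)).card *
        ((((Finset.range (2 * y + 1)).powerset).filter (fun t => t.card ≤ K)).card * ((M + 1) * (M + 1)))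
      ≤ 2 ^ (2 * D + 1) * ((2 * y + 1 + 1) ^ K * ((M + 1) * (M + 1))) := by
        gcongr
        norm_num
    _ = 2 ^ (2 * D + 1) * (2 * y + 2) ^ K * (M + 1) ^ 2 := by ring

/-- `θ(y) ≥ y/2` eventually -/
theorem theta_half : ∃ Y : ℕ, ∀ y : ℕ, Y ≤ y → (y : ℝ) / 2 ≤ Chebyshev.theta y := by
  have h1 : Tendsto (fun x : ℝ => Real.log x / x ^ (1/4 : ℝ)) atTop (𝓝 0) :=
    (isLittleO_log_rpow_atTop (by norm_num : (0 : ℝ) < 1/4)).tendsto_div_nhds_zero
  have h2 : ∀ᶠ x : ℝ in atTop, Real.log x / x ^ (1/4 : ℝ) < 1 := h1.eventually (gt_mem_nhds zero_lt_one)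
  have h3 : Tendsto (fun x : ℝ => x ^ (1/4 : ℝ)) atTop atTop := tendsto_rpow_atTop (by norm_num)
  have h4 : ∀ᶠ x : ℝ in atTop, (100 : ℝ) ≤ x ^ (1/4 : ℝ) := h3.eventually_ge_atTop 100
  have h5 : ∀ᶠ x : ℝ in atTop, (x : ℝ) / 2 ≤ x * Real.log 2 - Real.log (x + 1) - 2 * √x * Real.log x := by
    filter_upwards [h2, h4, eventually_ge_atTop 1] with x hx2 hx4 hx1
    have hx0 : 0 < x := by linarith
    set t := x ^ (1/4 : ℝ) with ht
    have ht0 : 0 < t := by positivity
    have e1 : t ^ 4 = x := by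
      rw [ht, ← Real.rpow_natCast, ← Real.rpow_mul hx0.le]; norm_num
    have e2 : √x = t ^ 2 := by
      rw [Real.sqrt_eq_rpow, ht, ← Real.rpow_natCast, ← Real.rpow_mul hx0.le]; norm_num
    have e3 : Real.log x < t := by
      rw [div_lt_one ht0] at hx2; exact hx2
    have e4 : Real.log (x + 1) ≤ Real.log x + 1 := by
      have : Real.log (x + 1) ≤ Real.log (x * Real.exp 1) := by
        apply Real.log_le_log (by linarith)
        have : (2 : ℝ) ≤ Real.exp 1 := by
          have := Real.add_one_le_exp (1 : ℝ)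
          linarith
        nlinarith
      rw [Real.log_mul hx0.ne' (Real.exp_pos 1).ne', Real.log_exp] at this
      exact this
    have e5 : 0.6 ≤ Real.log 2 := by
      have := Real.log_two_gt_d9
      linarith
    have e6 : √x * Real.log x ≤ t ^ 3 := by
      rw [e2]
      have : 0 ≤ t ^ 2 := by positivity
      nlinarith
    have e7 : x = t * t ^ 3 := by rw [← e1]; ring
    have e8 : t ^ 3 * 100 ≤ x := by
      rw [e7]
      have : 0 ≤ t ^ 3 := by positivity
      nlinarith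
    have e9 : t ≤ t ^ 3 := by nlinarith [sq_nonneg t]
    have e10 : x * 0.6 ≤ x * Real.log 2 := by nlinarith
    nlinarith
  obtain ⟨X, hX⟩ := Filter.eventually_atTop.1 h5
  refine ⟨⌈X⌉₊, fun y hy => ?_⟩
  have h6 := hX y (by exact Nat.ceil_le.1 hy)
  exact h6.trans (Chebyshev.theta_ge y)

theorem exists_y (n : ℕ) (hn : 3 ≤ n) :
    ∃ y : ℕ, Chebyshev.theta y ≤ Real.log n ∧ Real.log n < Chebyshev.theta ((y : ℝ) + 1) := by
  classical
  obtain ⟨Y, hY⟩ := theta_half
  have hex : ∃ y : ℕ, Real.log n < Chebyshev.theta ((y : ℝ) + 1) := by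
    refine ⟨max Y (2 * n), ?_⟩
    have h1 := hY (max Y (2 * n) + 1) (by omega)
    have h2 : Real.log n < n := by
      have := Real.log_lt_sub_one_of_pos (show (0:ℝ) < n by positivity)
        (by
          have : (3 : ℝ) ≤ n := by exact_mod_cast hn
          linarith)
      linarith
    push_cast at h1
    have h3 : (2 * n : ℝ) ≤ max (Y : ℝ) (2 * n) := le_max_right _ _
    push_cast
    refine lt_of_lt_of_le h2 (le_trans ?_ h1)
    linarith
  refine ⟨Nat.find hex, ?_, Nat.find_spec hex⟩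
  rcases Nat.eq_zero_or_pos (Nat.find hex) with h0 | h0
  · rw [h0]
    simp only [Nat.cast_zero, Chebyshev.theta_zero]
    exact Real.log_natCast_nonneg n
  · have := Nat.find_min hex (m := Nat.find hex - 1) (by omega)
    rw [not_lt] at this
    refine le_trans (le_of_eq ?_) this
    congr 1
    rw [Nat.cast_sub h0]
    simp

/-- what `Struct` gives for a single `n` -/
theorem struct_use (y n : ℕ) (hn : n ≠ 0) (hy : 2 ≤ y) (κ C' : ℝ)
    (h : (∑ p ∈ (Finset.Icc 1 y).filter (fun p => p.Prime ∧ ¬ p ∣ n), ((y : ℝ) - p) / (y : ℝ) ^ 2) +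
      (∑ p ∈ n.primeFactors.filter (fun p => y < p ∧ p ≤ 2 * y), ((p : ℝ) - y) / (y : ℝ) ^ 2) +
      (∑ p ∈ n.primeFactors.filter (fun p => 2 * y < p), Real.log p / (y * Real.log y)) +
      Real.log ((n : ℝ) / ∏ p ∈ n.primeFactors, (p : ℝ)) / (y * Real.log y) ≤ C' * (y : ℝ) ^ (-κ)) :
    (Ef y ⌈(y : ℝ) ^ (1 - κ / 2)⌉₊ n).card ≤ ⌊C' * (y : ℝ) ^ (1 - κ / 2)⌋₊ ∧
      QQ y n ≤ ⌊Real.exp (C' * (y : ℝ) ^ (1 - κ) * Real.log y)⌋₊ ∧
      mm n ≤ ⌊Real.exp (C' * (y : ℝ) ^ (1 - κ) * Real.log y)⌋₊ := by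
  have hyp : (0 : ℝ) < y := by positivity
  have hy1 : (1 : ℝ) < y := by exact_mod_cast hy
  have hlog : 0 < Real.log y := Real.log_pos hy1
  have hyl : 0 < (y : ℝ) * Real.log y := by positivity
  have t1 : 0 ≤ ∑ p ∈ (Finset.Icc 1 y).filter (fun p => p.Prime ∧ ¬ p ∣ n), ((y : ℝ) - p) / (y : ℝ) ^ 2 := by
    refine Finset.sum_nonneg fun p hp => ?_
    simp only [Finset.mem_filter, Finset.mem_Icc] at hp
    have : (p : ℝ) ≤ y := by exact_mod_cast hp.1.2
    have : 0 ≤ (y : ℝ) - p := by linarith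
    positivity
  have t2 : 0 ≤ ∑ p ∈ n.primeFactors.filter (fun p => y < p ∧ p ≤ 2 * y), ((p : ℝ) - y) / (y : ℝ) ^ 2 := by
    refine Finset.sum_nonneg fun p hp => ?_
    simp only [Finset.mem_filter] at hp
    have : (y : ℝ) < p := by exact_mod_cast hp.2.1
    have : 0 ≤ (p : ℝ) - y := by linarith
    positivity
  have t3 : 0 ≤ ∑ p ∈ n.primeFactors.filter (fun p => 2 * y < p), Real.log p / (y * Real.log y) := by
    refine Finset.sum_nonneg fun p hp => ?_
    have : 0 ≤ Real.log (p : ℝ) := Real.log_natCast_nonneg p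
    positivity
  have hradpos : 0 < ∏ p ∈ n.primeFactors, p :=
    Finset.prod_pos fun p hp => (Nat.prime_of_mem_primeFactors hp).pos
  have hmm : (n : ℝ) / ∏ p ∈ n.primeFactors, (p : ℝ) = (mm n : ℝ) := by
    rw [div_eq_iff]
    · have := mm_mul n
      have h' : ((mm n * ∏ p ∈ n.primeFactors, p : ℕ) : ℝ) = n := by rw [this]
      push_cast at h'
      exact h'.symm
    · have : ((∏ p ∈ n.primeFactors, p : ℕ) : ℝ) ≠ 0 := by exact_mod_cast hradpos.ne'
      push_cast at this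
      exact this
  rw [hmm] at h
  have hmpos : 0 < mm n := by
    rcases Nat.eq_zero_or_pos (mm n) with h0 | h0
    · exfalso
      have := mm_mul n
      rw [h0, zero_mul] at this
      exact hn this.symm
    · exact h0
  have t4 : 0 ≤ Real.log (mm n) / (y * Real.log y) := by
    have : 0 ≤ Real.log (mm n) := Real.log_natCast_nonneg _
    positivity
  have hpow : (y : ℝ) ^ (-κ) * y = (y : ℝ) ^ (1 - κ) := by
    rw [← Real.rpow_add_one hyp.ne']
    congr 1
    ring
  refine ⟨?_, ?_, ?_⟩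
  · have hA : 0 < (y : ℝ) ^ (1 - κ / 2) := by positivity
    have h5 := far_bound y ⌈(y : ℝ) ^ (1 - κ / 2)⌉₊ n ((y : ℝ) ^ (1 - κ / 2)) (C' * (y : ℝ) ^ (-κ)) hy
      (Nat.le_ceil _) hA hn (by linarith)
    apply Nat.le_floor
    refine h5.trans (le_of_eq ?_)
    rw [mul_assoc, mul_div_assoc]
    congr 1
    rw [div_eq_iff hA.ne', ← Real.rpow_natCast, ← Real.rpow_add hyp, ← Real.rpow_add hyp]
    congr 1
    push_cast
    ring
  · have h6 : ∑ p ∈ n.primeFactors.filter (fun p => 2 * y < p), Real.log p / (y * Real.log y) ≤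
        C' * (y : ℝ) ^ (-κ) := by linarith
    rw [← Finset.sum_div, div_le_iff₀ hyl] at h6
    have h7 : Real.log (QQ y n) = ∑ p ∈ n.primeFactors.filter (fun p => 2 * y < p), Real.log p := by
      unfold QQ
      push_cast
      rw [Real.log_prod]
      intro p hp
      have := (Nat.prime_of_mem_primeFactors (Finset.mem_filter.1 hp).1).pos
      positivity
    apply Nat.le_floor
    have hq : (0 : ℝ) < QQ y n := by
      unfold QQ
      have : 0 < ∏ p ∈ n.primeFactors.filter (fun p => 2 * y < p), p :=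
        Finset.prod_pos fun p hp => (Nat.prime_of_mem_primeFactors (Finset.mem_filter.1 hp).1).pos
      exact_mod_cast this
    rw [← Real.log_le_iff_le_exp hq, h7]
    refine h6.trans (le_of_eq ?_)
    rw [← hpow]
    ring
  · have h6 : Real.log (mm n) / (y * Real.log y) ≤ C' * (y : ℝ) ^ (-κ) := by linarith
    rw [div_le_iff₀ hyl] at h6
    apply Nat.le_floor
    rw [← Real.log_le_iff_le_exp (by exact_mod_cast hmpos)]
    refine h6.trans (le_of_eq ?_)
    rw [← hpow]
    ring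

/-- the real form of the count for a fixed `y ≤ Z` -/
theorem card_fixed_real (y : ℕ) (Z κ C' : ℝ) (hκ : 0 < κ) (hκ1 : κ < 1) (hC : 0 < C') (hy : 2 ≤ y)
    (hyZ : (y : ℝ) ≤ Z) (S : Finset ℕ)
    (hS : ∀ n ∈ S, n ≠ 0 ∧ (Ef y ⌈(y : ℝ) ^ (1 - κ / 2)⌉₊ n).card ≤ ⌊C' * (y : ℝ) ^ (1 - κ / 2)⌋₊ ∧
      QQ y n ≤ ⌊Real.exp (C' * (y : ℝ) ^ (1 - κ) * Real.log y)⌋₊ ∧
      mm n ≤ ⌊Real.exp (C' * (y : ℝ) ^ (1 - κ) * Real.log y)⌋₊) :
    (S.card : ℝ) ≤ Real.exp (2 * Z ^ (1 - κ / 2) + 5 + 3 * C' * Z ^ (1 - κ / 2) * Real.log (2 * Z + 2)) := by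
  have h := card_fixed y _ _ _ S hS
  have hyp : (0 : ℝ) < y := by positivity
  have hy1 : (1 : ℝ) < y := by exact_mod_cast hy
  have hZ1 : 1 < Z := lt_of_lt_of_le hy1 hyZ
  set D := ⌈(y : ℝ) ^ (1 - κ / 2)⌉₊ with hDd
  set K := ⌊C' * (y : ℝ) ^ (1 - κ / 2)⌋₊ with hKd
  set M := ⌊Real.exp (C' * (y : ℝ) ^ (1 - κ) * Real.log y)⌋₊ with hMd
  set u := Z ^ (1 - κ / 2) with hu
  have hu1 : 1 ≤ u := Real.one_le_rpow hZ1.le (by linarith)
  have hyu : (y : ℝ) ^ (1 - κ / 2) ≤ u := Real.rpow_le_rpow hyp.le hyZ (by linarith)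
  have hD : (D : ℝ) ≤ u + 1 := by
    have := Nat.ceil_lt_add_one (show 0 ≤ (y : ℝ) ^ (1 - κ / 2) by positivity)
    linarith
  have hK : (K : ℝ) ≤ C' * u := by
    refine (Nat.floor_le (by positivity)).trans ?_
    gcongr
  set L := Real.log (2 * Z + 2) with hL
  have hL1 : 1 ≤ L := by
    rw [hL, Real.le_log_iff_exp_le (by linarith)]
    have := Real.exp_one_lt_d9
    linarith
  have hlogyL : Real.log y ≤ L := Real.log_le_log hyp (by linarith)
  have hlogy0 : 0 ≤ Real.log y := Real.log_nonneg hy1.le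
  have hyk : (y : ℝ) ^ (1 - κ) ≤ u := by
    refine le_trans ?_ hyu
    exact Real.rpow_le_rpow_of_exponent_le hy1.le (by linarith)
  have hM : (M : ℝ) ≤ Real.exp (C' * u * L) := by
    refine (Nat.floor_le (Real.exp_pos _).le).trans ?_
    apply Real.exp_le_exp.2
    gcongr
  have hM1 : ((M : ℝ) + 1) ≤ Real.exp (C' * u * L + 1) := by
    rw [Real.exp_add]
    have h1 : 1 ≤ Real.exp (C' * u * L) := Real.one_le_exp (by positivity)
    have h2 : 2 ≤ Real.exp 1 := by
      have := Real.add_one_le_exp (1 : ℝ)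
      linarith
    nlinarith
  have e1 : (2 : ℝ) ^ (2 * D + 1) ≤ Real.exp (2 * u + 3) := by
    have h2 : (2 : ℝ) ≤ Real.exp 1 := by
      have := Real.add_one_le_exp (1 : ℝ)
      linarith
    calc (2 : ℝ) ^ (2 * D + 1) ≤ (Real.exp 1) ^ (2 * D + 1) := by gcongr
      _ = Real.exp ((2 * D + 1 : ℕ) : ℝ) := by rw [← Real.exp_nat_mul, mul_one]
      _ ≤ Real.exp (2 * u + 3) := by
        apply Real.exp_le_exp.2
        push_cast
        linarith
  have e2 : ((2 : ℝ) * y + 2) ^ K ≤ Real.exp (C' * u * L) := by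
    calc ((2 : ℝ) * y + 2) ^ K ≤ (2 * Z + 2) ^ K := by gcongr
      _ = Real.exp (K * L) := by
        rw [mul_comm (K : ℝ) L, hL, ← Real.rpow_def_of_pos (by linarith : (0:ℝ) < 2 * Z + 2), Real.rpow_natCast]
      _ ≤ Real.exp (C' * u * L) := by
        apply Real.exp_le_exp.2
        gcongr
  calc (S.card : ℝ) ≤ ((2 ^ (2 * D + 1) * (2 * y + 2) ^ K * (M + 1) ^ 2 : ℕ) : ℝ) := by exact_mod_cast h
    _ = (2 : ℝ) ^ (2 * D + 1) * ((2 : ℝ) * y + 2) ^ K * ((M : ℝ) + 1) ^ 2 := by push_cast; ring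
    _ ≤ Real.exp (2 * u + 3) * Real.exp (C' * u * L) * (Real.exp (C' * u * L + 1)) ^ 2 := by
      gcongr
    _ = Real.exp (2 * u + 5 + 3 * C' * u * L) := by
      rw [← Real.exp_nat_mul, ← Real.exp_add, ← Real.exp_add]
      congr 1
      push_cast
      ring

/-- the final asymptotic comparison -/
theorem asymp (κ C' N ε : ℝ) (hκ : 0 < κ) (hκ1 : κ < 1) (hC : 0 < C') (hN : 0 ≤ N) (hε : 0 < ε) :
    ∃ l₀ : ℝ, 1 ≤ l₀ ∧ ∀ l : ℝ, l₀ ≤ l →
      N + (2 * l + 1) * Real.exp (2 * (2 * l) ^ (1 - κ / 2) + 5 +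
        3 * C' * (2 * l) ^ (1 - κ / 2) * Real.log (2 * (2 * l) + 2)) ≤
        Real.exp (l ^ (1 - κ / 2 + ε)) := by
  set c := Real.log (N + 1) + 8 + 3 * C' with hc
  set A := c * (2 / ε) * (6 : ℝ) ^ (ε / 2) * (2 : ℝ) ^ (1 - κ / 2) with hA
  have h3 : Tendsto (fun x : ℝ => x ^ (ε / 2)) atTop atTop := tendsto_rpow_atTop (by linarith)
  obtain ⟨l₁, hl₁⟩ := Filter.eventually_atTop.1 (h3.eventually_ge_atTop A)
  refine ⟨max 1 l₁, le_max_left _ _, fun l hl => ?_⟩
  have hl1 : 1 ≤ l := le_trans (le_max_left _ _) hl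
  have hlA := hl₁ l (le_trans (le_max_right _ _) hl)
  set u := (2 * l) ^ (1 - κ / 2) with hu
  set L := Real.log (2 * (2 * l) + 2) with hL
  have hu1 : 1 ≤ u := Real.one_le_rpow (by linarith) (by linarith)
  have hL1 : 1 ≤ L := by
    rw [hL, Real.le_log_iff_exp_le (by linarith)]
    have := Real.exp_one_lt_d9
    linarith
  have huL : 1 ≤ u * L := by nlinarith
  have huL' : u ≤ u * L := by nlinarith
  have hLL : L ≤ u * L := by nlinarith
  have e1 : N + (2 * l + 1) * Real.exp (2 * u + 5 + 3 * C' * u * L) ≤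
      (N + 1) * ((2 * l + 1) * Real.exp (2 * u + 5 + 3 * C' * u * L)) := by
    have h1 : 1 ≤ Real.exp (2 * u + 5 + 3 * C' * u * L) := Real.one_le_exp (by positivity)
    have h2 : 1 ≤ (2 * l + 1) * Real.exp (2 * u + 5 + 3 * C' * u * L) := by nlinarith
    nlinarith
  have e2 : (N + 1) * ((2 * l + 1) * Real.exp (2 * u + 5 + 3 * C' * u * L)) =
      Real.exp (Real.log (N + 1) + Real.log (2 * l + 1) + (2 * u + 5 + 3 * C' * u * L)) := by
    rw [Real.exp_add (Real.log (N + 1) + Real.log (2 * l + 1)), Real.exp_add (Real.log (N + 1)),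
      Real.exp_log (by linarith), Real.exp_log (by linarith)]
    ring
  have e3 : Real.log (2 * l + 1) ≤ L := Real.log_le_log (by linarith) (by linarith)
  have hlogN : 0 ≤ Real.log (N + 1) := Real.log_nonneg (by linarith)
  have e4 : Real.log (N + 1) + Real.log (2 * l + 1) + (2 * u + 5 + 3 * C' * u * L) ≤ c * (u * L) := by
    have h1 : Real.log (N + 1) ≤ Real.log (N + 1) * (u * L) := by nlinarith
    rw [hc]
    nlinarith
  have e5 : L ≤ (2 / ε) * ((6 : ℝ) ^ (ε / 2) * l ^ (ε / 2)) := by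
    have h1 := Real.log_le_rpow_div (show 0 ≤ 2 * (2 * l) + 2 by linarith) (show 0 < ε / 2 by linarith)
    refine h1.trans ?_
    rw [← Real.mul_rpow (by norm_num) (by linarith)]
    have h2 : (2 * (2 * l) + 2) ^ (ε / 2) ≤ (6 * l) ^ (ε / 2) :=
      Real.rpow_le_rpow (by linarith) (by linarith) (by linarith)
    calc (2 * (2 * l) + 2) ^ (ε / 2) / (ε / 2) ≤ (6 * l) ^ (ε / 2) / (ε / 2) := by gcongr
      _ = 2 / ε * (6 * l) ^ (ε / 2) := by field_simp
  have hc0 : 0 ≤ c := by positivity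
  have e6 : c * (u * L) ≤ l ^ (1 - κ / 2 + ε) := by
    have h1 : u = (2 : ℝ) ^ (1 - κ / 2) * l ^ (1 - κ / 2) := by
      rw [hu, Real.mul_rpow (by norm_num) (by linarith)]
    have hl0 : 0 < l := by linarith
    have h2 : l ^ (1 - κ / 2 + ε) = l ^ (1 - κ / 2) * l ^ (ε / 2) * l ^ (ε / 2) := by
      rw [← Real.rpow_add hl0, ← Real.rpow_add hl0]
      congr 1
      ring
    rw [h2]
    calc c * (u * L) ≤ c * (u * ((2 / ε) * ((6 : ℝ) ^ (ε / 2) * l ^ (ε / 2)))) := by gcongr
      _ = A * (l ^ (1 - κ / 2) * l ^ (ε / 2)) := by rw [h1, hA]; ring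
      _ ≤ l ^ (ε / 2) * (l ^ (1 - κ / 2) * l ^ (ε / 2)) := by gcongr
      _ = l ^ (1 - κ / 2) * l ^ (ε / 2) * l ^ (ε / 2) := by ring
  calc N + (2 * l + 1) * Real.exp (2 * u + 5 + 3 * C' * u * L) ≤ _ := e1
    _ = _ := e2
    _ ≤ Real.exp (l ^ (1 - κ / 2 + ε)) := Real.exp_le_exp.2 (e4.trans e6)

/-- C2: the upper bound for the count, from the structure theorem -/
theorem upper (h : Struct) : Upper := by
  classical
  intro κ C hκ hκ1 hC hf ε hε
  obtain ⟨C', Y₀, hC', hst⟩ := h κ C hκ hκ1 hC hf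
  obtain ⟨Y₁, hY₁⟩ := theta_half
  set Y := max (max Y₀ Y₁) 2 with hYd
  set N₀ := ⌊Real.exp (Chebyshev.theta Y)⌋₊ with hN₀
  obtain ⟨l₀, hl₀1, hl₀⟩ := asymp κ C' N₀ ε hκ hκ1 hC' (by positivity) hε
  refine ⟨Real.exp l₀, fun x hx => ?_⟩
  have hx0 : 0 < x := lt_of_lt_of_le (Real.exp_pos _) hx
  have hlx : l₀ ≤ Real.log x := by rwa [Real.le_log_iff_exp_le hx0]
  have hx1 : 1 ≤ x := by
    have : 0 ≤ Real.log x := by linarith
    by_contra hc
    have := Real.log_neg hx0 (not_le.1 hc)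
    linarith
  refine le_trans ?_ (hl₀ _ hlx)
  set Z := 2 * Real.log x with hZ
  -- the finite set
  set T := ((Finset.Icc 3 ⌊x⌋₊).filter (fun n => Exc (-C) κ n)) with hT
  have hcnt : cnt (-C) κ x = T.card := by
    unfold cnt
    rw [← Set.ncard_coe_finset]
    congr 1
    ext n
    simp only [hT, Finset.coe_filter, Finset.mem_Icc]
    constructor
    · rintro ⟨h1, h2, h3⟩
      exact ⟨⟨h1, Nat.le_floor h2⟩, h3⟩
    · rintro ⟨⟨h1, h2⟩, h3⟩
      exact ⟨h1, (Nat.le_floor_iff hx0.le).1 h2, h3⟩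
  set S : ℕ → Finset ℕ := fun y => T.filter (fun n => Chebyshev.theta y ≤ Real.log n ∧
    Real.log n < Chebyshev.theta ((y : ℝ) + 1)) with hS
  have hsub : T ⊆ Finset.Icc 1 N₀ ∪ (Finset.Icc Y ⌊Z⌋₊).biUnion S := by
    intro n hn
    have hn' := hn
    simp only [hT, Finset.mem_filter, Finset.mem_Icc] at hn'
    obtain ⟨⟨hn3, hnx⟩, hexc⟩ := hn'
    have hnx' : (n : ℝ) ≤ x := (Nat.le_floor_iff hx0.le).1 hnx
    have hnpos : (0 : ℝ) < n := by positivity
    obtain ⟨y, hy1, hy2⟩ := exists_y n hn3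
    rw [Finset.mem_union]
    rcases lt_or_ge y Y with hyY | hyY
    · left
      rw [Finset.mem_Icc]
      refine ⟨by omega, ?_⟩
      apply Nat.le_floor
      rw [← Real.log_le_iff_le_exp hnpos]
      refine hy2.le.trans (Chebyshev.theta_mono ?_)
      exact_mod_cast hyY
    · right
      rw [Finset.mem_biUnion]
      refine ⟨y, ?_, ?_⟩
      · rw [Finset.mem_Icc]
        refine ⟨hyY, ?_⟩
        apply Nat.le_floor
        have h1 := hY₁ y (by omega)
        have h2 : Real.log n ≤ Real.log x := Real.log_le_log hnpos hnx'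
        rw [hZ]
        linarith
      · simp only [hS, Finset.mem_filter]
        exact ⟨hn, hy1, hy2⟩
  have hZ0 : 0 ≤ Z := by rw [hZ]; linarith
  have hSy : ∀ y ∈ Finset.Icc Y ⌊Z⌋₊, ((S y).card : ℝ) ≤
      Real.exp (2 * Z ^ (1 - κ / 2) + 5 + 3 * C' * Z ^ (1 - κ / 2) * Real.log (2 * Z + 2)) := by
    intro y hy
    rw [Finset.mem_Icc] at hy
    have hy2 : 2 ≤ y := by omega
    refine card_fixed_real y Z κ C' hκ hκ1 hC' hy2 ((Nat.le_floor_iff hZ0).1 hy.2) (S y) ?_
    intro n hn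
    simp only [hS, hT, Finset.mem_filter, Finset.mem_Icc] at hn
    obtain ⟨⟨⟨hn3, hnx⟩, hexc⟩, h1, h2⟩ := hn
    have hn0 : n ≠ 0 := by omega
    refine ⟨hn0, struct_use y n hn0 hy2 κ C' ?_⟩
    exact hst n y (by omega) h1 h2 hexc
  have hcard : (T.card : ℝ) ≤ N₀ + ∑ y ∈ Finset.Icc Y ⌊Z⌋₊, ((S y).card : ℝ) := by
    have h1 : T.card ≤ N₀ + ∑ y ∈ Finset.Icc Y ⌊Z⌋₊, (S y).card := by
      refine (Finset.card_le_card hsub).trans ((Finset.card_union_le _ _).trans ?_)
      rw [Nat.card_Icc, Nat.add_sub_cancel]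
      exact Nat.add_le_add_left Finset.card_biUnion_le _
    exact_mod_cast h1
  rw [hcnt]
  refine hcard.trans ?_
  refine add_le_add le_rfl ?_
  refine (Finset.sum_le_sum hSy).trans ?_
  rw [Finset.sum_const, nsmul_eq_mul]
  gcongr
  rw [Nat.card_Icc]
  have h1 : ((⌊Z⌋₊ + 1 - Y : ℕ) : ℝ) ≤ (⌊Z⌋₊ : ℝ) + 1 := by
    have : (⌊Z⌋₊ + 1 - Y : ℕ) ≤ ⌊Z⌋₊ + 1 := by omega
    exact_mod_cast this
  have h2 := Nat.floor_le hZ0
  linarith

end

end Pool.Agent.H834R2.NicUpper
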