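import Pool.Agent.H834R2.Loop

/-! Translations homotopic to the identity are even. -/

set_option autoImplicit false

open Set Filter Topology
open scoped Topology ContDiff Real

namespace Pool.Agent.H834R2

noncomputable section

lemma polar_of {z ζ : ℂ} {ρ : ℝ} (hρ : 0 < ρ) (h : z ^ 2 = -(ρ : ℂ) * Complex.exp (-ζ)) :
    ∃ r : ℝ, 0 < r ∧ z.re ^ 2 - z.im ^ 2 = r * Real.cos (π - ζ.im) ∧
      2 * z.re * z.im = r * Real.sin (π - ζ.im) := by
  refine ⟨ρ * Real.exp (-ζ.re), by positivity, ?_, ?_⟩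
  · have h1 := congrArg Complex.re h
    rw [Real.cos_pi_sub]
    simp only [Complex.exp_re, Complex.mul_re, Complex.neg_re, Complex.neg_im, Complex.ofReal_re,
      Complex.ofReal_im, Complex.exp_im, Real.cos_neg, pow_two] at h1
    rw [pow_two, pow_two, h1]
    ring
  · have h1 := congrArg Complex.im h
    rw [Real.sin_pi_sub]
    simp only [Complex.exp_re, Complex.mul_im, Complex.neg_re, Complex.neg_im, Complex.ofReal_re,
      Complex.ofReal_im, Complex.exp_im, Real.sin_neg, pow_two] at h1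
    have h2 : 2 * z.re * z.im = z.re * z.im + z.im * z.re := by ring
    rw [h2, h1]
    ring

lemma ten_far {t : ℝ} {m : ℤ} (hm : m ≠ 0) (ht : t ^ 2 ≤ 4) : 16 ≤ (t + 10 * (m : ℝ)) ^ 2 := by
  have h1 : |t| ≤ 2 := abs_le_of_sq_le_sq (by linarith) (by norm_num)
  have h2 : (1 : ℝ) ≤ |(m : ℝ)| := by
    have := Int.one_le_abs hm
    exact_mod_cast this
  have h3 : (10 : ℝ) ≤ |10 * (m : ℝ)| := by
    rw [abs_mul, abs_of_pos (by norm_num : (0 : ℝ) < 10)]
    linarith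
  have h4 : |10 * (m : ℝ)| ≤ |t + 10 * (m : ℝ)| + |t| := by
    have : 10 * (m : ℝ) = (t + 10 * (m : ℝ)) - t := by ring
    calc |10 * (m : ℝ)| = |(t + 10 * (m : ℝ)) - t| := by rw [← this]
      _ ≤ _ := abs_sub _ _
  have h5 : 8 ≤ |t + 10 * (m : ℝ)| := by linarith
  rw [← sq_abs]
  nlinarith

lemma usq_lam_far {m : Fin 4 → ℤ} (hm : ¬ (m 0 = 0 ∧ m 1 = 0 ∧ m 2 = 0)) {ξ : E5}
    (h : usq 0 ξ ≤ 4) : 16 ≤ usq 0 (ξ + lam m) := by
  unfold usq at h ⊢
  have e0 : (ξ + lam m).1 0 = ξ.1 0 + 10 * (m 0 : ℝ) := rfl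
  have e1 : (ξ + lam m).1 1 = ξ.1 1 + 10 * (m 1 : ℝ) := rfl
  have e2 : (ξ + lam m).1 2 = ξ.1 2 + 10 * (m 2 : ℝ) := rfl
  rw [e0, e1, e2]
  simp only [Pi.zero_apply, Int.cast_zero, mul_zero, sub_zero] at h ⊢
  have a0 : ξ.1 0 ^ 2 ≤ 4 := by nlinarith [sq_nonneg (ξ.1 1), sq_nonneg (ξ.1 2)]
  have a1 : ξ.1 1 ^ 2 ≤ 4 := by nlinarith [sq_nonneg (ξ.1 0), sq_nonneg (ξ.1 2)]
  have a2 : ξ.1 2 ^ 2 ≤ 4 := by nlinarith [sq_nonneg (ξ.1 0), sq_nonneg (ξ.1 1)]
  by_cases h0 : m 0 = 0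
  · by_cases h1 : m 1 = 0
    · have h2 : m 2 ≠ 0 := fun h2 => hm ⟨h0, h1, h2⟩
      have := ten_far h2 a2
      nlinarith [sq_nonneg (ξ.1 0 + 10 * (m 0 : ℝ)), sq_nonneg (ξ.1 1 + 10 * (m 1 : ℝ))]
    · have := ten_far h1 a1
      nlinarith [sq_nonneg (ξ.1 0 + 10 * (m 0 : ℝ)), sq_nonneg (ξ.1 2 + 10 * (m 2 : ℝ))]
  · have := ten_far h0 a0
    nlinarith [sq_nonneg (ξ.1 1 + 10 * (m 1 : ℝ)), sq_nonneg (ξ.1 2 + 10 * (m 2 : ℝ))]

lemma zz_far {ξ : E5} (h : 16 ≤ usq 0 ξ) : zz ξ = ⟨0, -1 / 8⟩ := by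
  unfold zz zr zi
  rw [chi_far h]
  simp

lemma zz_odd {m : Fin 4 → ℤ} (h0 : m 0 = 0) (h1 : m 1 = 0) (h2 : m 2 = 0) (h3 : Odd (m 3))
    (ξ : E5) : zz (ξ + lam m) = ⟨-zr ξ, zi ξ⟩ := by
  have e0 : (ξ + lam m).1 0 = ξ.1 0 := by
    have : (ξ + lam m).1 0 = ξ.1 0 + 10 * (m 0 : ℝ) := rfl
    rw [this, h0]; simp
  have e1 : (ξ + lam m).1 1 = ξ.1 1 := by
    have : (ξ + lam m).1 1 = ξ.1 1 + 10 * (m 1 : ℝ) := rfl
    rw [this, h1]; simp
  have e2 : (ξ + lam m).1 2 = ξ.1 2 := by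
    have : (ξ + lam m).1 2 = ξ.1 2 + 10 * (m 2 : ℝ) := rfl
    rw [this, h2]; simp
  have e3 : (ξ + lam m).1 3 = ξ.1 3 + (m 3 : ℝ) := rfl
  have e4 : (ξ + lam m).2 = ξ.2 := by
    show ξ.2 + 0 = ξ.2
    rw [add_zero]
  have eu : usq 0 (ξ + lam m) = usq 0 ξ := by
    unfold usq; rw [e0, e1, e2]
  have er : rq (ξ.1 0) (ξ.1 1) (ξ.1 3 + (m 3 : ℝ)) = -rq (ξ.1 0) (ξ.1 1) (ξ.1 3) := by
    unfold rq
    rw [mul_add, mul_comm π (m 3 : ℝ), Real.cos_add_int_mul_pi, Real.sin_add_int_mul_pi,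
      h3.neg_one_zpow]
    ring
  unfold zz zr zi
  rw [eu, e0, e1, e3, e4, er]
  congr 1
  ring

/-- parity of translations that are homotopic to the identity -/
theorem parity (F : C(unitInterval × S, S)) (hF0 : ∀ σ, F (0, σ) = σ) (v : Lat)
    (hF1 : ∀ σ, F (1, σ) = v • σ) : ∃ w : Lat, v = w * w := by
  set m : Fin 4 → ℤ := v.toAdd with hm
  -- the homotopy of quotients
  let Gf : unitInterval × S → {z : ℂ // z ≠ 0} := fun x =>
    ⟨zz (F x).1 / zz x.2.1, div_ne_zero (zz_ne (F x).2) (zz_ne x.2.2)⟩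
  have hGc : Continuous Gf := by
    apply Continuous.subtype_mk
    apply Continuous.div
    · exact continuous_zz.comp (continuous_subtype_val.comp F.continuous)
    · exact continuous_zz.comp (continuous_subtype_val.comp continuous_snd)
    · intro x
      exact zz_ne x.2.2
  let H : C(unitInterval × S, {z : ℂ // z ≠ 0}) := ⟨Gf, hGc⟩
  have hH0 : ∀ σ, H (0, σ) = (fun z : ℂ => (⟨_, z.exp_ne_zero⟩ : {z : ℂ // z ≠ 0}))
      ((ContinuousMap.const S (0 : ℂ)) σ) := by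
    intro σ
    apply Subtype.ext
    show zz (F (0, σ)).1 / zz σ.1 = Complex.exp 0
    rw [hF0, Complex.exp_zero]
    exact div_self (zz_ne σ.2)
  set L := Complex.isCoveringMap_exp.liftHomotopy H (ContinuousMap.const S (0 : ℂ)) hH0 with hL
  have hLl := Complex.isCoveringMap_exp.liftHomotopy_lifts H (ContinuousMap.const S (0 : ℂ)) hH0
  have hexp : ∀ σ : S, Complex.exp (L (1, σ)) = zz (v • σ).1 / zz σ.1 := by
    intro σ
    have h1 := congrArg Subtype.val (congrFun hLl (1, σ))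
    rw [← hF1]
    exact h1
  have hLc : Continuous (fun σ : S => L (1, σ)) :=
    L.continuous.comp (continuous_const.prodMk continuous_id)
  have hmul : ∀ σ : S, zz (v • σ).1 = Complex.exp (L (1, σ)) * zz σ.1 := by
    intro σ
    rw [hexp, div_mul_cancel₀ _ (zz_ne σ.2)]
  by_cases hA : m 0 = 0 ∧ m 1 = 0 ∧ m 2 = 0
  · rcases Int.even_or_odd (m 3) with h3 | h3
    · -- even
      obtain ⟨k, hk⟩ := h3
      refine ⟨Multiplicative.ofAdd ![0, 0, 0, k], ?_⟩
      apply Multiplicative.toAdd.injective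
      rw [toAdd_mul, ← hm]
      funext i
      fin_cases i
      · exact hA.1
      · exact hA.2.1
      · exact hA.2.2
      · exact hk
    · -- odd
      exfalso
      apply no_log (fun σ => π - (L (1, σ)).im)
      · exact continuous_const.sub (Complex.continuous_im.comp hLc)
      · intro σ hσ
        have h1 := hmul σ
        have h2 : zz (v • σ).1 = ⟨-zr σ.1, zi σ.1⟩ := zz_odd hA.1 hA.2.1 hA.2.2 h3 σ.1
        rw [h2] at h1
        have hρ : 0 < zr σ.1 ^ 2 + zi σ.1 ^ 2 := by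
          have := z_ne σ.2
          by_contra hcon
          push Not at hcon
          apply this
          constructor
          · nlinarith [sq_nonneg (zr σ.1), sq_nonneg (zi σ.1)]
          · nlinarith [sq_nonneg (zr σ.1), sq_nonneg (zi σ.1)]
        apply polar_of (z := zz σ.1) (ζ := L (1, σ)) hρ
        have h3 : zz σ.1 * ⟨-zr σ.1, zi σ.1⟩ = -((zr σ.1 ^ 2 + zi σ.1 ^ 2 : ℝ) : ℂ) := by
          apply Complex.ext
          · simp [zz, -Complex.ofReal_add, -Complex.ofReal_pow]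
            ring
          · simp [zz, -Complex.ofReal_add, -Complex.ofReal_pow]
            ring
        rw [Complex.exp_neg, ← h3, h1]
        field_simp
  · exfalso
    apply no_log (fun σ => π - (2 * L (1, σ)).im)
    · exact continuous_const.sub (Complex.continuous_im.comp (continuous_const.mul hLc))
    · intro σ hσ
      have h1 := hmul σ
      have h2 : zz (v • σ).1 = ⟨0, -1 / 8⟩ := zz_far (usq_lam_far hA hσ)
      rw [h2] at h1
      apply polar_of (z := zz σ.1) (ζ := 2 * L (1, σ)) (ρ := 1 / 64) (by norm_num)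
      have h3 : (⟨0, -1 / 8⟩ : ℂ) ^ 2 = -((1 / 64 : ℝ) : ℂ) := by
        rw [pow_two]
        apply Complex.ext
        · simp
          norm_num
        · simp
      have h4 : Complex.exp (-(2 * L (1, σ))) = (Complex.exp (L (1, σ)))⁻¹ ^ 2 := by
        rw [← Complex.exp_neg, ← Complex.exp_nat_mul]
        congr 1
        push_cast
        ring
      rw [h4, ← h3, h1]
      field_simp

end

end Pool.Agent.H834R2
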