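import Pool.Agent.H834R2.Conn

/-! The quotient of the hypersurface by the lattice. -/

set_option autoImplicit false

open Set Filter Topology
open scoped Topology ContDiff Real

namespace Pool.Agent.H834R2

noncomputable section

/-- The lattice, written multiplicatively -/
abbrev Lat : Type := Multiplicative (Fin 4 → ℤ)

lemma lam_add (m k : Fin 4 → ℤ) : lam (m + k) = lam m + lam k := by
  apply E5_ext
  · show 10 * ((m 0 + k 0 : ℤ) : ℝ) = 10 * (m 0 : ℝ) + 10 * (k 0 : ℝ)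
    push_cast; ring
  · show 10 * ((m 1 + k 1 : ℤ) : ℝ) = 10 * (m 1 : ℝ) + 10 * (k 1 : ℝ)
    push_cast; ring
  · show 10 * ((m 2 + k 2 : ℤ) : ℝ) = 10 * (m 2 : ℝ) + 10 * (k 2 : ℝ)
    push_cast; ring
  · show ((m 3 + k 3 : ℤ) : ℝ) = (m 3 : ℝ) + (k 3 : ℝ)
    push_cast; ring
  · show (0 : ℝ) = 0 + 0
    ring

lemma lam_zero : lam 0 = 0 := by
  apply E5_ext
  · show 10 * ((0 : ℤ) : ℝ) = 0
    simp
  · show 10 * ((0 : ℤ) : ℝ) = 0
    simp
  · show 10 * ((0 : ℤ) : ℝ) = 0
    simp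
  · show ((0 : ℤ) : ℝ) = 0
    simp
  · rfl

instance : MulAction Lat S where
  smul g σ := ⟨σ.1 + lam g.toAdd, by
    show Phi _ = 0
    rw [Phi_add]; exact σ.2⟩
  one_smul σ := by
    apply Subtype.ext
    show σ.1 + lam 0 = σ.1
    rw [lam_zero, add_zero]
  mul_smul g h σ := by
    apply Subtype.ext
    show σ.1 + lam (g.toAdd + h.toAdd) = (σ.1 + lam h.toAdd) + lam g.toAdd
    rw [lam_add]; abel

lemma smul_val (g : Lat) (σ : S) : (g • σ).1 = σ.1 + lam g.toAdd := rfl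

instance : ContinuousConstSMul Lat S where
  continuous_const_smul g := by
    apply Continuous.subtype_mk
    exact continuous_subtype_val.add continuous_const

lemma lam_inj {m k : Fin 4 → ℤ} (h : lam m = lam k) : m = k := by
  have h0 : 10 * (m 0 : ℝ) = 10 * (k 0 : ℝ) := congrArg (fun ξ : E5 => ξ.1 0) h
  have h1 : 10 * (m 1 : ℝ) = 10 * (k 1 : ℝ) := congrArg (fun ξ : E5 => ξ.1 1) h
  have h2 : 10 * (m 2 : ℝ) = 10 * (k 2 : ℝ) := congrArg (fun ξ : E5 => ξ.1 2) h
  have h3 : (m 3 : ℝ) = (k 3 : ℝ) := congrArg (fun ξ : E5 => ξ.1 3) h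
  funext i
  fin_cases i
  · exact_mod_cast (mul_left_cancel₀ (by norm_num : (10 : ℝ) ≠ 0) h0)
  · exact_mod_cast (mul_left_cancel₀ (by norm_num : (10 : ℝ) ≠ 0) h1)
  · exact_mod_cast (mul_left_cancel₀ (by norm_num : (10 : ℝ) ≠ 0) h2)
  · exact_mod_cast h3

instance : IsCancelSMul Lat S where
  right_cancel' g h σ e := by
    have h1 : σ.1 + lam g.toAdd = σ.1 + lam h.toAdd := congrArg Subtype.val e
    have h2 := lam_inj (add_left_cancel h1)
    exact Multiplicative.toAdd.injective h2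

lemma coord_le_norm (v : V4) (i : Fin 4) : |v i| ≤ ‖v‖ := PiLp.norm_apply_le v i

instance : ProperlyDiscontinuousSMul Lat S where
  finite_disjoint_inter_image := by
    intro K L hK hL
    have hK' : IsCompact (Subtype.val '' K) := hK.image continuous_subtype_val
    have hL' : IsCompact (Subtype.val '' L) := hL.image continuous_subtype_val
    obtain ⟨A, hA⟩ := hK'.isBounded.exists_norm_le
    obtain ⟨B, hB⟩ := hL'.isBounded.exists_norm_le
    set N : ℤ := ⌈A + B⌉ with hN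
    have hfin : Set.Finite (Icc (fun _ => -N) (fun _ => N) : Set (Fin 4 → ℤ)) := Set.finite_Icc _ _
    apply (hfin.preimage (Multiplicative.toAdd.injective.injOn)).subset
    rintro g ⟨_, ⟨⟨σ, hσ, rfl⟩, hσL⟩⟩
    have h1 := hA σ.1 ⟨σ, hσ, rfl⟩
    have h2 := hB (g • σ).1 ⟨g • σ, hσL, rfl⟩
    rw [smul_val] at h2
    have h3 : ‖lam g.toAdd‖ ≤ A + B := by
      have : lam g.toAdd = (σ.1 + lam g.toAdd) - σ.1 := by abel
      rw [this]
      calc ‖(σ.1 + lam g.toAdd) - σ.1‖ ≤ ‖σ.1 + lam g.toAdd‖ + ‖σ.1‖ := norm_sub_le _ _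
        _ ≤ B + A := add_le_add h2 h1
        _ = A + B := add_comm _ _
    have h4 : ‖(lam g.toAdd).1‖ ≤ A + B := (norm_fst_le _).trans h3
    have h5 : ∀ i, |(lam g.toAdd).1 i| ≤ A + B := fun i => (coord_le_norm _ i).trans h4
    have h6 : ∀ i, |((g.toAdd i : ℤ) : ℝ)| ≤ A + B := by
      intro i
      fin_cases i
      · have := h5 0
        rw [lam_0, abs_mul, abs_of_pos (by norm_num : (0 : ℝ) < 10)] at this
        have h7 := abs_nonneg ((g.toAdd 0 : ℤ) : ℝ)
        show |((g.toAdd 0 : ℤ) : ℝ)| ≤ A + B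
        linarith
      · have := h5 1
        rw [lam_1, abs_mul, abs_of_pos (by norm_num : (0 : ℝ) < 10)] at this
        have h7 := abs_nonneg ((g.toAdd 1 : ℤ) : ℝ)
        show |((g.toAdd 1 : ℤ) : ℝ)| ≤ A + B
        linarith
      · have := h5 2
        rw [lam_2, abs_mul, abs_of_pos (by norm_num : (0 : ℝ) < 10)] at this
        have h7 := abs_nonneg ((g.toAdd 2 : ℤ) : ℝ)
        show |((g.toAdd 2 : ℤ) : ℝ)| ≤ A + B
        linarith
      · have := h5 3
        rw [lam_3] at this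
        exact this
    have h7 : ∀ i, |g.toAdd i| ≤ N := by
      intro i
      have h8 : (|((g.toAdd i : ℤ) : ℝ)|) ≤ (N : ℝ) := (h6 i).trans (Int.le_ceil _)
      exact_mod_cast h8
    exact ⟨fun i => (abs_le.1 (h7 i)).1, fun i => (abs_le.1 (h7 i)).2⟩

instance : LocallyCompactSpace S := isClosed_S.isClosedEmbedding_subtypeVal.locallyCompactSpace

/-- The compact manifold -/
def X : Type := MulAction.orbitRel.Quotient Lat S

instance : TopologicalSpace X :=
  inferInstanceAs (TopologicalSpace (MulAction.orbitRel.Quotient Lat S))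

/-- the projection -/
def pr : S → X := Quotient.mk (MulAction.orbitRel Lat S)

lemma pr_cov : IsQuotientCoveringMap pr Lat :=
  isQuotientCoveringMap_quotientMk_of_properlyDiscontinuousSMul

instance : T2Space X := inferInstanceAs (T2Space (Quotient (MulAction.orbitRel Lat S)))

instance : PathConnectedSpace S := isPathConnected_iff_pathConnectedSpace.1 isPathConnected_S

instance : ConnectedSpace S := inferInstance

instance : ConnectedSpace X := pr_cov.surjective.connectedSpace pr_cov.continuous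

lemma pr_smul (g : Lat) (σ : S) : pr (g • σ) = pr σ := pr_cov.map_smul g

lemma continuous_pr : Continuous pr := pr_cov.continuous

/-- the value of `y` on the hypersurface -/
lemma S_y_bounds {ξ : E5} (h : Phi ξ = 0) : 1 / 4 ≤ ξ.2 ∧ ξ.2 < 3 / 2 := by
  have h1 : Fq (rq (ξ.1 0 - 10 * cell ξ 0) (ξ.1 1 - 10 * cell ξ 1) (ξ.1 3))
    (rp (ξ.1 0 - 10 * cell ξ 0) (ξ.1 1 - 10 * cell ξ 1) (ξ.1 3)) (ξ.1 2 - 10 * cell ξ 2) ξ.2 = 0 := h
  unfold Fq at h1
  have h2 := zero_facts (sub_eq_zero.1 h1)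
  exact ⟨h2.1, h2.2.1⟩

/-- a compact set meeting all orbits -/
def KS : Set S := {σ | (∀ i : Fin 3, |σ.1.1 i.castSucc| ≤ 5) ∧ σ.1.1 3 ∈ Icc (0 : ℝ) 1}

lemma isCompact_KS : IsCompact KS := by
  rw [Topology.IsEmbedding.subtypeVal.isCompact_iff]
  have hcl : IsClosed (Subtype.val '' KS : Set E5) := by
    have : (Subtype.val '' KS : Set E5) = S ∩ ({ξ | ∀ i : Fin 3, |ξ.1 i.castSucc| ≤ 5} ∩
        {ξ | ξ.1 3 ∈ Icc (0 : ℝ) 1}) := by
      ext ξ
      constructor
      · rintro ⟨σ, hσ, rfl⟩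
        exact ⟨σ.2, hσ.1, hσ.2⟩
      · rintro ⟨h1, h2, h3⟩
        exact ⟨⟨ξ, h1⟩, ⟨h2, h3⟩, rfl⟩
    rw [this]
    apply isClosed_S.inter (IsClosed.inter _ _)
    · rw [Set.ofPred_forall]
      apply isClosed_iInter
      intro i
      exact isClosed_le (continuous_coord _).abs continuous_const
    · exact isClosed_Icc.preimage (continuous_coord 3)
  apply Metric.isCompact_of_isClosed_isBounded hcl
  rw [isBounded_iff_forall_norm_le]
  refine ⟨20, ?_⟩
  rintro _ ⟨σ, ⟨h1, h2⟩, rfl⟩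
  have hy := S_y_bounds σ.2
  rw [Prod.norm_def]
  apply max_le
  · rw [EuclideanSpace.norm_eq]
    rw [Real.sqrt_le_left (by norm_num)]
    have h0 := h1 0
    have h1' := h1 1
    have h2' := h1 2
    rw [Fin.sum_univ_four]
    simp only [Real.norm_eq_abs]
    have a0 : |σ.1.1 0| ≤ 5 := h0
    have a1 : |σ.1.1 1| ≤ 5 := h1'
    have a2 : |σ.1.1 2| ≤ 5 := h2'
    have a3 : |σ.1.1 3| ≤ 1 := by
      rw [abs_of_nonneg h2.1]; exact h2.2
    have b0 := abs_nonneg (σ.1.1 0)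
    have b1 := abs_nonneg (σ.1.1 1)
    have b2 := abs_nonneg (σ.1.1 2)
    have b3 := abs_nonneg (σ.1.1 3)
    nlinarith
  · rw [Real.norm_eq_abs, abs_of_nonneg (by linarith [hy.1])]
    linarith [hy.2]

/-- moving a point into the compact set -/
lemma exists_smul_mem_KS (σ : S) : ∃ g : Lat, g • σ ∈ KS := by
  refine ⟨Multiplicative.ofAdd ![-round (σ.1.1 0 / 10), -round (σ.1.1 1 / 10),
    -round (σ.1.1 2 / 10), -⌊σ.1.1 3⌋], ?_, ?_⟩
  · intro i
    fin_cases i
    · show |σ.1.1 0 + 10 * ((-round (σ.1.1 0 / 10) : ℤ) : ℝ)| ≤ 5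
      have := round_cell (σ.1.1 0)
      push_cast
      have e : σ.1.1 0 + 10 * (-(round (σ.1.1 0 / 10) : ℝ)) = σ.1.1 0 - 10 * round (σ.1.1 0 / 10) := by
        ring
      rw [e]; exact this
    · show |σ.1.1 1 + 10 * ((-round (σ.1.1 1 / 10) : ℤ) : ℝ)| ≤ 5
      have := round_cell (σ.1.1 1)
      push_cast
      have e : σ.1.1 1 + 10 * (-(round (σ.1.1 1 / 10) : ℝ)) = σ.1.1 1 - 10 * round (σ.1.1 1 / 10) := by
        ring
      rw [e]; exact this
    · show |σ.1.1 2 + 10 * ((-round (σ.1.1 2 / 10) : ℤ) : ℝ)| ≤ 5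
      have := round_cell (σ.1.1 2)
      push_cast
      have e : σ.1.1 2 + 10 * (-(round (σ.1.1 2 / 10) : ℝ)) = σ.1.1 2 - 10 * round (σ.1.1 2 / 10) := by
        ring
      rw [e]; exact this
  · show σ.1.1 3 + ((-⌊σ.1.1 3⌋ : ℤ) : ℝ) ∈ Icc (0 : ℝ) 1
    push_cast
    constructor
    · linarith [Int.floor_le (σ.1.1 3)]
    · linarith [Int.lt_floor_add_one (σ.1.1 3)]

instance : CompactSpace X := by
  constructor
  have himg : (univ : Set X) = pr '' KS := by
    apply Subset.antisymm _ (subset_univ _)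
    intro y _
    obtain ⟨σ, rfl⟩ := pr_cov.surjective y
    obtain ⟨g, hg⟩ := exists_smul_mem_KS σ
    exact ⟨g • σ, hg, pr_smul g σ⟩
  rw [himg]
  exact isCompact_KS.image continuous_pr

end

end Pool.Agent.H834R2
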