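import Mathlib

/-! Scalar functions entering the definition of the hypersurface. -/

set_option autoImplicit false

open Set Filter Topology
open scoped Topology ContDiff

namespace Pool.Agent.H834R2

noncomputable section

/-- the profile function: nonpositive for `T ≤ 1/8`, equal to `1` for `T ≥ 1/4` -/
def hp (T : ℝ) : ℝ := 1 - Real.exp 8 * expNegInvGlue (1 / 4 - T)

lemma contDiff_hp : ContDiff ℝ ∞ hp := by
  unfold hp
  exact contDiff_const.sub (contDiff_const.mul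
    ((expNegInvGlue.contDiff (n := ⊤)).comp (contDiff_const.sub contDiff_id)))

lemma continuous_hp : Continuous hp := contDiff_hp.continuous

lemma hp_le_one (T : ℝ) : hp T ≤ 1 := by
  unfold hp
  have := expNegInvGlue.nonneg (1 / 4 - T)
  have := Real.exp_pos 8
  nlinarith [mul_nonneg (Real.exp_pos 8).le (expNegInvGlue.nonneg (1 / 4 - T))]

lemma hp_eq_one {T : ℝ} (h : 1 / 4 ≤ T) : hp T = 1 := by
  unfold hp
  rw [expNegInvGlue.zero_of_nonpos (by linarith), mul_zero, sub_zero]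

lemma hp_of_lt {T : ℝ} (h : T < 1 / 4) : hp T = 1 - Real.exp (8 - (1 / 4 - T)⁻¹) := by
  unfold hp expNegInvGlue
  rw [if_neg (by linarith), ← Real.exp_add]
  ring_nf

lemma hp_nonpos {T : ℝ} (h : T ≤ 1 / 8) : hp T ≤ 0 := by
  rw [hp_of_lt (by linarith)]
  have h1 : (1 / 4 - T)⁻¹ ≤ 8 := by
    rw [inv_le_comm₀ (by linarith) (by norm_num)]
    linarith
  have h2 : 1 ≤ Real.exp (8 - (1 / 4 - T)⁻¹) := Real.one_le_exp (by linarith)
  linarith

lemma hp_mono : Monotone hp := by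
  intro a b hab
  by_cases hb : 1 / 4 ≤ b
  · rw [hp_eq_one hb]; exact hp_le_one a
  · push Not at hb
    rw [hp_of_lt hb, hp_of_lt (by linarith)]
    have h1 : (1 / 4 - a)⁻¹ ≤ (1 / 4 - b)⁻¹ := by
      apply inv_anti₀ (by linarith) (by linarith)
    have h2 : Real.exp (8 - (1 / 4 - b)⁻¹) ≤ Real.exp (8 - (1 / 4 - a)⁻¹) :=
      Real.exp_le_exp.2 (by linarith)
    linarith

lemma hp_lower (T : ℝ) : 1 - Real.exp 8 ≤ hp T := by
  unfold hp
  have h1 : expNegInvGlue (1 / 4 - T) ≤ 1 := by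
    unfold expNegInvGlue
    split_ifs with h2
    · exact zero_le_one
    · rw [Real.exp_le_one_iff]
      push Not at h2
      have : 0 < (1 / 4 - T)⁻¹ := inv_pos.2 h2
      linarith
  nlinarith [Real.exp_pos 8]

lemma hasDerivAt_hp_lt {T : ℝ} (h : T < 1 / 4) :
    HasDerivAt hp ((1 - hp T) / (1 / 4 - T) ^ 2) T := by
  have h1 : HasDerivAt (fun T : ℝ => 1 / 4 - T) (-1) T := by
    exact (hasDerivAt_id T).const_sub (1 / 4)
  have hne : (1 / 4 - T) ≠ 0 := by linarith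
  have h2 : HasDerivAt (fun T : ℝ => 8 - (1 / 4 - T)⁻¹) (-(1 / (1 / 4 - T) ^ 2)) T := by
    have := (h1.inv hne).const_sub 8
    rw [neg_neg] at this
    exact this
  have h3 : HasDerivAt (fun T : ℝ => 1 - Real.exp (8 - (1 / 4 - T)⁻¹))
      (-(Real.exp (8 - (1 / 4 - T)⁻¹) * -(1 / (1 / 4 - T) ^ 2))) T := h2.exp.const_sub 1
  have h4 : HasDerivAt hp (-(Real.exp (8 - (1 / 4 - T)⁻¹) * -(1 / (1 / 4 - T) ^ 2))) T := by
    apply h3.congr_of_eventuallyEq
    filter_upwards [isOpen_Iio.mem_nhds h] with z hz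
    exact hp_of_lt hz
  convert h4 using 1
  rw [hp_of_lt h]
  ring

lemma hasDerivAt_hp_ge {T : ℝ} (h : 1 / 4 ≤ T) : HasDerivAt hp 0 T := by
  have h1 : HasDerivAt hp (deriv hp T) T :=
    ((contDiff_hp.differentiable (by simp)) T).hasDerivAt
  have h2 : IsLocalMax hp T := by
    apply Eventually.of_forall
    intro z
    show hp z ≤ hp T
    rw [hp_eq_one h]; exact hp_le_one z
  rw [h2.deriv_eq_zero] at h1
  exact h1

/-- auxiliary cutoff, zero for `y ≥ 1/8` and `1/4` for `y ≤ 0` -/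
def psi (y : ℝ) : ℝ := Real.smoothTransition (1 - 8 * y) / 4

lemma contDiff_psi : ContDiff ℝ ∞ psi := by
  unfold psi
  exact ((Real.smoothTransition.contDiff (n := ⊤)).comp
    (contDiff_const.sub (contDiff_const.mul contDiff_id))).div_const 4

lemma psi_nonneg (y : ℝ) : 0 ≤ psi y := by
  unfold psi
  have := Real.smoothTransition.nonneg (1 - 8 * y)
  positivity

lemma psi_of_nonpos {y : ℝ} (h : y ≤ 0) : psi y = 1 / 4 := by
  unfold psi
  rw [Real.smoothTransition.one_of_one_le (by linarith)]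

lemma psi_of_ge {y : ℝ} (h : 1 / 8 ≤ y) : psi y = 0 := by
  unfold psi
  rw [Real.smoothTransition.zero_of_nonpos (by linarith), zero_div]

/-- the tube function -/
def Tq (q p c y : ℝ) : ℝ := (q ^ 2 + y - 1) ^ 2 + p ^ 2 + c ^ 2 + psi y

lemma Tq_nonneg (q p c y : ℝ) : 0 ≤ Tq q p c y := by
  unfold Tq
  have := psi_nonneg y
  positivity

lemma Tq_of_nonpos {q p c y : ℝ} (h : y ≤ 0) : 1 / 4 ≤ Tq q p c y := by
  unfold Tq
  rw [psi_of_nonpos h]
  nlinarith [sq_nonneg (q ^ 2 + y - 1), sq_nonneg p, sq_nonneg c]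

lemma Tq_far {q p c y : ℝ} (h : 4 ≤ q ^ 2 + p ^ 2 + c ^ 2) : 1 / 4 ≤ Tq q p c y := by
  by_cases hy : y ≤ 0
  · exact Tq_of_nonpos hy
  · push Not at hy
    unfold Tq
    have h1 := psi_nonneg y
    by_cases h2 : 1 / 4 ≤ p ^ 2 + c ^ 2
    · nlinarith [sq_nonneg (q ^ 2 + y - 1)]
    · push Not at h2
      have h3 : 11 / 4 ≤ q ^ 2 + y - 1 := by linarith
      nlinarith [sq_nonneg p, sq_nonneg c]

lemma Tq_high {q p c y : ℝ} (h : 3 / 2 ≤ y) : 1 / 4 ≤ Tq q p c y := by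
  unfold Tq
  have h1 := psi_nonneg y
  have h2 : 1 / 2 ≤ q ^ 2 + y - 1 := by nlinarith [sq_nonneg q]
  nlinarith [sq_nonneg p, sq_nonneg c]

/-- facts about the points of the hypersurface -/
lemma zero_facts {q p c y : ℝ} (h : y * hp (Tq q p c y) = 1 / 4) :
    1 / 4 ≤ y ∧ y < 3 / 2 ∧ 0 < hp (Tq q p c y) ∧ 1 / 8 < Tq q p c y ∧ psi y = 0 := by
  have hy0 : 0 < y := by
    by_contra hy
    push Not at hy
    rw [hp_eq_one (Tq_of_nonpos hy)] at h
    linarith
  have hpos : 0 < hp (Tq q p c y) := by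
    by_contra hcon
    push Not at hcon
    nlinarith
  have hy1 : 1 / 4 ≤ y := by
    have := hp_le_one (Tq q p c y)
    nlinarith
  refine ⟨hy1, ?_, hpos, ?_, psi_of_ge (by linarith)⟩
  · by_contra hcon
    push Not at hcon
    rw [hp_eq_one (Tq_high hcon)] at h
    linarith
  · by_contra hcon
    push Not at hcon
    linarith [hp_nonpos hcon]

/-- the local equation -/
def Fq (q p c y : ℝ) : ℝ := y * hp (Tq q p c y) - 1 / 4

lemma Fq_far {q p c y : ℝ} (h : 4 ≤ q ^ 2 + p ^ 2 + c ^ 2) : Fq q p c y = y - 1 / 4 := by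
  unfold Fq
  rw [hp_eq_one (Tq_far h), mul_one]

lemma Fq_bound (q p c y : ℝ) : |Fq q p c y - y| ≤ 3 / 2 * Real.exp 8 + 1 / 4 := by
  have he := Real.exp_pos 8
  unfold Fq
  by_cases h : 1 / 4 ≤ Tq q p c y
  · rw [hp_eq_one h]
    have : y * 1 - 1 / 4 - y = -(1 / 4) := by ring
    rw [this, abs_neg, abs_of_pos (by norm_num)]
    linarith
  · have hy0 : 0 < y := by
      by_contra hy
      push Not at hy
      exact h (Tq_of_nonpos hy)
    have hy1 : y < 3 / 2 := by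
      by_contra hy
      push Not at hy
      exact h (Tq_high hy)
    have h1 := hp_le_one (Tq q p c y)
    have h2 := hp_lower (Tq q p c y)
    rw [abs_le]
    constructor
    · nlinarith
    · nlinarith

/-- the key quantitative estimate on the symmetry axis -/
lemma axis_estimate {y : ℝ} (h : y * hp (Tq 0 0 0 y) = 1 / 4) (hT : Tq 0 0 0 y < 1 / 4)
    (hd : hp (Tq 0 0 0 y) + y * ((1 - hp (Tq 0 0 0 y)) / (1 / 4 - Tq 0 0 0 y) ^ 2 * (2 * (y - 1))) = 0) :
    False := by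
  obtain ⟨hy1, hy2, hpos, hT2, hpsi⟩ := zero_facts h
  have hTe : Tq 0 0 0 y = (y - 1) ^ 2 := by
    unfold Tq
    rw [hpsi]; ring
  set H := hp (Tq 0 0 0 y) with hH
  rw [hTe] at hT hT2 hd
  have hH1 : H ≤ 1 := hp_le_one _
  have hden : 0 < 1 / 4 - (y - 1) ^ 2 := by linarith
  have hden2 : (1 / 4 - (y - 1) ^ 2) ^ 2 < 1 / 64 := by nlinarith
  have hden3 : 0 < (1 / 4 - (y - 1) ^ 2) ^ 2 := by positivity
  by_cases hy : 1 ≤ y
  · have h1 : 0 ≤ y * ((1 - H) / (1 / 4 - (y - 1) ^ 2) ^ 2 * (2 * (y - 1))) := by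
      apply mul_nonneg (by linarith)
      apply mul_nonneg
      · apply div_nonneg (by linarith) hden3.le
      · linarith
    linarith
  · push Not at hy
    have hy3 : 1 / 2 < y := by nlinarith
    have hy4 : 1 / 3 < 1 - y := by nlinarith
    have hHlt : H < 1 / 2 := by nlinarith
    have h1 : 32 < (1 - H) / (1 / 4 - (y - 1) ^ 2) ^ 2 := by
      rw [lt_div_iff₀ hden3]
      nlinarith
    have h2 : y * ((1 - H) / (1 / 4 - (y - 1) ^ 2) ^ 2 * (2 * (y - 1))) =
        -(y * (2 * (1 - y)) * ((1 - H) / (1 / 4 - (y - 1) ^ 2) ^ 2)) := by ring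
    rw [h2] at hd
    have h3 : 1 / 3 < y * (2 * (1 - y)) := by nlinarith
    nlinarith

end

end Pool.Agent.H834R2
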