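import Pool.Agent.H834R2.Scal

/-! The local equation is regular. -/

set_option autoImplicit false

open Set Filter Topology
open scoped Topology ContDiff

namespace Pool.Agent.H834R2

lemma hasDerivAt_hp (T : ℝ) : HasDerivAt hp (deriv hp T) T :=
  ((contDiff_hp.differentiable (by simp)) T).hasDerivAt

lemma dq {q p c y : ℝ} : HasDerivAt (fun t => Fq (q + t) p c y)
    (y * (deriv hp (Tq q p c y) * (2 * (q ^ 2 + y - 1) * (2 * q)))) 0 := by
  have h0 : HasDerivAt (fun t : ℝ => q + t) 1 0 := (hasDerivAt_id 0).const_add q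
  have h1 : HasDerivAt (fun t : ℝ => Tq (q + t) p c y) (2 * (q ^ 2 + y - 1) * (2 * q)) 0 := by
    have h2 := ((((((h0.pow 2).add_const y).sub_const 1).pow 2).add_const (p ^ 2)).add_const
      (c ^ 2)).add_const (psi y)
    exact h2.congr_deriv (by simp)
  have h3 : HasDerivAt hp (deriv hp (Tq q p c y)) (Tq (q + 0) p c y) := by
    rw [add_zero]; exact hasDerivAt_hp _
  exact ((h3.comp (0 : ℝ) h1).const_mul y).sub_const (1 / 4)

lemma dp {q p c y : ℝ} : HasDerivAt (fun t => Fq q (p + t) c y)
    (y * (deriv hp (Tq q p c y) * (2 * p))) 0 := by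
  have h0 : HasDerivAt (fun t : ℝ => p + t) 1 0 := (hasDerivAt_id 0).const_add p
  have h1 : HasDerivAt (fun t : ℝ => Tq q (p + t) c y) (2 * p) 0 := by
    have h2 := (((h0.pow 2).const_add ((q ^ 2 + y - 1) ^ 2)).add_const
      (c ^ 2)).add_const (psi y)
    exact h2.congr_deriv (by simp)
  have h3 : HasDerivAt hp (deriv hp (Tq q p c y)) (Tq q (p + 0) c y) := by
    rw [add_zero]; exact hasDerivAt_hp _
  exact ((h3.comp (0 : ℝ) h1).const_mul y).sub_const (1 / 4)

lemma dc {q p c y : ℝ} : HasDerivAt (fun t => Fq q p (c + t) y)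
    (y * (deriv hp (Tq q p c y) * (2 * c))) 0 := by
  have h0 : HasDerivAt (fun t : ℝ => c + t) 1 0 := (hasDerivAt_id 0).const_add c
  have h1 : HasDerivAt (fun t : ℝ => Tq q p (c + t) y) (2 * c) 0 := by
    have h2 := ((h0.pow 2).const_add ((q ^ 2 + y - 1) ^ 2 + p ^ 2)).add_const (psi y)
    exact h2.congr_deriv (by simp)
  have h3 : HasDerivAt hp (deriv hp (Tq q p c y)) (Tq q p (c + 0) y) := by
    rw [add_zero]; exact hasDerivAt_hp _
  exact ((h3.comp (0 : ℝ) h1).const_mul y).sub_const (1 / 4)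

lemma dy {q p c y : ℝ} (hy : 1 / 8 < y) : HasDerivAt (fun t => Fq q p c (y + t))
    (hp (Tq q p c y) + y * (deriv hp (Tq q p c y) * (2 * (q ^ 2 + y - 1)))) 0 := by
  have h0 : HasDerivAt (fun t : ℝ => y + t) 1 0 := (hasDerivAt_id 0).const_add y
  have hpsi : HasDerivAt (fun t : ℝ => psi (y + t)) 0 0 := by
    apply (hasDerivAt_const (0 : ℝ) (0 : ℝ)).congr_of_eventuallyEq
    have : ∀ᶠ t in 𝓝 (0 : ℝ), 1 / 8 < y + t := by
      have hc : ContinuousAt (fun t : ℝ => y + t) 0 := by fun_prop
      apply hc.eventually_mem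
      apply isOpen_Ioi.mem_nhds
      simpa using hy
    filter_upwards [this] with t ht
    exact psi_of_ge ht.le
  have h1 : HasDerivAt (fun t : ℝ => Tq q p c (y + t)) (2 * (q ^ 2 + y - 1)) 0 := by
    have h2 := (((((h0.const_add (q ^ 2)).sub_const 1).pow 2).add_const (p ^ 2)).add_const
      (c ^ 2)).add hpsi
    have h3 := h2.congr_deriv (g' := 2 * (q ^ 2 + y - 1)) (by simp [add_sub_assoc])
    exact h3
  have h3 : HasDerivAt hp (deriv hp (Tq q p c y)) (Tq q p c (y + 0)) := by
    rw [add_zero]; exact hasDerivAt_hp _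
  have h4 := (h0.mul (h3.comp (0 : ℝ) h1)).sub_const (1 / 4)
  exact h4.congr_deriv (by simp)

/-- the local equation is regular -/
lemma reg_scalar {q p c y : ℝ} (h : Fq q p c y = 0)
    (hq : HasDerivAt (fun t => Fq (q + t) p c y) 0 0)
    (hp' : HasDerivAt (fun t => Fq q (p + t) c y) 0 0)
    (hc : HasDerivAt (fun t => Fq q p (c + t) y) 0 0)
    (hy : HasDerivAt (fun t => Fq q p c (y + t)) 0 0) : False := by
  have h0 : y * hp (Tq q p c y) = 1 / 4 := by
    unfold Fq at h; linarith
  obtain ⟨hy1, hy2, hpos, hT2, hpsi⟩ := zero_facts h0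
  have e1 := dq.unique hq
  have e2 := dp.unique hp'
  have e3 := dc.unique hc
  have e4 := (dy (by linarith)).unique hy
  by_cases hT : 1 / 4 ≤ Tq q p c y
  · rw [(hasDerivAt_hp_ge hT).deriv, hp_eq_one hT] at e4
    norm_num at e4
  · push Not at hT
    have hd := (hasDerivAt_hp_lt hT).deriv
    have hdpos : 0 < deriv hp (Tq q p c y) := by
      rw [hd]
      apply div_pos
      · rw [hp_of_lt hT]
        have := Real.exp_pos (8 - (1 / 4 - Tq q p c y)⁻¹)
        linarith
      · have : 0 < 1 / 4 - Tq q p c y := by linarith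
        positivity
    have hyne : y ≠ 0 := by linarith
    have hp0 : p = 0 := by
      rcases mul_eq_zero.1 e2 with h1 | h1
      · exact absurd h1 hyne
      · rcases mul_eq_zero.1 h1 with h2 | h2
        · exact absurd h2 hdpos.ne'
        · linarith
    have hc0 : c = 0 := by
      rcases mul_eq_zero.1 e3 with h1 | h1
      · exact absurd h1 hyne
      · rcases mul_eq_zero.1 h1 with h2 | h2
        · exact absurd h2 hdpos.ne'
        · linarith
    have hqq : 2 * (q ^ 2 + y - 1) * (2 * q) = 0 := by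
      rcases mul_eq_zero.1 e1 with h1 | h1
      · exact absurd h1 hyne
      · rcases mul_eq_zero.1 h1 with h2 | h2
        · exact absurd h2 hdpos.ne'
        · exact h2
    rcases mul_eq_zero.1 hqq with h1 | h1
    · have h2 : Tq q p c y = 0 := by
        unfold Tq
        rw [hp0, hc0, hpsi]
        have : q ^ 2 + y - 1 = 0 := by linarith
        rw [this]; ring
      rw [h2] at hT2
      linarith
    · have hq0 : q = 0 := by linarith
      subst hp0 hc0 hq0
      apply axis_estimate h0 hT
      rw [← hd]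
      have : (0 : ℝ) ^ 2 + y - 1 = y - 1 := by ring
      rw [this] at e4
      linarith

end Pool.Agent.H834R2
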