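import Pool.Agent.H834R2.Mfd

/-! The twisting flow. -/

set_option autoImplicit false

open Set Filter Topology Quaternion
open scoped Topology ContDiff Real

namespace Pool.Agent.H834R2

noncomputable section

/-- pure quaternions -/
def vec (a b c : ℝ) : ℍ[ℝ] := ⟨0, a, b, c⟩

/-- the interpolating angle: `0` for `u ≤ 4`, `π/2` for `u ≥ 16` -/
def al (u : ℝ) : ℝ := π / 2 * Real.smoothTransition ((u - 4) / 12)

/-- the loops of unit quaternions -/
def QQ (j : ℤ) (u s : ℝ) : ℍ[ℝ] :=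
  ⟨Real.cos (al u) * Real.cos (2 * π * j * s), Real.sin (al u), 0,
    -(Real.cos (al u) * Real.sin (2 * π * j * s))⟩

lemma al_near {u : ℝ} (h : u ≤ 4) : al u = 0 := by
  unfold al
  rw [Real.smoothTransition.zero_of_nonpos (by linarith), mul_zero]

lemma al_far {u : ℝ} (h : 16 ≤ u) : al u = π / 2 := by
  unfold al
  rw [Real.smoothTransition.one_of_one_le (by linarith), mul_one]

lemma contDiff_al : ContDiff ℝ ∞ al := by
  unfold al
  exact contDiff_const.mul ((Real.smoothTransition.contDiff (n := ⊤)).comp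
    ((contDiff_id.sub contDiff_const).div_const 12))

lemma QQ_mul_star (j : ℤ) (u s : ℝ) : QQ j u s * star (QQ j u s) = 1 := by
  have h1 := Real.sin_sq_add_cos_sq (al u)
  have h2 := Real.sin_sq_add_cos_sq (2 * π * j * s)
  rw [Quaternion.self_mul_star]
  have h3 : Quaternion.normSq (QQ j u s) = 1 := by
    rw [Quaternion.normSq_def']
    unfold QQ
    simp only
    have : (Real.cos (al u) * Real.cos (2 * π * j * s)) ^ 2 + Real.sin (al u) ^ 2 + 0 ^ 2 +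
        (-(Real.cos (al u) * Real.sin (2 * π * j * s))) ^ 2 =
        Real.cos (al u) ^ 2 * (Real.sin (2 * π * j * s) ^ 2 + Real.cos (2 * π * j * s) ^ 2) +
        Real.sin (al u) ^ 2 := by ring
    rw [this, h2]; linarith
  rw [h3]; rfl

lemma star_mul_QQ (j : ℤ) (u s : ℝ) : star (QQ j u s) * QQ j u s = 1 := by
  rw [Quaternion.star_mul_self, ← Quaternion.self_mul_star, QQ_mul_star]

lemma QQ_add_int (j : ℤ) (u s : ℝ) (k : ℤ) : QQ j u (s + k) = QQ j u s := by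
  unfold QQ
  have h : 2 * π * j * (s + k) = 2 * π * j * s + ((j * k : ℤ) : ℝ) * (2 * π) := by
    push_cast; ring
  rw [h, Real.cos_add_int_mul_two_pi, Real.sin_add_int_mul_two_pi]

lemma QQ_far (j : ℤ) {u : ℝ} (hu : 16 ≤ u) (s : ℝ) : QQ j u s = ⟨0, 1, 0, 0⟩ := by
  unfold QQ
  rw [al_far hu, Real.cos_pi_div_two, Real.sin_pi_div_two]
  simp

/-- the rotation quaternion -/
def WW (j : ℤ) (u s r : ℝ) : ℍ[ℝ] := QQ j u (s + r) * star (QQ j u s)

lemma WW_mul_star (j : ℤ) (u s r : ℝ) : WW j u s r * star (WW j u s r) = 1 := by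
  unfold WW
  rw [star_mul, star_star]
  calc QQ j u (s + r) * star (QQ j u s) * (QQ j u s * star (QQ j u (s + r)))
      = QQ j u (s + r) * (star (QQ j u s) * QQ j u s) * star (QQ j u (s + r)) := by
        simp only [mul_assoc]
    _ = 1 := by rw [star_mul_QQ, mul_one, QQ_mul_star]

lemma WW_normSq (j : ℤ) (u s r : ℝ) : Quaternion.normSq (WW j u s r) = 1 := by
  have h := WW_mul_star j u s r
  rw [Quaternion.self_mul_star] at h
  have h2 := congrArg QuaternionAlgebra.re h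
  simpa using h2

lemma WW_add (j : ℤ) (u s r r' : ℝ) : WW j u (s + r) r' * WW j u s r = WW j u s (r + r') := by
  unfold WW
  calc QQ j u (s + r + r') * star (QQ j u (s + r)) * (QQ j u (s + r) * star (QQ j u s))
      = QQ j u (s + r + r') * (star (QQ j u (s + r)) * QQ j u (s + r)) * star (QQ j u s) := by
        simp only [mul_assoc]
    _ = QQ j u (s + (r + r')) * star (QQ j u s) := by rw [star_mul_QQ, mul_one, add_assoc]

lemma WW_int (j : ℤ) (u s : ℝ) (k : ℤ) : WW j u s k = 1 := by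
  unfold WW
  rw [QQ_add_int, QQ_mul_star]

lemma WW_shift (j : ℤ) (u s r : ℝ) (k : ℤ) : WW j u (s + k) r = WW j u s r := by
  unfold WW
  have : s + k + r = (s + r) + k := by ring
  rw [this, QQ_add_int, QQ_add_int]

lemma WW_far (j : ℤ) {u : ℝ} (hu : 16 ≤ u) (s r : ℝ) : WW j u s r = 1 := by
  have h := QQ_mul_star j u s
  unfold WW
  rw [QQ_far j hu (s + r), QQ_far j hu s]
  rw [QQ_far j hu s] at h
  exact h

/-- conjugation -/
def rot (j : ℤ) (u s r : ℝ) (v : ℍ[ℝ]) : ℍ[ℝ] := WW j u s r * v * star (WW j u s r)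

lemma rot_normSq (j : ℤ) (u s r : ℝ) (v : ℍ[ℝ]) :
    Quaternion.normSq (rot j u s r v) = Quaternion.normSq v := by
  unfold rot
  rw [map_mul, map_mul, WW_normSq, Quaternion.normSq_star, WW_normSq]
  ring

lemma rot_re (j : ℤ) (u s r a b c : ℝ) : (rot j u s r (vec a b c)).re = 0 := by
  have h : star (rot j u s r (vec a b c)) = - rot j u s r (vec a b c) := by
    unfold rot
    rw [star_mul, star_mul, star_star]
    have hv : star (vec a b c) = - vec a b c := by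
      ext <;> simp [vec]
    rw [hv]
    simp [mul_assoc]
  have h2 := congrArg QuaternionAlgebra.re h
  simp at h2
  linarith

lemma rot_eq_vec (j : ℤ) (u s r a b c : ℝ) : rot j u s r (vec a b c) =
    vec (rot j u s r (vec a b c)).imI (rot j u s r (vec a b c)).imJ (rot j u s r (vec a b c)).imK := by
  have h := rot_re j u s r a b c
  ext
  · exact h
  · rfl
  · rfl
  · rfl

lemma rotv_sq (j : ℤ) (u s r a b c : ℝ) : (rot j u s r (vec a b c)).imI ^ 2 +
    (rot j u s r (vec a b c)).imJ ^ 2 + (rot j u s r (vec a b c)).imK ^ 2 = a ^ 2 + b ^ 2 + c ^ 2 := by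
  have h1 := rot_normSq j u s r (vec a b c)
  rw [Quaternion.normSq_def', Quaternion.normSq_def', rot_re] at h1
  simp only [vec] at h1 ⊢
  linarith

lemma rot_add (j : ℤ) (u s r r' : ℝ) (v : ℍ[ℝ]) :
    rot j u (s + r) r' (rot j u s r v) = rot j u s (r + r') v := by
  unfold rot
  rw [← WW_add, star_mul]
  simp only [mul_assoc]

lemma rot_of_one {j : ℤ} {u s r : ℝ} (h : WW j u s r = 1) (v : ℍ[ℝ]) : rot j u s r v = v := by
  unfold rot
  rw [h, star_one, one_mul, mul_one]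

/-- squared distance to `10 n` -/
def usq (n : Fin 3 → ℤ) (ξ : E5) : ℝ :=
  (ξ.1 0 - 10 * n 0) ^ 2 + (ξ.1 1 - 10 * n 1) ^ 2 + (ξ.1 2 - 10 * n 2) ^ 2

/-- relative position -/
def rel (n : Fin 3 → ℤ) (ξ : E5) : ℍ[ℝ] :=
  vec (ξ.1 0 - 10 * n 0) (ξ.1 1 - 10 * n 1) (ξ.1 2 - 10 * n 2)

/-- the rotated relative position -/
def rw' (j : ℤ) (n : Fin 3 → ℤ) (r : ℝ) (ξ : E5) : ℍ[ℝ] := rot j (usq n ξ) (ξ.1 3) r (rel n ξ)

/-- the local form of the twisting flow -/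
def twistn (j : ℤ) (n : Fin 3 → ℤ) (r : ℝ) (ξ : E5) : E5 :=
  pE (10 * n 0 + (rw' j n r ξ).imI) (10 * n 1 + (rw' j n r ξ).imJ) (10 * n 2 + (rw' j n r ξ).imK)
    (ξ.1 3 + r) ξ.2

/-- the twisting flow -/
def twist (j : ℤ) (r : ℝ) (ξ : E5) : E5 := twistn j (cell ξ) r ξ

lemma twistn_of_one {j : ℤ} {n : Fin 3 → ℤ} {r : ℝ} {ξ : E5} (h : WW j (usq n ξ) (ξ.1 3) r = 1) :
    twistn j n r ξ = pE (ξ.1 0) (ξ.1 1) (ξ.1 2) (ξ.1 3 + r) ξ.2 := by
  have e : rw' j n r ξ = rel n ξ := rot_of_one h _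
  unfold twistn
  rw [e]
  apply E5_ext
  · rw [pE_0, pE_0]; simp [rel, vec]
  · rw [pE_1, pE_1]; simp [rel, vec]
  · rw [pE_2, pE_2]; simp [rel, vec]
  · rfl
  · rfl

lemma twistn_far {j : ℤ} {n : Fin 3 → ℤ} {r : ℝ} {ξ : E5} (h : 16 ≤ usq n ξ) :
    twistn j n r ξ = pE (ξ.1 0) (ξ.1 1) (ξ.1 2) (ξ.1 3 + r) ξ.2 :=
  twistn_of_one (WW_far j h _ _)

lemma cell_or {n : Fin 3 → ℤ} {ξ : E5} (h0 : |ξ.1 0 - 10 * n 0| < 6)
    (h1 : |ξ.1 1 - 10 * n 1| < 6) (h2 : |ξ.1 2 - 10 * n 2| < 6) :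
    cell ξ = n ∨ (16 ≤ usq n ξ ∧ 16 ≤ usq (cell ξ) ξ) := by
  have key : ∀ (t : ℝ) (n : ℤ), |t - 10 * n| < 6 → round (t / 10) ≠ n →
      16 ≤ (t - 10 * round (t / 10)) ^ 2 ∧ 16 ≤ (t - 10 * n) ^ 2 := by
    intro t n h hne
    have h3 := abs_sub_lattice hne h
    have h4 := five_le_of_ne hne
    constructor
    · rw [← sq_abs]; nlinarith
    · rw [← sq_abs]; nlinarith
  by_cases hc : cell ξ = n
  · exact Or.inl hc
  · right
    have hne : round (ξ.1 0 / 10) ≠ n 0 ∨ round (ξ.1 1 / 10) ≠ n 1 ∨ round (ξ.1 2 / 10) ≠ n 2 := by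
      by_contra hcon
      push Not at hcon
      apply hc
      funext i
      fin_cases i
      · exact hcon.1
      · exact hcon.2.1
      · exact hcon.2.2
    have e0 : cell ξ 0 = round (ξ.1 0 / 10) := rfl
    have e1 : cell ξ 1 = round (ξ.1 1 / 10) := rfl
    have e2 : cell ξ 2 = round (ξ.1 2 / 10) := rfl
    unfold usq
    rw [e0, e1, e2]
    rcases hne with h | h | h
    · have := key _ _ h0 h
      constructor
      · nlinarith [sq_nonneg (ξ.1 1 - 10 * n 1), sq_nonneg (ξ.1 2 - 10 * n 2)]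
      · nlinarith [sq_nonneg (ξ.1 1 - 10 * round (ξ.1 1 / 10)),
          sq_nonneg (ξ.1 2 - 10 * round (ξ.1 2 / 10))]
    · have := key _ _ h1 h
      constructor
      · nlinarith [sq_nonneg (ξ.1 0 - 10 * n 0), sq_nonneg (ξ.1 2 - 10 * n 2)]
      · nlinarith [sq_nonneg (ξ.1 0 - 10 * round (ξ.1 0 / 10)),
          sq_nonneg (ξ.1 2 - 10 * round (ξ.1 2 / 10))]
    · have := key _ _ h2 h
      constructor
      · nlinarith [sq_nonneg (ξ.1 0 - 10 * n 0), sq_nonneg (ξ.1 1 - 10 * n 1)]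
      · nlinarith [sq_nonneg (ξ.1 0 - 10 * round (ξ.1 0 / 10)),
          sq_nonneg (ξ.1 1 - 10 * round (ξ.1 1 / 10))]

lemma twist_eq {j : ℤ} {n : Fin 3 → ℤ} {r : ℝ} {ξ : E5} (h0 : |ξ.1 0 - 10 * n 0| < 6)
    (h1 : |ξ.1 1 - 10 * n 1| < 6) (h2 : |ξ.1 2 - 10 * n 2| < 6) : twist j r ξ = twistn j n r ξ := by
  rcases cell_or h0 h1 h2 with h | ⟨h, h'⟩
  · unfold twist; rw [h]
  · unfold twist
    rw [twistn_far h, twistn_far h']

/-- quaternion with given coordinates -/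
def mkq (a b c d : ℝ) : ℍ[ℝ] := ⟨a, b, c, d⟩

lemma contDiff_mk {E : Type*} [NormedAddCommGroup E] [NormedSpace ℝ E] {a b c d : E → ℝ}
    (ha : ContDiff ℝ ∞ a) (hb : ContDiff ℝ ∞ b) (hc : ContDiff ℝ ∞ c) (hd : ContDiff ℝ ∞ d) :
    ContDiff ℝ ∞ (fun z => mkq (a z) (b z) (c z) (d z)) := by
  have h : (fun z => mkq (a z) (b z) (c z) (d z)) = fun z => a z • mkq 1 0 0 0 +
      b z • mkq 0 1 0 0 + c z • mkq 0 0 1 0 + d z • mkq 0 0 0 1 := by
    funext z
    ext <;> simp [mkq]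
  rw [h]
  exact (((ha.smul contDiff_const).add (hb.smul contDiff_const)).add
    (hc.smul contDiff_const)).add (hd.smul contDiff_const)

lemma contDiff_comp_q (i : Fin 4) :
    ContDiff ℝ ∞ (fun x : ℍ[ℝ] => (Quaternion.linearIsometryEquivTuple x) i) :=
  (EuclideanSpace.proj (𝕜 := ℝ) i).contDiff.comp
    (Quaternion.linearIsometryEquivTuple.toContinuousLinearEquiv.contDiff)

lemma contDiff_imI : ContDiff ℝ ∞ (fun x : ℍ[ℝ] => x.imI) := by
  have := contDiff_comp_q 1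
  simpa using this
lemma contDiff_imJ : ContDiff ℝ ∞ (fun x : ℍ[ℝ] => x.imJ) := by
  have := contDiff_comp_q 2
  simpa using this
lemma contDiff_imK : ContDiff ℝ ∞ (fun x : ℍ[ℝ] => x.imK) := by
  have := contDiff_comp_q 3
  simpa using this
lemma contDiff_re : ContDiff ℝ ∞ (fun x : ℍ[ℝ] => x.re) := by
  have := contDiff_comp_q 0
  simpa using this

lemma contDiff_star_q : ContDiff ℝ ∞ (fun x : ℍ[ℝ] => star x) := by
  have h : (fun x : ℍ[ℝ] => star x) = fun x : ℍ[ℝ] => mkq x.re (-x.imI) (-x.imJ) (-x.imK) := by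
    funext x
    ext <;> simp [mkq]
  rw [h]
  exact contDiff_mk contDiff_re contDiff_imI.neg contDiff_imJ.neg contDiff_imK.neg

lemma contDiff_pE {E : Type*} [NormedAddCommGroup E] [NormedSpace ℝ E] {x0 x1 x2 s y : E → ℝ}
    (h0 : ContDiff ℝ ∞ x0) (h1 : ContDiff ℝ ∞ x1) (h2 : ContDiff ℝ ∞ x2) (h3 : ContDiff ℝ ∞ s)
    (hy : ContDiff ℝ ∞ y) : ContDiff ℝ ∞ (fun z => pE (x0 z) (x1 z) (x2 z) (s z) (y z)) := by
  apply ContDiff.prodMk _ hy
  rw [contDiff_euclidean]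
  intro i
  fin_cases i
  · exact h0
  · exact h1
  · exact h2
  · exact h3

lemma contDiff_QQ {E : Type*} [NormedAddCommGroup E] [NormedSpace ℝ E] (j : ℤ) {u s : E → ℝ}
    (hu : ContDiff ℝ ∞ u) (hs : ContDiff ℝ ∞ s) : ContDiff ℝ ∞ (fun z => QQ j (u z) (s z)) := by
  have h1 : ContDiff ℝ ∞ (fun z => Real.cos (al (u z))) := Real.contDiff_cos.comp (contDiff_al.comp hu)
  have h2 : ContDiff ℝ ∞ (fun z => Real.sin (al (u z))) := Real.contDiff_sin.comp (contDiff_al.comp hu)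
  have h3 : ContDiff ℝ ∞ (fun z => Real.cos (2 * π * j * s z)) :=
    Real.contDiff_cos.comp (contDiff_const.mul hs)
  have h4 : ContDiff ℝ ∞ (fun z => Real.sin (2 * π * j * s z)) :=
    Real.contDiff_sin.comp (contDiff_const.mul hs)
  exact contDiff_mk (h1.mul h3) h2 contDiff_const (h1.mul h4).neg

lemma contDiff_twistn (j : ℤ) (n : Fin 3 → ℤ) (r : ℝ) : ContDiff ℝ ∞ (twistn j n r) := by
  have ha : ContDiff ℝ ∞ (fun ξ : E5 => ξ.1 0 - 10 * (n 0 : ℝ)) := (contDiff_coord 0).sub contDiff_const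
  have hb : ContDiff ℝ ∞ (fun ξ : E5 => ξ.1 1 - 10 * (n 1 : ℝ)) := (contDiff_coord 1).sub contDiff_const
  have hc : ContDiff ℝ ∞ (fun ξ : E5 => ξ.1 2 - 10 * (n 2 : ℝ)) := (contDiff_coord 2).sub contDiff_const
  have hu : ContDiff ℝ ∞ (fun ξ : E5 => usq n ξ) := ((ha.pow 2).add (hb.pow 2)).add (hc.pow 2)
  have hv : ContDiff ℝ ∞ (fun ξ : E5 => rel n ξ) := contDiff_mk contDiff_const ha hb hc
  have hW : ContDiff ℝ ∞ (fun ξ : E5 => WW j (usq n ξ) (ξ.1 3) r) :=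
    (contDiff_QQ j hu ((contDiff_coord 3).add contDiff_const)).mul
      (contDiff_star_q.comp (contDiff_QQ j hu (contDiff_coord 3)))
  have hw : ContDiff ℝ ∞ (fun ξ : E5 => rw' j n r ξ) :=
    (hW.mul hv).mul (contDiff_star_q.comp hW)
  exact contDiff_pE (contDiff_const.add (contDiff_imI.comp hw))
    (contDiff_const.add (contDiff_imJ.comp hw)) (contDiff_const.add (contDiff_imK.comp hw))
    ((contDiff_coord 3).add contDiff_const) contDiff_snd

lemma contDiff_twist (j : ℤ) (r : ℝ) : ContDiff ℝ ∞ (twist j r) := by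
  rw [contDiff_iff_contDiffAt]
  intro ξ
  apply ((contDiff_twistn j (cell ξ) r).contDiffAt (x := ξ)).congr_of_eventuallyEq
  obtain ⟨a, b, c⟩ := cell_near ξ
  filter_upwards [eventually_near ξ 0 _ (lt_of_le_of_lt a (by norm_num)),
    eventually_near ξ 1 _ (lt_of_le_of_lt b (by norm_num)),
    eventually_near ξ 2 _ (lt_of_le_of_lt c (by norm_num))] with η h0 h1 h2
  exact twist_eq h0 h1 h2

lemma cell_congr {ξ η : E5} (h0 : ξ.1 0 = η.1 0) (h1 : ξ.1 1 = η.1 1) (h2 : ξ.1 2 = η.1 2) :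
    cell ξ = cell η := by
  unfold cell
  rw [h0, h1, h2]

lemma rw'_sq (j : ℤ) (n : Fin 3 → ℤ) (r : ℝ) (ξ : E5) :
    (rw' j n r ξ).imI ^ 2 + (rw' j n r ξ).imJ ^ 2 + (rw' j n r ξ).imK ^ 2 = usq n ξ :=
  rotv_sq _ _ _ _ _ _ _

lemma usq_twistn (j : ℤ) (n : Fin 3 → ℤ) (r : ℝ) (ξ : E5) : usq n (twistn j n r ξ) = usq n ξ := by
  rw [← rw'_sq j n r ξ]
  unfold usq twistn
  rw [pE_0, pE_1, pE_2]
  ring

lemma rel_twistn (j : ℤ) (n : Fin 3 → ℤ) (r : ℝ) (ξ : E5) : rel n (twistn j n r ξ) = rw' j n r ξ := by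
  have h : rw' j n r ξ = vec (rw' j n r ξ).imI (rw' j n r ξ).imJ (rw' j n r ξ).imK :=
    rot_eq_vec _ _ _ _ _ _ _
  have h2 : rel n (twistn j n r ξ) = vec (rw' j n r ξ).imI (rw' j n r ξ).imJ (rw' j n r ξ).imK := by
    unfold rel twistn
    rw [pE_0, pE_1, pE_2]
    congr 1 <;> ring
  rw [h2, ← h]

lemma twistn_add (j : ℤ) (n : Fin 3 → ℤ) (r r' : ℝ) (ξ : E5) :
    twistn j n r' (twistn j n r ξ) = twistn j n (r + r') ξ := by
  have h : rw' j n r' (twistn j n r ξ) = rw' j n (r + r') ξ := by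
    have e3 : (twistn j n r ξ).1 3 = ξ.1 3 + r := rfl
    show rot j (usq n (twistn j n r ξ)) ((twistn j n r ξ).1 3) r' (rel n (twistn j n r ξ)) = _
    rw [usq_twistn, rel_twistn, e3]
    exact rot_add _ _ _ _ _ _
  show pE (10 * n 0 + (rw' j n r' (twistn j n r ξ)).imI) _ _ _ _ = _
  rw [h]
  unfold twistn
  apply E5_ext
  · rfl
  · rfl
  · rfl
  · rw [pE_3, pE_3, pE_3]; ring
  · rfl

lemma abs_lt_six' {a b c : ℝ} (h : a ^ 2 + b ^ 2 + c ^ 2 < 36) : |a| < 6 ∧ |b| < 6 ∧ |c| < 6 :=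
  ⟨abs_lt_six (w := b ^ 2 + c ^ 2) (by linarith) (by positivity),
    abs_lt_six (w := a ^ 2 + c ^ 2) (by linarith) (by positivity),
    abs_lt_six (w := a ^ 2 + b ^ 2) (by linarith) (by positivity)⟩

lemma twist_eq_of_usq {j : ℤ} {n : Fin 3 → ℤ} {r : ℝ} {ξ : E5} (h : usq n ξ < 36) :
    twist j r ξ = twistn j n r ξ := by
  obtain ⟨h0, h1, h2⟩ := abs_lt_six' h
  exact twist_eq h0 h1 h2

lemma twist_add (j : ℤ) (r r' : ℝ) (ξ : E5) :
    twist j r' (twist j r ξ) = twist j (r + r') ξ := by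
  rcases le_or_gt 16 (usq (cell ξ) ξ) with h | h
  · have e1 : twist j r ξ = pE (ξ.1 0) (ξ.1 1) (ξ.1 2) (ξ.1 3 + r) ξ.2 := twistn_far h
    have e2 : twist j (r + r') ξ = pE (ξ.1 0) (ξ.1 1) (ξ.1 2) (ξ.1 3 + (r + r')) ξ.2 := twistn_far h
    have e3 : cell (twist j r ξ) = cell ξ := by
      rw [e1]; exact cell_congr rfl rfl rfl
    have e4 : 16 ≤ usq (cell (twist j r ξ)) (twist j r ξ) := by
      rw [e3, e1]; exact h
    have e5 : twist j r' (twist j r ξ) = pE ((twist j r ξ).1 0) ((twist j r ξ).1 1)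
      ((twist j r ξ).1 2) ((twist j r ξ).1 3 + r') (twist j r ξ).2 := twistn_far e4
    rw [e5, e2, e1, pE_0, pE_1, pE_2, pE_3, pE_y, add_assoc]
  · have e1 : twist j r' (twist j r ξ) = twistn j (cell ξ) r' (twist j r ξ) := by
      apply twist_eq_of_usq
      show usq (cell ξ) (twistn j (cell ξ) r ξ) < 36
      rw [usq_twistn]; linarith
    rw [e1]
    exact twistn_add _ _ _ _ _

lemma twist_int (j : ℤ) (k : ℤ) (ξ : E5) : twist j k ξ = ξ + lam ![0, 0, 0, k] := by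
  have : twist j k ξ = pE (ξ.1 0) (ξ.1 1) (ξ.1 2) (ξ.1 3 + k) ξ.2 := twistn_of_one (WW_int _ _ _ _)
  rw [this]
  apply E5_ext
  · show ξ.1 0 = ξ.1 0 + 10 * ((0 : ℤ) : ℝ)
    simp
  · show ξ.1 1 = ξ.1 1 + 10 * ((0 : ℤ) : ℝ)
    simp
  · show ξ.1 2 = ξ.1 2 + 10 * ((0 : ℤ) : ℝ)
    simp
  · rfl
  · show ξ.2 = ξ.2 + 0
    simp

lemma twist_zero (j : ℤ) (ξ : E5) : twist j 0 ξ = ξ := by
  have h := twist_int j 0 ξ
  rw [Int.cast_zero] at h
  rw [h]
  have : (![0, 0, 0, 0] : Fin 4 → ℤ) = 0 := by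
    funext i; fin_cases i <;> rfl
  rw [this, lam_zero, add_zero]

lemma twist_lam (j : ℤ) (r : ℝ) (ξ : E5) (m : Fin 4 → ℤ) :
    twist j r (ξ + lam m) = twist j r ξ + lam m := by
  set n := cell ξ with hn
  have hc : cell (ξ + lam m) = fun i => n i + m i.castSucc := cell_add ξ m
  have e0 : (ξ + lam m).1 0 - 10 * ((n 0 + m (Fin.castSucc 0) : ℤ) : ℝ) = ξ.1 0 - 10 * n 0 := by
    have : (ξ + lam m).1 0 = ξ.1 0 + 10 * (m 0 : ℝ) := rfl
    rw [this]
    push_cast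
    ring
  have e1 : (ξ + lam m).1 1 - 10 * ((n 1 + m (Fin.castSucc 1) : ℤ) : ℝ) = ξ.1 1 - 10 * n 1 := by
    have : (ξ + lam m).1 1 = ξ.1 1 + 10 * (m 1 : ℝ) := rfl
    rw [this]
    push_cast
    ring
  have e2 : (ξ + lam m).1 2 - 10 * ((n 2 + m (Fin.castSucc 2) : ℤ) : ℝ) = ξ.1 2 - 10 * n 2 := by
    have : (ξ + lam m).1 2 = ξ.1 2 + 10 * (m 2 : ℝ) := rfl
    rw [this]
    push_cast
    ring
  have e3 : (ξ + lam m).1 3 = ξ.1 3 + (m 3 : ℝ) := rfl
  have eu : usq (fun i => n i + m i.castSucc) (ξ + lam m) = usq n ξ := by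
    unfold usq
    rw [e0, e1, e2]
  have er : rel (fun i => n i + m i.castSucc) (ξ + lam m) = rel n ξ := by
    unfold rel
    rw [e0, e1, e2]
  have ew : rw' j (fun i => n i + m i.castSucc) r (ξ + lam m) = rw' j n r ξ := by
    unfold rw' rot
    rw [eu, er, e3, WW_shift]
  unfold twist
  rw [hc, ← hn]
  unfold twistn
  rw [ew]
  apply E5_ext
  · show 10 * (((n 0 + m 0 : ℤ)) : ℝ) + _ = 10 * (n 0 : ℝ) + _ + 10 * (m 0 : ℝ)
    push_cast; ring
  · show 10 * (((n 1 + m 1 : ℤ)) : ℝ) + _ = 10 * (n 1 : ℝ) + _ + 10 * (m 1 : ℝ)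
    push_cast; ring
  · show 10 * (((n 2 + m 2 : ℤ)) : ℝ) + _ = 10 * (n 2 : ℝ) + _ + 10 * (m 2 : ℝ)
    push_cast; ring
  · show ξ.1 3 + (m 3 : ℝ) + r = ξ.1 3 + r + (m 3 : ℝ)
    ring
  · rfl

lemma rot_near {j : ℤ} {u s r a b c : ℝ} (hu : u ≤ 4) : rot j u s r (vec a b c) =
    vec (a * Real.cos (4 * π * j * r) + b * Real.sin (4 * π * j * r))
      (-a * Real.sin (4 * π * j * r) + b * Real.cos (4 * π * j * r)) c := by
  have hW : WW j u s r = ⟨Real.cos (2 * π * j * r), 0, 0, -Real.sin (2 * π * j * r)⟩ := by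
    unfold WW QQ
    rw [al_near hu, Real.cos_zero, Real.sin_zero]
    have e1 : 2 * π * j * r = 2 * π * j * (s + r) - 2 * π * j * s := by ring
    rw [e1, Real.cos_sub, Real.sin_sub]
    ext <;> simp <;> ring
  unfold rot
  rw [hW]
  have e2 : 4 * π * j * r = 2 * (2 * π * j * r) := by ring
  rw [e2, Real.cos_two_mul, Real.sin_two_mul]
  generalize 2 * π * j * r = θ
  have h2 := Real.sin_sq_add_cos_sq θ
  have h3 : Real.sin θ ^ 2 = 1 - Real.cos θ ^ 2 := by linarith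
  unfold vec
  ext
  · simp
    ring
  · simp
    ring_nf
    rw [h3]
    ring
  · simp
    ring_nf
    rw [h3]
    ring
  · simp
    ring_nf
    rw [h3]
    ring

lemma twist_pt {j k : ℤ} {p : ℝ} (hp : p = 1 + 4 * j) (hp0 : p ≠ 0) (n : Fin 3 → ℤ)
    {q z c s y : ℝ} (h : q ^ 2 + z ^ 2 + c ^ 2 ≤ 4) :
    twist j (2 * k / p) (pt n q z c s y) = pt n q z c (s + 2 * k / p) y := by
  set r : ℝ := 2 * k / p with hr
  have hr' : p * r = 2 * k := by rw [hr]; field_simp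
  have hang : 4 * π * j * r = (k : ℝ) * (2 * π) - π * r := by
    have : (4 : ℝ) * j = p - 1 := by rw [hp]; ring
    have e : 4 * π * j * r = π * (p * r) - π * r := by
      have : 4 * π * j * r = π * ((4 * j) * r) := by ring
      rw [this, ‹(4 : ℝ) * j = p - 1›]; ring
    rw [e, hr']; ring
  have hcos : Real.cos (4 * π * j * r) = Real.cos (π * r) := by
    rw [hang, Real.cos_int_mul_two_pi_sub]
  have hsin : Real.sin (4 * π * j * r) = -Real.sin (π * r) := by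
    rw [hang]
    have : (k : ℝ) * (2 * π) - π * r = -(π * r) + (k : ℝ) * (2 * π) := by ring
    rw [this, Real.sin_add_int_mul_two_pi, Real.sin_neg]
  have e0 : (pt n q z c s y).1 0 - 10 * n 0 = q * Real.cos (π * s) - z * Real.sin (π * s) := by
    rw [pt, pE_0]; ring
  have e1 : (pt n q z c s y).1 1 - 10 * n 1 = q * Real.sin (π * s) + z * Real.cos (π * s) := by
    rw [pt, pE_1]; ring
  have e2 : (pt n q z c s y).1 2 - 10 * n 2 = c := by
    rw [pt, pE_2]; ring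
  have e3 : (pt n q z c s y).1 3 = s := rfl
  have e4 : (pt n q z c s y).2 = y := rfl
  have hus : usq n (pt n q z c s y) = q ^ 2 + z ^ 2 + c ^ 2 := by
    unfold usq
    rw [e0, e1, e2, rot_sq]
  rw [twist_eq_of_usq (n := n) (by rw [hus]; linarith)]
  have hrw : rw' j n r (pt n q z c s y) = vec (q * Real.cos (π * (s + r)) - z * Real.sin (π * (s + r)))
      (q * Real.sin (π * (s + r)) + z * Real.cos (π * (s + r))) c := by
    unfold rw' rel
    rw [e0, e1, e2, rot_near (by rw [hus]; exact h), hcos, hsin, mul_add, Real.cos_add, Real.sin_add]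
    congr 1 <;> ring
  unfold twistn
  rw [hrw, e3, e4]
  rfl

lemma Phi_twist {j k : ℤ} {p : ℝ} (hp : p = 1 + 4 * j) (hp0 : p ≠ 0) (ξ : E5) :
    Phi (twist j (2 * k / p) ξ) = Phi ξ := by
  set n := cell ξ with hn
  set r : ℝ := 2 * k / p with hr
  have hy : (twist j r ξ).2 = ξ.2 := rfl
  rcases le_or_gt 16 (usq n ξ) with h | h
  · have e1 : twist j r ξ = pE (ξ.1 0) (ξ.1 1) (ξ.1 2) (ξ.1 3 + r) ξ.2 := twistn_far h
    have e3 : cell (twist j r ξ) = n := by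
      rw [e1]; exact cell_congr rfl rfl rfl
    have e4 : 16 ≤ usq (cell (twist j r ξ)) (twist j r ξ) := by
      rw [e3, e1]; exact h
    have h1 : Phi ξ = ξ.2 - 1 / 4 := Phi_far_cell (by
      have : 16 ≤ usq n ξ := h
      unfold usq at this
      linarith)
    have h2 : Phi (twist j r ξ) = (twist j r ξ).2 - 1 / 4 := Phi_far_cell (by
      unfold usq at e4
      linarith)
    rw [h1, h2, hy]
  · have e1 : usq n (twist j r ξ) = usq n ξ := usq_twistn j n r ξ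
    rcases le_or_gt 4 (usq n ξ) with h4 | h4
    · have h1 : Phi ξ = ξ.2 - 1 / 4 := Phi_far_cell (by
        have : 4 ≤ usq n ξ := h4
        unfold usq at this
        linarith)
      have h5 : usq n (twist j r ξ) < 36 := by rw [e1]; linarith
      obtain ⟨a0, a1, a2⟩ := abs_lt_six' h5
      have h2 : Phi (twist j r ξ) = (twist j r ξ).2 - 1 / 4 := Phi_near_far n a0 a1 a2 (by
        have : 4 ≤ usq n (twist j r ξ) := by rw [e1]; exact h4
        unfold usq at this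
        linarith)
      rw [h1, h2, hy]
    · have he := eq_pt ξ n
      set q := rq (ξ.1 0 - 10 * n 0) (ξ.1 1 - 10 * n 1) (ξ.1 3) with hq
      set z := rp (ξ.1 0 - 10 * n 0) (ξ.1 1 - 10 * n 1) (ξ.1 3) with hz
      set c := ξ.1 2 - 10 * n 2 with hc
      have hus : q ^ 2 + z ^ 2 + c ^ 2 < 4 := by
        have : q ^ 2 + z ^ 2 = (ξ.1 0 - 10 * n 0) ^ 2 + (ξ.1 1 - 10 * n 1) ^ 2 := rq_rp _ _ _
        rw [this]
        exact h4
      rw [he, hr, twist_pt hp hp0 n hus.le, Phi_pt n (by linarith), Phi_pt n (by linarith)]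

end

end Pool.Agent.H834R2
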