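import Mathlib

/-! Volume identity and change of variables for proper perturbations of the identity. -/

set_option autoImplicit false

open MeasureTheory Metric Set Filter Topology
open scoped Topology ContDiff NNReal

namespace Pool.Agent.H834R2.Vol

section lipschitz

variable {E : Type*} [NormedAddCommGroup E] [NormedSpace ℝ E]

omit [NormedSpace ℝ E] in
/-- A Lipschitz perturbation (constant below one) of the identity, supported in a ball, is an
injection which maps the ball onto itself. -/
theorem id_add_lipschitz [CompleteSpace E] (H : E → E) (K : ℝ≥0) (hK : K < 1)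
    (hH : LipschitzWith K H) (R : ℝ) (hout : ∀ x, R < ‖x‖ → H x = 0) :
    Function.Injective (fun x => x + H x) ∧
      (fun x => x + H x) '' closedBall (0 : E) R = closedBall 0 R := by
  have hinj : Function.Injective (fun x => x + H x) := by
    intro x y hxy
    have h1 : x - y = H y - H x := by
      have : x + H x = y + H y := hxy
      rw [sub_eq_sub_iff_add_eq_add, this]; abel
    have h2 : dist x y ≤ K * dist x y := by
      calc dist x y = ‖x - y‖ := dist_eq_norm _ _
        _ = ‖H y - H x‖ := by rw [h1]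
        _ = dist (H x) (H y) := by rw [dist_comm, dist_eq_norm]
        _ ≤ K * dist x y := hH.dist_le_mul x y
    have h3 : (K : ℝ) < 1 := by exact_mod_cast hK
    have h4 : dist x y = 0 := by
      by_contra hne
      have : 0 < dist x y := lt_of_le_of_ne dist_nonneg (Ne.symm hne)
      nlinarith
    exact dist_eq_zero.1 h4
  refine ⟨hinj, ?_⟩
  have hsurj : ∀ y : E, ∃ x, x + H x = y := by
    intro y
    have hc : ContractingWith K (fun x => y - H x) := by
      refine ⟨hK, ?_⟩
      intro a b
      have := hH a b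
      simpa [edist_sub_left] using this
    refine ⟨hc.fixedPoint (fun x => y - H x), ?_⟩
    have := hc.fixedPoint_isFixedPt
    have h2 : y - H (hc.fixedPoint (fun x => y - H x)) = hc.fixedPoint (fun x => y - H x) := this
    nth_rewrite 1 [← h2]
    abel
  apply Subset.antisymm
  · rintro _ ⟨x, hx, rfl⟩
    by_contra hy
    have hy' : R < ‖x + H x‖ := by simpa [mem_closedBall, dist_zero_right] using hy
    have h1 : (x + H x) + H (x + H x) = x + H x := by rw [hout _ hy', add_zero]
    have h2 : x + H x = x := hinj h1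
    rw [h2] at hy'
    have : ‖x‖ ≤ R := by simpa [mem_closedBall, dist_zero_right] using hx
    linarith
  · intro y hy
    obtain ⟨x, hx⟩ := hsurj y
    refine ⟨x, ?_, hx⟩
    by_contra hxR
    have hx' : R < ‖x‖ := by simpa [mem_closedBall, dist_zero_right] using hxR
    have : x = y := by rw [← hx, hout _ hx', add_zero]
    exact hxR (this ▸ hy)

/-- Extension by zero of a Lipschitz map vanishing on a sphere. -/
theorem lipschitz_ext (H : E → E) (C : ℝ≥0) (R : ℝ)
    (hH : LipschitzOnWith C H (closedBall 0 R)) (h0 : ∀ x, ‖x‖ = R → H x = 0) :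
    LipschitzWith C (fun x => open Classical in if ‖x‖ ≤ R then H x else 0) := by
  classical
  have key : ∀ x y : E, ‖x‖ ≤ R → R < ‖y‖ → dist (H x) 0 ≤ C * dist x y := by
    intro x y hx hy
    have hcont : ContinuousOn (fun t : ℝ => ‖x + t • (y - x)‖) (Icc 0 1) := by fun_prop
    have hivt := intermediate_value_Icc (zero_le_one : (0:ℝ) ≤ 1) hcont
    have hR : R ∈ Icc (‖x + (0:ℝ) • (y - x)‖) (‖x + (1:ℝ) • (y - x)‖) := by
      constructor
      · simpa using hx
      · simpa using hy.le
    obtain ⟨t, ht, htR⟩ := hivt hR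
    have htR' : ‖x + t • (y - x)‖ = R := htR
    have h1 := hH.dist_le_mul x (by simpa using hx) (x + t • (y - x)) (by simp [htR'])
    rw [h0 _ htR'] at h1
    refine h1.trans ?_
    apply mul_le_mul_of_nonneg_left _ C.2
    rw [dist_eq_norm, dist_eq_norm]
    have : x - (x + t • (y - x)) = t • (x - y) := by
      rw [← neg_sub y x, smul_neg]; abel
    rw [this, norm_smul, Real.norm_eq_abs, abs_of_nonneg ht.1]
    exact mul_le_of_le_one_left (norm_nonneg _) ht.2
  apply LipschitzWith.of_dist_le_mul
  intro x y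
  by_cases hx : ‖x‖ ≤ R <;> by_cases hy : ‖y‖ ≤ R
  · simp only [hx, hy, if_true]
    exact hH.dist_le_mul x (by simpa using hx) y (by simpa using hy)
  · simp only [hx, hy, if_true, if_false]
    exact key x y hx (not_le.1 hy)
  · simp only [hx, hy, if_true, if_false]
    rw [dist_comm, dist_comm x y]
    exact key y x hy (not_le.1 hx)
  · simp only [hx, hy, if_false, dist_self]
    positivity

end lipschitz

section det

variable {E : Type*} [NormedAddCommGroup E] [NormedSpace ℝ E] [FiniteDimensional ℝ E]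

/-- The determinant of `1 + t T` is a polynomial in `t` of degree at most the dimension. -/
theorem det_poly (T : E →L[ℝ] E) :
    ∃ P : Polynomial ℝ, P.natDegree ≤ Module.finrank ℝ E ∧
      ∀ t : ℝ, P.eval t = (ContinuousLinearMap.id ℝ E + t • T).det := by
  classical
  let b := Module.finBasis ℝ E
  let M := LinearMap.toMatrix b b (T : E →ₗ[ℝ] E)
  refine ⟨((Polynomial.X : Polynomial ℝ) • M.map Polynomial.C + (1 : Matrix _ _ ℝ).map Polynomial.C).det,
    ?_, ?_⟩
  · have := Polynomial.natDegree_det_X_add_C_le M (1 : Matrix _ _ ℝ)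
    simpa using this
  · intro t
    have h1 : (ContinuousLinearMap.id ℝ E + t • T).det =
        LinearMap.det ((LinearMap.id : E →ₗ[ℝ] E) + t • (T : E →ₗ[ℝ] E)) := by
      rfl
    rw [h1, ← LinearMap.det_toMatrix b, map_add, map_smul, LinearMap.toMatrix_id]
    rw [← Polynomial.coe_evalRingHom, RingHom.map_det]
    congr 1
    ext i j
    by_cases h : i = j
    · simp [M, h, add_comm]
      exact mul_comm _ _
    · simp [M, h]
      exact mul_comm _ _

theorem det_pos_of_norm_lt (T : E →L[ℝ] E) (hT : ‖T‖ < 1) :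
    0 < (ContinuousLinearMap.id ℝ E + T).det := by
  obtain ⟨P, -, hP⟩ := det_poly T
  have hne : ∀ s ∈ Icc (0:ℝ) 1, P.eval s ≠ 0 := by
    intro s hs h0
    rw [hP] at h0
    have hinj : Function.Injective ((ContinuousLinearMap.id ℝ E + s • T : E →L[ℝ] E) : E →ₗ[ℝ] E) := by
      rw [← LinearMap.ker_eq_bot, LinearMap.ker_eq_bot']
      intro v hv
      have hv' : v + s • T v = 0 := by simpa using hv
      have h1 : ‖v‖ = s * ‖T v‖ := by
        have : v = -(s • T v) := eq_neg_of_add_eq_zero_left hv'
        nth_rewrite 1 [this]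
        rw [norm_neg, norm_smul, Real.norm_eq_abs, abs_of_nonneg hs.1]
      by_contra hv0
      have hvpos : 0 < ‖v‖ := norm_pos_iff.2 hv0
      have h2 : ‖T v‖ < ‖v‖ := by
        calc ‖T v‖ ≤ ‖T‖ * ‖v‖ := T.le_opNorm v
          _ < 1 * ‖v‖ := by gcongr
          _ = ‖v‖ := one_mul _
      have h3 : s * ‖T v‖ ≤ 1 * ‖T v‖ := by gcongr; exact hs.2
      linarith
    have hu : IsUnit ((ContinuousLinearMap.id ℝ E + s • T : E →L[ℝ] E) : E →ₗ[ℝ] E) :=
      (LinearMap.isUnit_iff_ker_eq_bot _).2 (LinearMap.ker_eq_bot.2 hinj)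
    have := (LinearMap.isUnit_det _ hu).ne_zero
    exact this h0
  have h0 : P.eval 0 = 1 := by
    rw [hP, zero_smul, add_zero]
    show LinearMap.det (LinearMap.id : E →ₗ[ℝ] E) = 1
    exact LinearMap.det_id
  have h1 : P.eval 1 = (ContinuousLinearMap.id ℝ E + T).det := by
    rw [hP, one_smul]
  rw [← h1]
  by_contra hneg
  push Not at hneg
  have hcont : ContinuousOn (fun s : ℝ => P.eval s) (Icc 0 1) := P.continuous.continuousOn
  have hivt := intermediate_value_Icc' (zero_le_one : (0:ℝ) ≤ 1) hcont
  obtain ⟨s, hs, hs0⟩ := hivt ⟨hneg, by rw [h0]; norm_num⟩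
  exact hne s hs hs0

end det

section main

variable {E : Type*} [NormedAddCommGroup E] [NormedSpace ℝ E] [FiniteDimensional ℝ E]
  [MeasurableSpace E] [BorelSpace E]

/-- The integral of the Jacobian determinant of a map which is the identity on a sphere. -/
theorem vol_identity (μ : Measure E) [μ.IsAddHaarMeasure]
    (r : E → E) (hr : ContDiff ℝ 1 r) (R : ℝ)
    (hid : ∀ x, ‖x‖ = R → r x = x) :
    ∫ x in closedBall (0 : E) R, (fderiv ℝ r x).det ∂μ = μ.real (closedBall (0 : E) R) := by
  classical
  let B : Set E := closedBall 0 R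
  have hBc : IsCompact B := isCompact_closedBall 0 R
  have hBm : MeasurableSet B := isClosed_closedBall.measurableSet
  have hAc : Continuous (fun x => fderiv ℝ r x) := hr.continuous_fderiv (by norm_num)
  let T : E → E →L[ℝ] E := fun x => fderiv ℝ r x - ContinuousLinearMap.id ℝ E
  have hTc : Continuous T := hAc.sub continuous_const
  obtain ⟨C0, hC0⟩ := (hBc.image (hTc.norm)).bddAbove
  have hC0' : ∀ x ∈ B, ‖T x‖ ≤ C0 := fun x hx => hC0 ⟨x, hx, rfl⟩
  let C : ℝ≥0 := ⟨max C0 0, le_max_right _ _⟩
  have hC : ∀ x ∈ B, ‖T x‖ ≤ C := fun x hx => (hC0' x hx).trans (le_max_left _ _)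
  let H : E → E := fun x => r x - x
  have hHd : ∀ x, HasFDerivAt H (T x) x := by
    intro x
    have hd : HasFDerivAt r (fderiv ℝ r x) x :=
      (hr.differentiable (by norm_num)).differentiableAt.hasFDerivAt
    exact hd.sub (hasFDerivAt_id x)
  have hHl : LipschitzOnWith C H B := by
    apply Convex.lipschitzOnWith_of_nnnorm_hasFDerivWithin_le (𝕜 := ℝ)
      (fun x _ => (hHd x).hasFDerivWithinAt) _ (convex_closedBall 0 R)
    intro x hx
    have := hC x hx
    exact_mod_cast this
  let Ht : E → E := fun x => if ‖x‖ ≤ R then H x else 0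
  have hHt : LipschitzWith C Ht := by
    have := lipschitz_ext H C R hHl (fun x hx => by simp [H, hid x hx])
    convert this
  let ε : ℝ := 1 / (C + 1)
  have hCnn : (0:ℝ) ≤ C := C.2
  have hε : 0 < ε := by positivity
  have hεC : ∀ t : ℝ, 0 ≤ t → t < ε → t * C < 1 := by
    intro t ht0 ht
    have h1 : t * (C + 1) < 1 := by
      have := (lt_div_iff₀ (by positivity : (0:ℝ) < C + 1)).1 ht
      exact this
    nlinarith
  -- the volume identity for small t
  have hvol : ∀ t : ℝ, 0 ≤ t → t < ε →
      ∫ x in B, (ContinuousLinearMap.id ℝ E + t • T x).det ∂μ = μ.real B := by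
    intro t ht0 ht
    obtain ⟨t', ht'⟩ : ∃ t' : ℝ≥0, (t' : ℝ) = t := ⟨⟨t, ht0⟩, rfl⟩
    let K : ℝ≥0 := t' * C
    have hK : K < 1 := by
      have : ((K : ℝ≥0) : ℝ) < 1 := by
        rw [show (K : ℝ) = t' * C from NNReal.coe_mul _ _, ht']
        exact hεC t ht0 ht
      exact_mod_cast this
    have hHtl : LipschitzWith K (fun x => t • Ht x) := by
      have h1 : LipschitzWith t' (fun y : E => t • y) := by
        apply LipschitzWith.of_dist_le_mul
        intro a b
        rw [dist_smul₀, ht', Real.norm_eq_abs, abs_of_nonneg ht0]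
      exact h1.comp hHt
    obtain ⟨hinj, himg⟩ := id_add_lipschitz (fun x => t • Ht x) K hK hHtl R (by
      intro x hx
      simp [Ht, not_le.2 hx])
    have hder : ∀ x ∈ B, HasFDerivWithinAt (fun x => x + t • Ht x)
        (ContinuousLinearMap.id ℝ E + t • T x) B x := by
      intro x hx
      have h1 : HasFDerivAt (fun x => x + t • H x) (ContinuousLinearMap.id ℝ E + t • T x) x :=
        (hasFDerivAt_id x).add ((hHd x).const_smul t)
      refine h1.hasFDerivWithinAt.congr ?_ ?_
      · intro y hy
        have : ‖y‖ ≤ R := by simpa [B] using hy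
        simp [Ht, this]
      · have : ‖x‖ ≤ R := by simpa [B] using hx
        simp [Ht, this]
    have hcv := integral_image_eq_integral_abs_det_fderiv_smul μ hBm hder hinj.injOn
      (fun _ => (1:ℝ))
    have himg' : (fun x => x + t • Ht x) '' B = B := himg
    rw [himg'] at hcv
    have h2 : ∫ x in B, |(ContinuousLinearMap.id ℝ E + t • T x).det| • (1:ℝ) ∂μ =
        ∫ x in B, (ContinuousLinearMap.id ℝ E + t • T x).det ∂μ := by
      apply setIntegral_congr_fun hBm
      intro x hx
      have hpos : 0 < (ContinuousLinearMap.id ℝ E + t • T x).det := by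
        apply det_pos_of_norm_lt
        rw [norm_smul, Real.norm_eq_abs, abs_of_nonneg ht0]
        calc t * ‖T x‖ ≤ t * C := by gcongr; exact hC x hx
          _ < 1 := hεC t ht0 ht
      simp [abs_of_pos hpos]
    rw [← h2, ← hcv]
    simp [Measure.real]
  -- polynomial interpolation
  let n := Module.finrank ℝ E
  let v : Fin (n+1) → ℝ := fun j => ε * (j : ℝ) / (n + 2)
  have hv0 : ∀ j, 0 ≤ v j := fun j => by positivity
  have hvε : ∀ j, v j < ε := by
    intro j
    have h1 : (j : ℝ) < n + 2 := by
      have := j.2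
      have h2 : (j : ℝ) < (n + 1 : ℕ) := by exact_mod_cast this
      push_cast at h2
      linarith
    rw [show v j = ε * (j : ℝ) / (n + 2) from rfl, div_lt_iff₀ (by positivity)]
    exact mul_lt_mul_of_pos_left h1 hε
  have hvinj : Set.InjOn v (Finset.univ : Finset (Fin (n+1))) := by
    intro i _ j _ hij
    have h1 : ε * (i : ℝ) / (n + 2) = ε * (j : ℝ) / (n + 2) := hij
    have h2 : (i : ℝ) = j := by
      field_simp at h1
      have hε' : ε ≠ 0 := hε.ne'
      exact h1
    apply Fin.ext
    exact_mod_cast h2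
  let w : Fin (n+1) → ℝ := fun j => (Lagrange.basis Finset.univ v j).eval 1
  have hw1 : ∑ j, w j = 1 := by
    have := Lagrange.sum_basis (s := Finset.univ) hvinj ⟨0, Finset.mem_univ _⟩
    have h2 := congrArg (Polynomial.eval (1:ℝ)) this
    rw [Polynomial.eval_finsetSum] at h2
    simpa [w] using h2
  have hdetsum : ∀ x, (fderiv ℝ r x).det =
      ∑ j, w j * (ContinuousLinearMap.id ℝ E + v j • T x).det := by
    intro x
    obtain ⟨P, hPd, hP⟩ := det_poly (T x)
    have h1 : (fderiv ℝ r x).det = P.eval 1 := by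
      rw [hP]; simp [T]
    have hdeg : P.degree < (Finset.univ : Finset (Fin (n+1))).card := by
      rw [Finset.card_univ, Fintype.card_fin]
      calc P.degree ≤ P.natDegree := Polynomial.degree_le_natDegree
        _ < ((n + 1 : ℕ) : WithBot ℕ) := by
          exact_mod_cast Nat.lt_succ_of_le hPd
    have h2 := Lagrange.eq_interpolate hvinj hdeg
    rw [h1]
    conv_lhs => rw [h2]
    rw [Lagrange.interpolate_apply, Polynomial.eval_finsetSum]
    apply Finset.sum_congr rfl
    intro j _
    rw [Polynomial.eval_mul, Polynomial.eval_C, hP, mul_comm]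
  have hint : ∀ t : ℝ, IntegrableOn (fun x => (ContinuousLinearMap.id ℝ E + t • T x).det) B μ := by
    intro t
    have h1 : Continuous (fun x => (ContinuousLinearMap.id ℝ E + t • T x)) := by fun_prop
    exact (ContinuousLinearMap.continuous_det.comp h1).continuousOn.integrableOn_compact hBc
  calc ∫ x in B, (fderiv ℝ r x).det ∂μ
      = ∫ x in B, ∑ j, w j * (ContinuousLinearMap.id ℝ E + v j • T x).det ∂μ := by
        apply setIntegral_congr_fun hBm
        intro x _
        exact hdetsum x
    _ = ∑ j, ∫ x in B, w j * (ContinuousLinearMap.id ℝ E + v j • T x).det ∂μ := by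
        apply integral_finsetSum
        intro j _
        exact (hint (v j)).const_mul (w j)
    _ = ∑ j, w j * μ.real B := by
        apply Finset.sum_congr rfl
        intro j _
        rw [integral_const_mul, hvol (v j) (hv0 j) (hvε j)]
    _ = μ.real B := by
        rw [← Finset.sum_mul, hw1, one_mul]

omit [MeasurableSpace E] [BorelSpace E] in
lemma det_id_add_smulRight (f : E →L[ℝ] ℝ) (e : E) :
    (ContinuousLinearMap.id ℝ E + f.smulRight e).det = 1 + f e := by
  have h : ((ContinuousLinearMap.id ℝ E + f.smulRight e : E →L[ℝ] E) : E →ₗ[ℝ] E) =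
      LinearMap.transvection (f : E →ₗ[ℝ] ℝ) e := by
    ext x
    simp [LinearMap.transvection.apply]
  rw [ContinuousLinearMap.det, h, LinearMap.transvection.det]
  rfl

/-- Directional derivatives are killed. -/
theorem integral_dir_eq_zero (μ : Measure E) [μ.IsAddHaarMeasure]
    (Ξ : E → E) (hΞ : ContDiff ℝ 1 Ξ) (R : ℝ)
    (hid : ∀ x, ‖x‖ = R → Ξ x = x) (g : E → ℝ) (hg : ContDiff ℝ 1 g)
    (hg0 : ∀ x, ‖x‖ = R → g x = 0) (e : E) :
    ∫ x in closedBall (0 : E) R, fderiv ℝ g (Ξ x) e * (fderiv ℝ Ξ x).det ∂μ = 0 := by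
  have hd : ∀ x, HasFDerivAt Ξ (fderiv ℝ Ξ x) x := fun x =>
    (hΞ.differentiable (by norm_num)).differentiableAt.hasFDerivAt
  have hgd : ∀ x, HasFDerivAt g (fderiv ℝ g x) x := fun x =>
    (hg.differentiable (by norm_num)).differentiableAt.hasFDerivAt
  let r : E → E := fun x => Ξ x + g (Ξ x) • e
  have hr : ContDiff ℝ 1 r := hΞ.add ((hg.comp hΞ).smul contDiff_const)
  have hrd : ∀ x, fderiv ℝ r x =
      (ContinuousLinearMap.id ℝ E + (fderiv ℝ g (Ξ x)).smulRight e).comp (fderiv ℝ Ξ x) := by
    intro x
    have h1 : HasFDerivAt r (fderiv ℝ Ξ x +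
        ((fderiv ℝ g (Ξ x)).comp (fderiv ℝ Ξ x)).smulRight e) x :=
      (hd x).add (((hgd (Ξ x)).comp x (hd x)).smul_const e)
    rw [h1.fderiv]
    ext v
    simp
  have hrid : ∀ x, ‖x‖ = R → r x = x := by
    intro x hx
    simp only [r]
    rw [hid x hx, hg0 x hx, zero_smul, add_zero]
  have h1 := vol_identity μ r hr R hrid
  have h2 := vol_identity μ Ξ hΞ R hid
  have hBc : IsCompact (closedBall (0 : E) R) := isCompact_closedBall 0 R
  have hc1 : Continuous (fun x => (fderiv ℝ Ξ x).det) :=
    ContinuousLinearMap.continuous_det.comp (hΞ.continuous_fderiv (by norm_num))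
  have hc2 : Continuous (fun x => fderiv ℝ g (Ξ x) e * (fderiv ℝ Ξ x).det) := by
    apply Continuous.mul _ hc1
    exact ((hg.continuous_fderiv (by norm_num)).comp hΞ.continuous).clm_apply continuous_const
  have h3 : ∀ x, (fderiv ℝ r x).det =
      (fderiv ℝ Ξ x).det + fderiv ℝ g (Ξ x) e * (fderiv ℝ Ξ x).det := by
    intro x
    rw [hrd x]
    have : ((ContinuousLinearMap.id ℝ E + (fderiv ℝ g (Ξ x)).smulRight e).comp
        (fderiv ℝ Ξ x)).det = (ContinuousLinearMap.id ℝ E +
          (fderiv ℝ g (Ξ x)).smulRight e).det * (fderiv ℝ Ξ x).det := by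
      rw [ContinuousLinearMap.det, ContinuousLinearMap.det, ContinuousLinearMap.det,
        ← LinearMap.det_comp]
      rfl
    rw [this, det_id_add_smulRight]
    ring
  have h4 : ∫ x in closedBall (0 : E) R, (fderiv ℝ r x).det ∂μ =
      ∫ x in closedBall (0 : E) R, (fderiv ℝ Ξ x).det ∂μ +
      ∫ x in closedBall (0 : E) R, fderiv ℝ g (Ξ x) e * (fderiv ℝ Ξ x).det ∂μ := by
    rw [← integral_add (hc1.continuousOn.integrableOn_compact hBc)
      (hc2.continuousOn.integrableOn_compact hBc)]
    simp only [h3]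
  rw [h1, h2] at h4
  linarith

end main

end Pool.Agent.H834R2.Vol
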