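import Pool.Agent.H834R2.Twist

/-! A non-vanishing function on the hypersurface and a loop on which it winds once. -/

set_option autoImplicit false

open Set Filter Topology
open scoped Topology ContDiff Real

namespace Pool.Agent.H834R2

noncomputable section

/-- cutoff -/
def chi (u : ℝ) : ℝ := max 0 (min 1 ((16 - u) / 12))

lemma continuous_chi : Continuous chi := by
  unfold chi
  fun_prop

lemma chi_near {u : ℝ} (h : u ≤ 4) : chi u = 1 := by
  unfold chi
  rw [min_eq_left (by linarith), max_eq_right (by norm_num)]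

lemma chi_far {u : ℝ} (h : 16 ≤ u) : chi u = 0 := by
  unfold chi
  rw [max_eq_left]
  exact (min_le_right _ _).trans (by linarith)

/-- first component -/
def zr (ξ : E5) : ℝ := chi (usq 0 ξ) * rq (ξ.1 0) (ξ.1 1) (ξ.1 3)

/-- second component -/
def zi (ξ : E5) : ℝ := -1 / 8 + chi (usq 0 ξ) * (ξ.2 - 1 / 4)

lemma continuous_usq (n : Fin 3 → ℤ) : Continuous (usq n) := by
  have h0 := continuous_coord 0
  have h1 := continuous_coord 1
  have h2 := continuous_coord 2
  unfold usq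
  fun_prop

lemma continuous_zr : Continuous zr := by
  have h0 := continuous_coord 0
  have h1 := continuous_coord 1
  have h3 := continuous_coord 3
  have hu := continuous_chi.comp (continuous_usq 0)
  have hr : Continuous (fun ξ : E5 => rq (ξ.1 0) (ξ.1 1) (ξ.1 3)) := by
    unfold rq
    fun_prop
  exact hu.mul hr

lemma continuous_zi : Continuous zi := by
  have hu := continuous_chi.comp (continuous_usq 0)
  exact continuous_const.add (hu.mul (continuous_snd.sub continuous_const))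

lemma rel_zero (ξ : E5) (h : usq 0 ξ < 36) :
    Phi ξ = Fq (rq (ξ.1 0) (ξ.1 1) (ξ.1 3)) (rp (ξ.1 0) (ξ.1 1) (ξ.1 3)) (ξ.1 2) ξ.2 := by
  obtain ⟨h0, h1, h2⟩ := abs_lt_six' h
  rw [Phi_eq_G (n := 0) h0 h1 h2]
  unfold G
  simp

lemma y_of_usq {ξ : E5} (hξ : Phi ξ = 0) (h : usq 0 ξ < 36) (h4 : 4 ≤ usq 0 ξ) : ξ.2 = 1 / 4 := by
  obtain ⟨h0, h1, h2⟩ := abs_lt_six' h
  have := Phi_near_far 0 h0 h1 h2 h4
  rw [hξ] at this
  linarith

lemma z_ne {ξ : E5} (hξ : Phi ξ = 0) : ¬ (zr ξ = 0 ∧ zi ξ = 0) := by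
  rintro ⟨h1, h2⟩
  have hc : chi (usq 0 ξ) ≠ 0 := by
    intro h0
    unfold zi at h2
    rw [h0] at h2
    norm_num at h2
  have hu : usq 0 ξ < 16 := by
    by_contra hcon
    push Not at hcon
    exact hc (chi_far hcon)
  have hu4 : usq 0 ξ < 4 := by
    by_contra hcon
    push Not at hcon
    have := y_of_usq hξ (by linarith) hcon
    unfold zi at h2
    rw [this] at h2
    norm_num at h2
  have hchi := chi_near hu4.le
  unfold zr at h1
  unfold zi at h2
  rw [hchi] at h1 h2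
  rw [one_mul] at h1 h2
  have hy : ξ.2 = 3 / 8 := by linarith
  have hP := rel_zero ξ (by linarith)
  rw [hξ, h1, hy] at hP
  unfold Fq at hP
  rw [hp_eq_one] at hP
  · norm_num at hP
  · unfold Tq
    have := psi_nonneg (3 / 8)
    nlinarith [sq_nonneg (rp (ξ.1 0) (ξ.1 1) (ξ.1 3)), sq_nonneg (ξ.1 2)]

/-- the non-vanishing function -/
def zz (ξ : E5) : ℂ := ⟨zr ξ, zi ξ⟩

lemma continuous_zz : Continuous zz := by
  have : zz = fun ξ => (zr ξ : ℂ) + (zi ξ : ℂ) * Complex.I := by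
    funext ξ
    apply Complex.ext <;> simp [zz]
  rw [this]
  exact (Complex.continuous_ofReal.comp continuous_zr).add
    ((Complex.continuous_ofReal.comp continuous_zi).mul continuous_const)

lemma zz_ne {ξ : E5} (hξ : Phi ξ = 0) : zz ξ ≠ 0 := by
  intro h
  exact z_ne hξ ⟨congrArg Complex.re h, congrArg Complex.im h⟩

/-- values at points in rotating coordinates -/
lemma usq_pt (n : Fin 3 → ℤ) (q p c s y : ℝ) : usq n (pt n q p c s y) = q ^ 2 + p ^ 2 + c ^ 2 := by
  have e0 : (pt n q p c s y).1 0 - 10 * n 0 = q * Real.cos (π * s) - p * Real.sin (π * s) := by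
    rw [pt, pE_0]; ring
  have e1 : (pt n q p c s y).1 1 - 10 * n 1 = q * Real.sin (π * s) + p * Real.cos (π * s) := by
    rw [pt, pE_1]; ring
  have e2 : (pt n q p c s y).1 2 - 10 * n 2 = c := by
    rw [pt, pE_2]; ring
  unfold usq
  rw [e0, e1, e2, rot_sq]

lemma zr_pt {q p c s y : ℝ} (h : q ^ 2 + p ^ 2 + c ^ 2 ≤ 4) : zr (pt 0 q p c s y) = q := by
  unfold zr
  rw [usq_pt, chi_near h, one_mul]
  have e0 : (pt 0 q p c s y).1 0 = q * Real.cos (π * s) - p * Real.sin (π * s) := by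
    rw [pt, pE_0]; simp
  have e1 : (pt 0 q p c s y).1 1 = q * Real.sin (π * s) + p * Real.cos (π * s) := by
    rw [pt, pE_1]; simp
  have e3 : (pt 0 q p c s y).1 3 = s := rfl
  rw [e0, e1, e3, rq_rot]

lemma zi_pt {q p c s y : ℝ} (h : q ^ 2 + p ^ 2 + c ^ 2 ≤ 4) : zi (pt 0 q p c s y) = y - 3 / 8 := by
  unfold zi
  rw [usq_pt, chi_near h, one_mul]
  have e4 : (pt 0 q p c s y).2 = y := rfl
  rw [e4]; ring

/-- step of the winding argument -/
lemma wind_step {T : Type*} [TopologicalSpace T] {M : T → ℝ} (hM : Continuous M) {K : Set T}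
    (hK : IsPreconnected K) {a b : ℝ} (ha : ∀ x ∈ K, M x ≠ a) (hb : ∀ x ∈ K, M x ≠ b)
    {x y : T} (hx : x ∈ K) (hy : y ∈ K) (h : M x ∈ Ioo a b) : M y ∈ Ioo a b := by
  have himg : IsPreconnected (M '' K) := hK.image M hM.continuousOn
  have hoc := himg.ordConnected
  constructor
  · by_contra hcon
    push Not at hcon
    have : a ∈ M '' K := hoc.out ⟨y, hy, rfl⟩ ⟨x, hx, rfl⟩ ⟨hcon, h.1.le⟩
    obtain ⟨w, hw, hw2⟩ := this
    exact ha w hw hw2
  · by_contra hcon
    push Not at hcon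
    have : b ∈ M '' K := hoc.out ⟨x, hx, rfl⟩ ⟨y, hy, rfl⟩ ⟨h.2.le, hcon⟩
    obtain ⟨w, hw, hw2⟩ := this
    exact hb w hw hw2

/-- the winding argument -/
theorem winding {T : Type*} [TopologicalSpace T] {M q h : T → ℝ} (hM : Continuous M)
    {K1 K2 K3 K4 : Set T} (c1 : IsPreconnected K1) (c2 : IsPreconnected K2)
    (c3 : IsPreconnected K3) (c4 : IsPreconnected K4)
    (e : ∀ x ∈ K1 ∪ K2 ∪ K3 ∪ K4, ∃ r : ℝ, 0 < r ∧ q x ^ 2 - h x ^ 2 = r * Real.cos (M x) ∧
      2 * q x * h x = r * Real.sin (M x))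
    (h1 : ∀ x ∈ K1, 0 < h x) (h2 : ∀ x ∈ K2, q x < 0) (h3 : ∀ x ∈ K3, h x < 0)
    (h4 : ∀ x ∈ K4, 0 < q x)
    {x0 x1 x2 x3 : T} (m41 : x0 ∈ K4) (m11 : x0 ∈ K1) (m12 : x1 ∈ K1) (m22 : x1 ∈ K2)
    (m23 : x2 ∈ K2) (m33 : x2 ∈ K3) (m34 : x3 ∈ K3) (m44 : x3 ∈ K4) : False := by
  have e1 : ∀ x ∈ K1, _ := fun x hx => e x (Or.inl (Or.inl (Or.inl hx)))
  have e2 : ∀ x ∈ K2, _ := fun x hx => e x (Or.inl (Or.inl (Or.inr hx)))
  have e3 : ∀ x ∈ K3, _ := fun x hx => e x (Or.inl (Or.inr hx))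
  have e4 : ∀ x ∈ K4, _ := fun x hx => e x (Or.inr hx)
  -- sines at the corner points
  have s0 : 0 < Real.sin (M x0) := by
    obtain ⟨r, hr, -, hs⟩ := e1 x0 m11
    have := mul_pos (h4 x0 m41) (h1 x0 m11)
    by_contra hcon
    push Not at hcon
    nlinarith [mul_nonneg hr.le (neg_nonneg.2 hcon)]
  have s1 : Real.sin (M x1) < 0 := by
    obtain ⟨r, hr, -, hs⟩ := e1 x1 m12
    have := mul_pos (neg_pos.2 (h2 x1 m22)) (h1 x1 m12)
    by_contra hcon
    push Not at hcon
    nlinarith [mul_nonneg hr.le hcon]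
  have s2 : 0 < Real.sin (M x2) := by
    obtain ⟨r, hr, -, hs⟩ := e3 x2 m33
    have := mul_pos (neg_pos.2 (h2 x2 m23)) (neg_pos.2 (h3 x2 m33))
    by_contra hcon
    push Not at hcon
    nlinarith [mul_nonneg hr.le (neg_nonneg.2 hcon)]
  have s3 : Real.sin (M x3) < 0 := by
    obtain ⟨r, hr, -, hs⟩ := e3 x3 m34
    have := mul_pos (h4 x3 m44) (neg_pos.2 (h3 x3 m34))
    by_contra hcon
    push Not at hcon
    nlinarith [mul_nonneg hr.le hcon]
  -- forbidden values
  have f1 : ∀ x ∈ K1, ∀ k : ℤ, M x ≠ (k : ℝ) * (2 * π) := by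
    intro x hx k hk
    obtain ⟨r, hr, hc, hs⟩ := e1 x hx
    rw [hk, Real.cos_int_mul_two_pi] at hc
    have hsin : Real.sin ((k : ℝ) * (2 * π)) = 0 := by
      have := Real.sin_add_int_mul_two_pi 0 k
      rw [zero_add, Real.sin_zero] at this
      exact this
    rw [hk, hsin] at hs
    have := h1 x hx
    have hq : q x = 0 := by
      have h5 : q x * h x = 0 := by linarith
      rcases mul_eq_zero.1 h5 with h6 | h6
      · exact h6
      · linarith
    rw [hq] at hc
    nlinarith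
  have f3 : ∀ x ∈ K3, ∀ k : ℤ, M x ≠ (k : ℝ) * (2 * π) := by
    intro x hx k hk
    obtain ⟨r, hr, hc, hs⟩ := e3 x hx
    rw [hk, Real.cos_int_mul_two_pi] at hc
    have hsin : Real.sin ((k : ℝ) * (2 * π)) = 0 := by
      have := Real.sin_add_int_mul_two_pi 0 k
      rw [zero_add, Real.sin_zero] at this
      exact this
    rw [hk, hsin] at hs
    have := h3 x hx
    have hq : q x = 0 := by
      have h5 : q x * h x = 0 := by linarith
      rcases mul_eq_zero.1 h5 with h6 | h6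
      · exact h6
      · linarith
    rw [hq] at hc
    nlinarith
  have f2 : ∀ x ∈ K2, ∀ k : ℤ, M x ≠ π + (k : ℝ) * (2 * π) := by
    intro x hx k hk
    obtain ⟨r, hr, hc, hs⟩ := e2 x hx
    rw [hk, Real.cos_add_int_mul_two_pi, Real.cos_pi] at hc
    rw [hk, Real.sin_add_int_mul_two_pi, Real.sin_pi] at hs
    have := h2 x hx
    have hq : h x = 0 := by
      have h5 : q x * h x = 0 := by linarith
      rcases mul_eq_zero.1 h5 with h6 | h6
      · linarith
      · exact h6
    rw [hq] at hc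
    nlinarith
  have f4 : ∀ x ∈ K4, ∀ k : ℤ, M x ≠ π + (k : ℝ) * (2 * π) := by
    intro x hx k hk
    obtain ⟨r, hr, hc, hs⟩ := e4 x hx
    rw [hk, Real.cos_add_int_mul_two_pi, Real.cos_pi] at hc
    rw [hk, Real.sin_add_int_mul_two_pi, Real.sin_pi] at hs
    have := h4 x hx
    have hq : h x = 0 := by
      have h5 : q x * h x = 0 := by linarith
      rcases mul_eq_zero.1 h5 with h6 | h6
      · linarith
      · exact h6
    rw [hq] at hc
    nlinarith
  have hpi := Real.pi_pos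
  -- normalisation
  set k : ℤ := ⌊M x0 / (2 * π)⌋ with hk
  have b0 : (k : ℝ) * (2 * π) ≤ M x0 := by
    have := Int.floor_le (M x0 / (2 * π))
    rwa [le_div_iff₀ (by positivity)] at this
  have b1 : M x0 < ((k : ℝ) + 1) * (2 * π) := by
    have := Int.lt_floor_add_one (M x0 / (2 * π))
    rwa [div_lt_iff₀ (by positivity)] at this
  have key : ∀ t : ℝ, Real.sin (t - (k : ℝ) * (2 * π)) = Real.sin t := fun t =>
    Real.sin_sub_int_mul_two_pi t k
  have b2 : M x0 < (k : ℝ) * (2 * π) + π := by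
    by_contra hcon
    push Not at hcon
    have h5 : 0 ≤ Real.sin (M x0 - (k : ℝ) * (2 * π) - π) :=
      Real.sin_nonneg_of_nonneg_of_le_pi (by linarith) (by linarith)
    rw [Real.sin_sub_pi, key] at h5
    linarith
  have b3 : (k : ℝ) * (2 * π) < M x0 := lt_of_le_of_ne b0 (Ne.symm (f1 x0 m11 k))
  -- K1
  have g1 : M x1 ∈ Ioo ((k : ℝ) * (2 * π)) (((k : ℝ) + 1) * (2 * π)) := by
    apply wind_step hM c1 (fun x hx => f1 x hx k) _ m11 m12 ⟨b3, b1⟩
    intro x hx
    have := f1 x hx (k + 1)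
    push_cast at this
    exact this
  have g1' : (k : ℝ) * (2 * π) + π < M x1 := by
    by_contra hcon
    push Not at hcon
    have h5 : 0 ≤ Real.sin (M x1 - (k : ℝ) * (2 * π)) :=
      Real.sin_nonneg_of_nonneg_of_le_pi (by linarith [g1.1]) (by linarith)
    rw [key] at h5
    linarith
  -- K2
  have g2 : M x2 ∈ Ioo (π + (k : ℝ) * (2 * π)) (π + ((k : ℝ) + 1) * (2 * π)) := by
    apply wind_step hM c2 (fun x hx => f2 x hx k) _ m22 m23 ⟨by linarith, by linarith [g1.2]⟩
    intro x hx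
    have := f2 x hx (k + 1)
    push_cast at this
    exact this
  have g2' : ((k : ℝ) + 1) * (2 * π) < M x2 := by
    by_contra hcon
    push Not at hcon
    have h5 : 0 ≤ Real.sin (M x2 - (k : ℝ) * (2 * π) - π) :=
      Real.sin_nonneg_of_nonneg_of_le_pi (by linarith [g2.1]) (by linarith)
    rw [Real.sin_sub_pi, key] at h5
    linarith
  -- K3
  have g3 : M x3 ∈ Ioo (((k : ℝ) + 1) * (2 * π)) (((k : ℝ) + 1 + 1) * (2 * π)) := by
    apply wind_step hM c3 _ _ m33 m34 ⟨g2', by linarith [g2.2]⟩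
    · intro x hx
      have := f3 x hx (k + 1)
      push_cast at this
      exact this
    · intro x hx
      have := f3 x hx (k + 1 + 1)
      push_cast at this
      exact this
  have g3' : π + ((k : ℝ) + 1) * (2 * π) < M x3 := by
    by_contra hcon
    push Not at hcon
    have h5 : 0 ≤ Real.sin (M x3 - ((k + 1 : ℤ) : ℝ) * (2 * π)) := by
      apply Real.sin_nonneg_of_nonneg_of_le_pi
      · push_cast; linarith [g3.1]
      · push_cast; linarith
    rw [Real.sin_sub_int_mul_two_pi] at h5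
    linarith
  -- K4
  have g4 : M x0 ∈ Ioo (π + ((k : ℝ) + 1) * (2 * π)) (π + ((k : ℝ) + 1 + 1) * (2 * π)) := by
    apply wind_step hM c4 _ _ m44 m41 ⟨g3', by linarith [g3.2]⟩
    · intro x hx
      have := f4 x hx (k + 1)
      push_cast at this
      exact this
    · intro x hx
      have := f4 x hx (k + 1 + 1)
      push_cast at this
      exact this
  linarith [g4.1]

end

end Pool.Agent.H834R2
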